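import Pool.Agent.Lib.MP_10e784_agW.Defs

/-!
# LEAF SC1: the sum of `1 / φ(m)`

PROOF of `phi_sum`.  `m / φ(m) = ∑_{e ∣ m} μ(e)² / φ(e)` or, simpler, `m / φ(m) ≤ 2 ∑_{e² ∣ ..}`..: a short way: `m / φ(m) = ∏_{p ∣ m} (1 + 1/(p-1)) = ∑_{e ∣ rad m} 1/φ(e)`, so `∑_{m ≤ M} 1/φ(m) = ∑_{m ≤ M} (1/m) ∑_{e ∣ m, e squarefree} 1/φ(e)
≤ ∑_{e ≤ M} 1/(e φ(e)) ∑_{n ≤ M} 1/n`, and `∑ 1/(e φ(e))` is bounded as `φ(e) ≥ √e / √2` (or `φ(e)² ≥ e / 2`).  Another way: `∑_{m ≤ M} 1/φ(m) ≤ ∏_{p ≤ M} (1 + 1/(p-1) + 1/(p(p-1)) + ..) = ∏_{p ≤ M} (1 + p/(p-1)²)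
≤ exp (∑_{p ≤ M} 1/p + C) ≤ C log M` with the Mertens bound of the library (`MP_2c5684_nt/Mertens.lean`).
-/

namespace MWS

open Finset

private theorem SC1_tot (n : ℕ) : n ≤ 2 * n.totient ^ 2 := by
  have hpp : ∀ p k : ℕ, p.Prime → p ≠ 2 → p ^ k ≤ (p ^ k).totient ^ 2 := by
    intro p k hp hp2
    have hp3 : 3 ≤ p := by have := hp.two_le; omega
    rcases Nat.eq_zero_or_pos k with rfl | hk
    · simp
    · rw [Nat.totient_prime_pow hp hk]
      obtain ⟨k, rfl⟩ := Nat.exists_eq_succ_of_ne_zero hk.ne'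
      obtain ⟨q, rfl⟩ : ∃ q, p = q + 1 := ⟨p - 1, by omega⟩
      simp only [Nat.succ_eq_add_one, Nat.add_sub_cancel]
      have h1 : 1 ≤ (q + 1) ^ k := Nat.one_le_pow _ _ (by omega)
      have h2 : q + 1 ≤ q ^ 2 := by nlinarith
      calc (q + 1) ^ (k + 1) = (q + 1) ^ k * (q + 1) := pow_succ _ _
        _ ≤ (q + 1) ^ k * q ^ 2 := Nat.mul_le_mul_left _ h2
        _ ≤ ((q + 1) ^ k * (q + 1) ^ k) * q ^ 2 := by
            refine Nat.mul_le_mul_right _ ?_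
            nlinarith
        _ = ((q + 1) ^ k * q) ^ 2 := by ring
  have hodd : ∀ m : ℕ, Odd m → m ≤ m.totient ^ 2 := by
    intro m
    induction m using Nat.recOnPosPrimePosCoprime with
    | prime_pow p k hp hk =>
      intro hodd
      refine hpp p k hp ?_
      rintro rfl
      exact (Nat.not_odd_iff_even.mpr (Nat.even_pow.mpr ⟨even_two, hk.ne'⟩)) hodd
    | zero => intro h; simp
    | one => intro h; simp
    | coprime a b ha hb hab iha ihb =>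
      intro h
      rw [Nat.totient_mul hab, mul_pow]
      rw [Nat.odd_mul] at h
      exact Nat.mul_le_mul (iha h.1) (ihb h.2)
  rcases Nat.eq_zero_or_pos n with rfl | hn
  · simp
  obtain ⟨k, m, hm, rfl⟩ := Nat.exists_eq_two_pow_mul_odd hn.ne'
  have hcop : Nat.Coprime (2 ^ k) m := Nat.Coprime.pow_left _ (Nat.coprime_two_left.mpr hm)
  rw [Nat.totient_mul hcop, mul_pow, ← mul_assoc]
  refine Nat.mul_le_mul ?_ (hodd m hm)
  rcases Nat.eq_zero_or_pos k with rfl | hk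
  · simp
  · rw [Nat.totient_prime_pow Nat.prime_two hk]
    obtain ⟨k, rfl⟩ := Nat.exists_eq_succ_of_ne_zero hk.ne'
    simp only [Nat.succ_eq_add_one, Nat.add_sub_cancel]
    have h1 : 1 ≤ 2 ^ k := Nat.one_le_two_pow
    rw [pow_succ]
    nlinarith

private theorem SC1_inv {l : ℕ} (hl : 1 ≤ l) : 1 / (l.totient : ℝ) ≤ 2 * (l : ℝ) ^ (-(1 / 2) : ℝ) := by
  have h1 : (l : ℝ) ≤ 2 * (l.totient : ℝ) ^ 2 := by exact_mod_cast SC1_tot l
  have hl0 : (0 : ℝ) < l := by exact_mod_cast hl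
  have ht0 : (0 : ℝ) < l.totient := by exact_mod_cast Nat.totient_pos.2 hl
  have h2 : (l : ℝ) ^ (1 / 2 : ℝ) ≤ 2 * l.totient := by
    have h3 : (l : ℝ) ^ (1 / 2 : ℝ) ≤ ((2 * (l.totient : ℝ)) ^ (2 : ℕ)) ^ (1 / 2 : ℝ) :=
      Real.rpow_le_rpow hl0.le (by nlinarith) (by norm_num)
    rwa [← Real.sqrt_eq_rpow, ← Real.sqrt_eq_rpow, Real.sqrt_sq (by positivity),
      Real.sqrt_eq_rpow] at h3
  have h4 : (0 : ℝ) < (l : ℝ) ^ (1 / 2 : ℝ) := Real.rpow_pos_of_pos hl0 _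
  rw [Real.rpow_neg hl0.le, ← div_eq_mul_inv, div_le_div_iff₀ ht0 h4]
  linarith

private theorem SC1_prod (s : Finset ℕ) (hs : ∀ p ∈ s, p.Prime) :
    ((∏ p ∈ s, p).totient : ℝ) = ∏ p ∈ s, ((p : ℝ) - 1) := by
  classical
  induction s using Finset.induction_on with
  | empty => simp
  | insert a s ha ih =>
    rw [prod_insert ha, prod_insert ha]
    have hpa : a.Prime := hs a (mem_insert_self a s)
    have hc : Nat.Coprime a (∏ p ∈ s, p) := by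
      refine Nat.Coprime.prod_right fun p hp => ?_
      rw [Nat.coprime_primes hpa (hs p (mem_insert_of_mem hp))]
      rintro rfl
      exact ha hp
    rw [Nat.totient_mul hc, Nat.totient_prime hpa, Nat.cast_mul,
      ih fun p hp => hs p (mem_insert_of_mem hp), Nat.cast_sub hpa.one_le, Nat.cast_one]

open Classical in
private theorem SC1_sqf {d : ℕ} (hd : 1 ≤ d) :
    ∑ l ∈ d.divisors.filter (fun l => Squarefree l), 1 / (l.totient : ℝ) = (d : ℝ) / d.totient := by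
  have hd0 : d ≠ 0 := by omega
  have hfac : (UniqueFactorizationMonoid.normalizedFactors d).toFinset = d.primeFactors := by
    ext p
    rw [Multiset.mem_toFinset, Nat.mem_primeFactors, UniqueFactorizationMonoid.mem_normalizedFactors_iff' hd0,
      ← Nat.prime_iff_prime_int.trans Nat.prime_iff_prime_int.symm, ← Nat.irreducible_iff_nat_prime]
    simp [hd0]
  have h1 : ∑ l ∈ d.divisors.filter (fun l => Squarefree l), 1 / (l.totient : ℝ) =
      ∑ i ∈ d.primeFactors.powerset, 1 / ((∏ p ∈ i, p).totient : ℝ) := by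
    have h2 := Nat.sum_divisors_filter_squarefree hd0 (f := fun l => 1 / (l.totient : ℝ))
    rw [hfac] at h2
    refine Eq.trans ?_ (h2.trans ?_)
    · refine sum_congr ?_ fun _ _ => rfl
      ext l
      simp only [mem_filter]
    · refine sum_congr rfl fun i _ => ?_
      rw [Finset.prod_val]
      rfl
  rw [h1]
  have h3 : ∑ i ∈ d.primeFactors.powerset, 1 / ((∏ p ∈ i, p).totient : ℝ) =
      ∑ i ∈ d.primeFactors.powerset, ∏ p ∈ i, (1 / ((p : ℝ) - 1)) := by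
    refine sum_congr rfl fun i hi => ?_
    rw [mem_powerset] at hi
    rw [SC1_prod i fun p hp => Nat.prime_of_mem_primeFactors (hi hp), prod_div_distrib, prod_const_one]
  rw [h3, ← prod_one_add]
  have h4 := Nat.totient_mul_prod_primeFactors d
  have h5 : (d.totient : ℝ) * ∏ p ∈ d.primeFactors, (p : ℝ) = (d : ℝ) * ∏ p ∈ d.primeFactors, ((p : ℝ) - 1) := by
    have h6 : ((d.totient * ∏ p ∈ d.primeFactors, p : ℕ) : ℝ) = ((d * ∏ p ∈ d.primeFactors, (p - 1) : ℕ) : ℝ) := by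
      rw [h4]
    rw [Nat.cast_mul, Nat.cast_mul, Nat.cast_prod, Nat.cast_prod] at h6
    rw [h6]
    congr 1
    refine prod_congr rfl fun p hp => ?_
    rw [Nat.cast_sub (Nat.prime_of_mem_primeFactors hp).one_le, Nat.cast_one]
  have h7 : ∏ p ∈ d.primeFactors, (1 + 1 / ((p : ℝ) - 1)) =
      (∏ p ∈ d.primeFactors, (p : ℝ)) / ∏ p ∈ d.primeFactors, ((p : ℝ) - 1) := by
    rw [← prod_div_distrib]
    refine prod_congr rfl fun p hp => ?_
    have h8 : (2 : ℝ) ≤ p := by exact_mod_cast (Nat.prime_of_mem_primeFactors hp).two_le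
    have h9 : (p : ℝ) - 1 ≠ 0 := by linarith
    field_simp
    ring
  have h10 : (0 : ℝ) < d.totient := by exact_mod_cast Nat.totient_pos.mpr hd
  have h11 : (0 : ℝ) < ∏ p ∈ d.primeFactors, ((p : ℝ) - 1) := by
    refine prod_pos fun p hp => ?_
    have h8 : (2 : ℝ) ≤ p := by exact_mod_cast (Nat.prime_of_mem_primeFactors hp).two_le
    linarith
  rw [h7, div_eq_div_iff h11.ne' h10.ne', mul_comm, h5]

/-- `∑_{m ≤ N, e ∣ m} 1/m ≤ (1/e) H_N` -/
private theorem SC1_mult (N e : ℕ) (he : 1 ≤ e) :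
    ∑ m ∈ (Icc 1 N).filter (fun m => e ∣ m), (1 : ℝ) / (m : ℝ) ≤ 1 / (e : ℝ) * ∑ k ∈ Icc 1 N, (1 : ℝ) / (k : ℝ) := by
  have hsub : (Icc 1 N).filter (fun m => e ∣ m) ⊆ (Icc 1 N).image (fun k => e * k) := by
    intro m hm
    rw [mem_filter, mem_Icc] at hm
    obtain ⟨⟨h1, h2⟩, k, rfl⟩ := hm
    rw [mem_image]
    refine ⟨k, mem_Icc.mpr ⟨?_, ?_⟩, rfl⟩
    · exact Nat.pos_of_ne_zero fun h => by
        rw [h, mul_zero] at h1
        omega
    · exact le_trans (Nat.le_mul_of_pos_left k he) h2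
  have h1 : ∑ m ∈ (Icc 1 N).filter (fun m => e ∣ m), (1 : ℝ) / (m : ℝ) ≤
      ∑ m ∈ (Icc 1 N).image (fun k => e * k), (1 : ℝ) / (m : ℝ) :=
    sum_le_sum_of_subset_of_nonneg hsub fun _ _ _ => by positivity
  refine h1.trans ?_
  rw [sum_image]
  · rw [mul_sum]
    apply sum_le_sum
    intro k _
    push_cast
    rw [one_div_mul_one_div]
  · intro k _ l _ h
    exact Nat.eq_of_mul_eq_mul_left he h

theorem phi_sum : ∃ C : ℝ, 0 < C ∧ ∀ M : ℝ, 1 ≤ M →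
    ∑ m ∈ Icc 1 ⌊M⌋₊, (1 : ℝ) / (Nat.totient m : ℝ) ≤ C * (1 + Real.log M) := by
  classical
  have hsum : Summable (fun n : ℕ => (1 : ℝ) / (n : ℝ) ^ (3 / 2 : ℝ)) :=
    Real.summable_one_div_nat_rpow.2 (by norm_num)
  set S : ℝ := ∑' n : ℕ, (1 : ℝ) / (n : ℝ) ^ (3 / 2 : ℝ) with hS
  have hS0 : 0 ≤ S := tsum_nonneg fun n => by positivity
  refine ⟨2 * S + 1, by linarith, fun M hM => ?_⟩
  set N : ℕ := ⌊M⌋₊ with hN
  have hNM : (N : ℝ) ≤ M := Nat.floor_le (by linarith)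
  have hN1 : 1 ≤ N := Nat.le_floor (by exact_mod_cast hM)
  have hlogM : 0 ≤ Real.log M := Real.log_nonneg hM
  -- the harmonic sum
  have hH : ∑ k ∈ Icc 1 N, (1 : ℝ) / (k : ℝ) ≤ 1 + Real.log M := by
    have h7 := harmonic_le_one_add_log N
    have h8 : ((harmonic N : ℚ) : ℝ) = ∑ r ∈ Icc 1 N, 1 / (r : ℝ) := by
      rw [harmonic_eq_sum_Icc]
      push_cast
      simp
    rw [h8] at h7
    have h9 : Real.log N ≤ Real.log M := Real.log_le_log (by exact_mod_cast hN1) hNM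
    linarith
  -- the identity
  have h1 : ∀ m ∈ Icc 1 N, (1 : ℝ) / (Nat.totient m : ℝ) ≤
      ∑ e ∈ Icc 1 N, if e ∣ m then 1 / (e.totient : ℝ) * (1 / (m : ℝ)) else 0 := by
    intro m hm
    rw [mem_Icc] at hm
    have hm0 : (0 : ℝ) < m := by exact_mod_cast hm.1
    have h2 := SC1_sqf hm.1
    have h3 : (1 : ℝ) / (Nat.totient m : ℝ) = (1 / (m : ℝ)) * ((m : ℝ) / m.totient) := by
      field_simp
    rw [h3, ← h2, mul_sum, ← sum_filter]
    have hsub : m.divisors.filter (fun l => Squarefree l) ⊆ (Icc 1 N).filter (fun e => e ∣ m) := by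
      intro e he
      rw [mem_filter, Nat.mem_divisors] at he
      rw [mem_filter, mem_Icc]
      exact ⟨⟨Nat.pos_of_dvd_of_pos he.1.1 hm.1, (Nat.le_of_dvd hm.1 he.1.1).trans hm.2⟩, he.1.1⟩
    calc ∑ i ∈ m.divisors.filter (fun l => Squarefree l), 1 / (m : ℝ) * (1 / (i.totient : ℝ))
        = ∑ i ∈ m.divisors.filter (fun l => Squarefree l), 1 / (i.totient : ℝ) * (1 / (m : ℝ)) :=
          sum_congr rfl fun _ _ => mul_comm _ _
      _ ≤ ∑ i ∈ (Icc 1 N).filter (fun e => e ∣ m), 1 / (i.totient : ℝ) * (1 / (m : ℝ)) :=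
          sum_le_sum_of_subset_of_nonneg hsub fun _ _ _ => by positivity
  have h2 : ∑ m ∈ Icc 1 N, (1 : ℝ) / (Nat.totient m : ℝ) ≤
      ∑ e ∈ Icc 1 N, 1 / (e.totient : ℝ) * (1 / (e : ℝ) * (1 + Real.log M)) := by
    refine (sum_le_sum h1).trans ?_
    rw [sum_comm]
    apply sum_le_sum
    intro e he
    rw [mem_Icc] at he
    rw [← sum_filter, ← mul_sum]
    apply mul_le_mul_of_nonneg_left _ (by positivity)
    refine (SC1_mult N e he.1).trans ?_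
    exact mul_le_mul_of_nonneg_left hH (by positivity)
  have h3 : ∑ e ∈ Icc 1 N, 1 / (e.totient : ℝ) * (1 / (e : ℝ) * (1 + Real.log M)) ≤
      ∑ e ∈ Icc 1 N, 2 * (1 + Real.log M) * (1 / (e : ℝ) ^ (3 / 2 : ℝ)) := by
    apply sum_le_sum
    intro e he
    rw [mem_Icc] at he
    have he0 : (0 : ℝ) < e := by exact_mod_cast he.1
    have h4 := SC1_inv he.1
    have h5 : (e : ℝ) ^ (-(1 / 2) : ℝ) * (1 / (e : ℝ)) = 1 / (e : ℝ) ^ (3 / 2 : ℝ) := by
      have e1 : (1 : ℝ) / (e : ℝ) = (e : ℝ) ^ (-1 : ℝ) := by rw [Real.rpow_neg_one, one_div]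
      have e2 : 1 / (e : ℝ) ^ (3 / 2 : ℝ) = (e : ℝ) ^ (-(3 / 2) : ℝ) := by rw [Real.rpow_neg he0.le, one_div]
      rw [e1, e2, ← Real.rpow_add he0]
      norm_num
    calc 1 / (e.totient : ℝ) * (1 / (e : ℝ) * (1 + Real.log M))
        ≤ 2 * (e : ℝ) ^ (-(1 / 2) : ℝ) * (1 / (e : ℝ) * (1 + Real.log M)) := by gcongr
      _ = 2 * (1 + Real.log M) * ((e : ℝ) ^ (-(1 / 2) : ℝ) * (1 / (e : ℝ))) := by ring
      _ = 2 * (1 + Real.log M) * (1 / (e : ℝ) ^ (3 / 2 : ℝ)) := by rw [h5]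
  have h4 : ∑ e ∈ Icc 1 N, (1 : ℝ) / (e : ℝ) ^ (3 / 2 : ℝ) ≤ S :=
    hsum.sum_le_tsum _ fun _ _ => by positivity
  calc ∑ m ∈ Icc 1 N, (1 : ℝ) / (Nat.totient m : ℝ)
      ≤ ∑ e ∈ Icc 1 N, 2 * (1 + Real.log M) * (1 / (e : ℝ) ^ (3 / 2 : ℝ)) := h2.trans h3
    _ = 2 * (1 + Real.log M) * ∑ e ∈ Icc 1 N, (1 : ℝ) / (e : ℝ) ^ (3 / 2 : ℝ) := by rw [mul_sum]
    _ ≤ 2 * (1 + Real.log M) * S := by gcongr
    _ ≤ (2 * S + 1) * (1 + Real.log M) := by nlinarith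

end MWS
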