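import Pool.Agent.Lib.MP_10e784_agW.Defs
import Pool.Agent.Lib.MP_17a322_nt.VJ.MW4

/-!
# LEAF GA: classes modulo `L` in the Mordell-Weil group

PROOF of `classes`.  `G` is generated by `g_1, .., g_s` (`AddGroup.FG`, or `Module.Finite ℤ G`: a surjection `(Fin s → ℤ) → G`).  For `L ≥ 1`, `r (k_1, .., k_s) = ∑ k_i g_i`, `0 ≤ k_i < L`; `P = ∑ n_i g_i`, `k_i = n_i mod L`, `Q = ∑ (n_i / L) g_i`.  `Fin (L ^ s) ≃ (Fin s → Fin L)` (`finFunctionFinEquiv`).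
PROOF of `mw`: `mordell_weil` of `VJ/MW4.lean` for the number field `ℚ` and the curve `EW ℚ α β` (elliptic as `dsc ≠ 0`; `Δ = -16 dsc`).
-/

namespace MWS

theorem classes (G : Type*) [AddCommGroup G] [Module.Finite ℤ G] : ∃ s : ℕ, ∀ L : ℕ, 1 ≤ L →
    ∃ r : Fin (L ^ s) → G, ∀ P : G, ∃ i, ∃ Q : G, P = r i + L • Q := by
  obtain ⟨s, f, hf⟩ := Module.Finite.exists_fin' ℤ G
  refine ⟨s, fun L hL => ?_⟩
  have hL0 : (0 : ℤ) < L := by exact_mod_cast hL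
  refine ⟨fun i => f fun j => (((finFunctionFinEquiv.symm i) j : ℕ) : ℤ), fun P => ?_⟩
  obtain ⟨n, rfl⟩ := hf P
  have hk : ∀ j, (n j % (L : ℤ)).toNat < L := by
    intro j
    have h1 := Int.emod_nonneg (n j) hL0.ne'
    have h2 := Int.emod_lt_of_pos (n j) hL0
    omega
  refine ⟨finFunctionFinEquiv fun j => ⟨(n j % (L : ℤ)).toNat, hk j⟩, f fun j => n j / (L : ℤ), ?_⟩
  dsimp only
  rw [Equiv.symm_apply_apply, ← map_nsmul, ← map_add]
  congr 1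
  funext j
  have h1 := Int.emod_nonneg (n j) hL0.ne'
  have h2 := Int.emod_add_mul_ediv (n j) (L : ℤ)
  rw [Pi.add_apply, Pi.smul_apply, nsmul_eq_mul]
  simp only [Int.toNat_of_nonneg h1]
  exact h2.symm

theorem mw {α β : ℤ} (hd : dsc α β ≠ 0) : Module.Finite ℤ (Pt ℚ α β) := by
  have h : (EW ℚ α β).Δ = -16 * (dsc α β : ℤ) := by
    simp only [EW, WeierstrassCurve.Δ, WeierstrassCurve.b₂, WeierstrassCurve.b₄,
      WeierstrassCurve.b₆, WeierstrassCurve.b₈, dsc]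
    push_cast
    ring
  have h2 : (EW ℚ α β).Δ ≠ 0 := by
    rw [h]
    exact mul_ne_zero (by norm_num) (by exact_mod_cast hd)
  have h3 : (EW ℚ α β).IsElliptic := ⟨isUnit_iff_ne_zero.2 h2⟩
  exact Module.Finite.iff_addGroup_fg.2 (Pool.Agent.Lib.MP_17a322_nt.VJ.mordell_weil (EW ℚ α β))

end MWS
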