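import Pool.Agent.Lib.MP_10e784_agW.Defs

/-!
# LEAF RB: reduction of rational numbers and of collinear points

`rc p x = x.num / x.den` is the value of the ring homomorphism `ℤ_(p) → ℤ/p`; `p ∤ x.den` means that `x` is `p`-integral.

PROOF of `rc_add`, `rc_mul`, `rc_int`, `rc_neg`: for `p` prime `rc p x = ((x : ℚ) : ZMod p)` (`Rat.cast_def`, `div_eq_mul_inv`), `Rat.cast_add_of_ne_zero`, `Rat.cast_mul_of_ne_zero`; integrality: `Rat.add_den_dvd`, `Rat.mul_den_dvd`.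
`int_of_sq`: `p ∣ (l^2).den = l.den^2` (`Rat.den_pow`).  `den_xy`: `y² = x³ + α x + β`: if `p ∤ x.den` then `(y^2).den` is prime to `p`; conversely if `p ∤ y.den` and `p ∣ x.den` then with `v = padicValRat p`: `v x < 0`, `v (x^3 + α x + β) = 3 v x < 0`.
`red_lin` (all three integral): `l² = x₁ + x₂ + x₃` is integral, so `l` and `n = y₁ - l x₁` are; apply `rc` to the equations.
-/

namespace MWS

theorem rc_cast (p : ℕ) [Fact p.Prime] (x : ℚ) : rc p x = (x : ZMod p) := by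
  rw [Rat.cast_def, div_eq_mul_inv]
  rfl

private theorem RB_ne {p : ℕ} (hp : p.Prime) {x : ℚ} (hx : ¬ p ∣ x.den) : (x.den : ZMod p) ≠ 0 := by
  rwa [Ne, ZMod.natCast_eq_zero_iff]

theorem rc_add {p : ℕ} (hp : p.Prime) {x y : ℚ} (hx : ¬ p ∣ x.den) (hy : ¬ p ∣ y.den) :
    ¬ p ∣ (x + y).den ∧ rc p (x + y) = rc p x + rc p y := by
  have := Fact.mk hp
  refine ⟨fun h => ?_, ?_⟩
  · rcases (Nat.Prime.dvd_mul hp).1 (h.trans (Rat.add_den_dvd x y)) with h1 | h1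
    · exact hx h1
    · exact hy h1
  · rw [rc_cast, rc_cast, rc_cast, Rat.cast_add_of_ne_zero (RB_ne hp hx) (RB_ne hp hy)]

theorem rc_mul {p : ℕ} (hp : p.Prime) {x y : ℚ} (hx : ¬ p ∣ x.den) (hy : ¬ p ∣ y.den) :
    ¬ p ∣ (x * y).den ∧ rc p (x * y) = rc p x * rc p y := by
  have := Fact.mk hp
  refine ⟨fun h => ?_, ?_⟩
  · rcases (Nat.Prime.dvd_mul hp).1 (h.trans (Rat.mul_den_dvd x y)) with h1 | h1
    · exact hx h1
    · exact hy h1
  · rw [rc_cast, rc_cast, rc_cast, Rat.cast_mul_of_ne_zero (RB_ne hp hx) (RB_ne hp hy)]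

theorem rc_neg {p : ℕ} (hp : p.Prime) {x : ℚ} (hx : ¬ p ∣ x.den) :
    ¬ p ∣ (-x).den ∧ rc p (-x) = - rc p x := by
  have := Fact.mk hp
  refine ⟨by rwa [Rat.neg_den], ?_⟩
  rw [rc_cast, rc_cast, Rat.cast_neg]

theorem rc_int {p : ℕ} (hp : p.Prime) (a : ℤ) : ¬ p ∣ ((a : ℚ)).den ∧ rc p (a : ℚ) = (a : ZMod p) := by
  have := Fact.mk hp
  refine ⟨?_, by rw [rc_cast, Rat.cast_intCast]⟩
  rw [Rat.den_intCast]
  exact hp.one_lt.not_ge ∘ Nat.le_of_dvd one_pos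

theorem int_of_sq {p : ℕ} (hp : p.Prime) {l : ℚ} (h : ¬ p ∣ (l ^ 2).den) : ¬ p ∣ l.den := by
  intro h1
  apply h
  rw [Rat.den_pow]
  exact dvd_pow h1 two_ne_zero

theorem den_xy {p : ℕ} (hp : p.Prime) {α β : ℤ} {x y : ℚ} (h : y ^ 2 = x ^ 3 + α * x + β) :
    p ∣ x.den ↔ p ∣ y.den := by
  constructor
  · intro hx
    by_contra hy
    have hb : (x.den : ℚ) ≠ 0 := by exact_mod_cast x.den_nz
    have he : (y.den : ℚ) ≠ 0 := by exact_mod_cast y.den_nz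
    have h' : ((y.num : ℚ) / (y.den : ℚ)) ^ 2 = ((x.num : ℚ) / (x.den : ℚ)) ^ 3 +
        α * ((x.num : ℚ) / (x.den : ℚ)) + β := by
      rw [Rat.num_div_den, Rat.num_div_den]
      exact h
    have h1 : (y.num : ℚ) ^ 2 * (x.den : ℚ) ^ 3 = (y.den : ℚ) ^ 2 *
        ((x.num : ℚ) ^ 3 + α * x.num * (x.den : ℚ) ^ 2 + β * (x.den : ℚ) ^ 3) := by
      field_simp at h'
      linear_combination h'
    have h2 : y.num ^ 2 * (x.den : ℤ) ^ 3 = (y.den : ℤ) ^ 2 *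
        (x.num ^ 3 + α * x.num * (x.den : ℤ) ^ 2 + β * (x.den : ℤ) ^ 3) := by
      exact_mod_cast h1
    have hpb : (p : ℤ) ∣ (x.den : ℤ) := by exact_mod_cast hx
    have hpi : Prime (p : ℤ) := Nat.prime_iff_prime_int.1 hp
    have h3 : (p : ℤ) ∣ (y.den : ℤ) ^ 2 *
        (x.num ^ 3 + α * x.num * (x.den : ℤ) ^ 2 + β * (x.den : ℤ) ^ 3) := by
      rw [← h2]
      exact (dvd_pow hpb three_ne_zero).mul_left _
    have hpe : ¬ (p : ℤ) ∣ (y.den : ℤ) ^ 2 := by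
      intro h4
      have h5 := hpi.dvd_of_dvd_pow h4
      exact hy (by exact_mod_cast h5)
    have h4 := (hpi.dvd_or_dvd h3).resolve_left hpe
    have h5 : (p : ℤ) ∣ x.num ^ 3 := by
      have h6 : (p : ℤ) ∣ α * x.num * (x.den : ℤ) ^ 2 + β * (x.den : ℤ) ^ 3 :=
        dvd_add ((dvd_pow hpb two_ne_zero).mul_left _) ((dvd_pow hpb three_ne_zero).mul_left _)
      rw [add_assoc] at h4
      exact (dvd_add_left h6).1 h4
    have h6 := hpi.dvd_of_dvd_pow h5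
    have h7 : p ∣ x.num.natAbs := Int.natCast_dvd.1 h6
    have h8 := Nat.dvd_gcd h7 hx
    rw [x.reduced.gcd_eq_one] at h8
    exact hp.one_lt.not_ge (Nat.le_of_dvd one_pos h8)
  · intro hy
    by_contra hx
    have h1 := rc_mul hp hx hx
    have h2 := rc_mul hp h1.1 hx
    have h3 := rc_mul hp (rc_int hp α).1 hx
    have h4 := rc_add hp (rc_add hp h2.1 h3.1).1 (rc_int hp β).1
    have h5 : ¬ p ∣ (y ^ 2).den := by
      rw [h]
      have : x ^ 3 + α * x + β = x * x * x + α * x + β := by ring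
      rw [this]
      exact h4.1
    exact int_of_sq hp h5 hy

theorem red_lin {p : ℕ} (hp : p.Prime) {α β : ℤ} {l n x₁ y₁ x₂ y₂ x₃ y₃ : ℚ}
    (h : Lin α β l n x₁ y₁ x₂ y₂ x₃ y₃) (h1 : ¬ p ∣ x₁.den) (h2 : ¬ p ∣ x₂.den) (h3 : ¬ p ∣ x₃.den)
    (g1 : ¬ p ∣ y₁.den) [Fact p.Prime] :
    Lin (F := ZMod p) α β (rc p l) (rc p n) (rc p x₁) (rc p y₁) (rc p x₂) (rc p y₂) (rc p x₃) (rc p y₃) := by
  have hs := rc_add hp (rc_add hp h1 h2).1 h3
  have hl : ¬ p ∣ l.den := int_of_sq hp (by rw [h.e1]; exact hs.1)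
  have hn : ¬ p ∣ n.den := by
    have e : n = y₁ + -(l * x₁) := by rw [h.y1]; ring
    rw [e]
    exact (rc_add hp g1 (rc_neg hp (rc_mul hp hl h1).1).1).1
  have line : ∀ {x y : ℚ}, ¬ p ∣ x.den → y = l * x + n → rc p y = rc p l * rc p x + rc p n := by
    intro x y hx e
    rw [e, (rc_add hp (rc_mul hp hl hx).1 hn).2, (rc_mul hp hl hx).2]
  refine ⟨line h1 h.y1, line h2 h.y2, line h3 h.y3, ?_, ?_, ?_⟩
  · have e := congrArg (rc p) h.e1
    rw [sq, (rc_mul hp hl hl).2, hs.2, (rc_add hp h1 h2).2] at e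
    rw [sq]
    exact e
  · have e : (α : ℚ) + -(((2 : ℤ) : ℚ) * l * n) = x₁ * x₂ + x₁ * x₃ + x₂ * x₃ := by
      rw [← h.e2]
      push_cast
      ring
    have a2 := rc_mul hp (rc_int hp 2).1 hl
    have a3 := rc_mul hp a2.1 hn
    have a4 := rc_neg hp a3.1
    have a5 := rc_add hp (rc_int hp α).1 a4.1
    have b1 := rc_mul hp h1 h2
    have b2 := rc_mul hp h1 h3
    have b3 := rc_mul hp h2 h3
    have b4 := rc_add hp b1.1 b2.1
    have b5 := rc_add hp b4.1 b3.1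
    have e' := congrArg (rc p) e
    rw [a5.2, a4.2, a3.2, a2.2, b5.2, b4.2, b1.2, b2.2, b3.2, (rc_int hp α).2, (rc_int hp 2).2] at e'
    rw [← e']
    push_cast
    ring
  · have e : (β : ℚ) + -(n * n) = -(x₁ * x₂ * x₃) := by
      rw [← h.e3]
      ring
    have a1 := rc_mul hp hn hn
    have a2 := rc_neg hp a1.1
    have a3 := rc_add hp (rc_int hp β).1 a2.1
    have b1 := rc_mul hp h1 h2
    have b2 := rc_mul hp b1.1 h3
    have b3 := rc_neg hp b2.1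
    have e' := congrArg (rc p) e
    rw [a3.2, a2.2, a1.2, b3.2, b2.2, b1.2, (rc_int hp β).2] at e'
    rw [← e']
    ring

end MWS
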