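import Pool.Agent.Lib.MP_10e784_agW.RB

/-!
# LEAF RC0: a point of the kernel of reduction on the line

PROOF of `red_unit`: `p ∣ x₁.den`, `p ∤ x₂.den`.  With `|.|` the `p`-adic norm: `|y₁|² = |x₁|³`, so `l = (y₁ - y₂)/(x₁ - x₂)` has `|l|² = |x₁| > 1`; put `t = 1/l`, `Y_i = y_i - y₂ = l (x_i - x₂)` for `i = 1, 3`.
From the equations: `t³ (Y₁ + Y₃) = 1 - 3 x₂ t²` and `t³ Y₁ Y₃ = (3 x₂² + α) t - 2 y₂`.  `|t³ Y₁| = 1`, so `Y₃` is integral, hence `y₃ = y₂ + Y₃`,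
`x₃ = x₂ + t Y₃` are integral and `x₃ ≡ x₂`; `t³ Y₁ = 1 - 3 x₂ t² - t³ Y₃ ≡ 1`, so `Y₃ ≡ t³ Y₁ Y₃ ≡ -2 y₂` and `y₃ ≡ -y₂`.
-/

namespace MWS

private theorem RC0_le {p : ℕ} [Fact p.Prime] {x : ℚ} (h : ¬ p ∣ x.den) : padicNorm p x ≤ 1 := by
  have h1 : padicNorm p x = padicNorm p ((x.num : ℚ) / (x.den : ℚ)) := by rw [Rat.num_div_den]
  rw [h1, padicNorm.div, (padicNorm.nat_eq_one_iff _).2 h, div_one]
  exact padicNorm.of_int _

private theorem RC0_lt {p : ℕ} [Fact p.Prime] {x : ℚ} (h : p ∣ x.den) : 1 < padicNorm p x := by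
  have h1 : padicNorm p x = padicNorm p ((x.num : ℚ) / (x.den : ℚ)) := by rw [Rat.num_div_den]
  have h2 : ¬ (p : ℤ) ∣ x.num := by
    intro h3
    have h4 : p ∣ x.num.natAbs := Int.natCast_dvd.1 h3
    have h5 : p ∣ Nat.gcd x.num.natAbs x.den := Nat.dvd_gcd h4 h
    rw [x.reduced.gcd_eq_one] at h5
    exact (Fact.out : p.Prime).one_lt.ne' (Nat.dvd_one.1 h5)
  have h3 : padicNorm p (x.num : ℚ) = 1 := (padicNorm.int_eq_one_iff _).2 h2
  have h4 : padicNorm p (x.den : ℚ) < 1 := (padicNorm.nat_lt_one_iff _).2 h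
  have h5 : padicNorm p (x.den : ℚ) ≠ 0 := by
    apply padicNorm.nonzero
    exact_mod_cast x.den_nz
  have h6 : 0 < padicNorm p (x.den : ℚ) := lt_of_le_of_ne (padicNorm.nonneg _) h5.symm
  rw [h1, padicNorm.div, h3, lt_div_iff₀ h6, one_mul]
  exact h4

private theorem RC0_zero {p : ℕ} [Fact p.Prime] {x : ℚ} (h : padicNorm p x < 1) :
    ¬ p ∣ x.den ∧ rc p x = 0 := by
  have h0 : ¬ p ∣ x.den := fun h1 => absurd (RC0_lt h1) (not_lt.2 h.le)
  refine ⟨h0, ?_⟩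
  have h1 : padicNorm p (x.num : ℚ) < 1 := by
    have h2 : padicNorm p x = padicNorm p ((x.num : ℚ) / (x.den : ℚ)) := by rw [Rat.num_div_den]
    rw [h2, padicNorm.div, (padicNorm.nat_eq_one_iff _).2 h0, div_one] at h
    exact h
  have h2 : (p : ℤ) ∣ x.num := (padicNorm.int_lt_one_iff _).1 h1
  unfold rc
  rw [(ZMod.intCast_zmod_eq_zero_iff_dvd _ _).2 h2, zero_mul]

private theorem RC0_add {p : ℕ} [Fact p.Prime] {x y : ℚ} (hx : padicNorm p x ≤ 1)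
    (hy : padicNorm p y ≤ 1) : padicNorm p (x + y) ≤ 1 :=
  padicNorm.nonarchimedean.trans (max_le hx hy)

private theorem RC0_addlt {p : ℕ} [Fact p.Prime] {x y : ℚ} (hx : padicNorm p x < 1)
    (hy : padicNorm p y < 1) : padicNorm p (x + y) < 1 :=
  lt_of_le_of_lt padicNorm.nonarchimedean (max_lt hx hy)

private theorem RC0_mul {p : ℕ} [Fact p.Prime] {x y : ℚ} (hx : padicNorm p x ≤ 1)
    (hy : padicNorm p y ≤ 1) : padicNorm p (x * y) ≤ 1 := by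
  rw [padicNorm.mul]
  exact mul_le_one₀ hx (padicNorm.nonneg _) hy

private theorem RC0_mullt {p : ℕ} [Fact p.Prime] {x y : ℚ} (hx : padicNorm p x < 1)
    (hy : padicNorm p y ≤ 1) : padicNorm p (x * y) < 1 := by
  rw [padicNorm.mul]
  exact mul_lt_one_of_nonneg_of_lt_one_left (padicNorm.nonneg _) hx hy

private theorem RC0_sub {p : ℕ} [Fact p.Prime] {x y : ℚ} (hx : 1 < padicNorm p x)
    (hy : padicNorm p y ≤ 1) : padicNorm p (x - y) = padicNorm p x := by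
  rw [sub_eq_add_neg, padicNorm.add_eq_max_of_ne, padicNorm.neg]
  · exact max_eq_left (hy.trans hx.le)
  · rw [padicNorm.neg]
    exact (lt_of_le_of_lt hy hx).ne'

theorem red_unit {p : ℕ} (hp : p.Prime) {α β : ℤ} {l n x₁ y₁ x₂ y₂ x₃ y₃ : ℚ}
    (h : Lin α β l n x₁ y₁ x₂ y₂ x₃ y₃) (f1 : y₁ ^ 2 = x₁ ^ 3 + α * x₁ + β)
    (f2 : y₂ ^ 2 = x₂ ^ 3 + α * x₂ + β) (f3 : y₃ ^ 2 = x₃ ^ 3 + α * x₃ + β) (h1 : p ∣ x₁.den) (h2 : ¬ p ∣ x₂.den) :
    ¬ p ∣ x₃.den ∧ rc p x₃ = rc p x₂ ∧ rc p y₃ = - rc p y₂ := by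
  have hF : Fact p.Prime := ⟨hp⟩
  have a1 := RC0_lt h1
  have a2 := RC0_le h2
  have hpow : ∀ (x : ℚ) (k : ℕ), padicNorm p (x ^ k) = padicNorm p x ^ k := by
    intro x k
    induction k with
    | zero => simp
    | succ k ih => rw [pow_succ, pow_succ, padicNorm.mul, ih]
  have iα : padicNorm p (α : ℚ) ≤ 1 := padicNorm.of_int α
  have iβ : padicNorm p (β : ℚ) ≤ 1 := padicNorm.of_int β
  have b2 : padicNorm p y₂ ≤ 1 := by
    have e1 : padicNorm p y₂ ^ 2 ≤ 1 := by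
      rw [← hpow, f2]
      refine RC0_add (RC0_add ?_ (RC0_mul iα a2)) iβ
      rw [hpow]
      exact pow_le_one₀ (padicNorm.nonneg _) a2
    exact (pow_le_one_iff_of_nonneg (padicNorm.nonneg _) two_ne_zero).1 e1
  have b1 : padicNorm p y₁ ^ 2 = padicNorm p x₁ ^ 3 := by
    rw [← hpow, f1, add_assoc]
    have e1 : padicNorm p ((α : ℚ) * x₁ + β) ≤ padicNorm p x₁ := by
      refine padicNorm.nonarchimedean.trans (max_le ?_ (iβ.trans a1.le))
      rw [padicNorm.mul]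
      exact mul_le_of_le_one_left (padicNorm.nonneg _) iα
    have e2 : padicNorm p x₁ < padicNorm p x₁ ^ 3 := by
      calc padicNorm p x₁ = padicNorm p x₁ ^ 1 := (pow_one _).symm
        _ < padicNorm p x₁ ^ 3 := pow_lt_pow_right₀ a1 (by norm_num)
    rw [padicNorm.add_eq_max_of_ne, hpow]
    · exact max_eq_left (e1.trans e2.le)
    · rw [hpow]
      exact (lt_of_le_of_lt e1 e2).ne'
  have c2 : 1 < padicNorm p y₁ := by
    have e1 : 1 < padicNorm p y₁ ^ 2 := by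
      rw [b1]
      exact one_lt_pow₀ a1 (by norm_num)
    exact (one_lt_pow_iff_of_nonneg (padicNorm.nonneg _) two_ne_zero).1 e1
  have c4 : y₁ - y₂ = l * (x₁ - x₂) := by rw [h.y1, h.y2]; ring
  have c4' : y₃ - y₂ = l * (x₃ - x₂) := by rw [h.y3, h.y2]; ring
  have c5 : padicNorm p y₁ = padicNorm p l * padicNorm p x₁ := by
    rw [← RC0_sub c2 b2, c4, padicNorm.mul, RC0_sub a1 a2]
  have c6 : padicNorm p l ^ 2 = padicNorm p x₁ := by
    have e1 : padicNorm p x₁ ^ 2 ≠ 0 := by positivity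
    apply mul_right_cancel₀ e1
    rw [← mul_pow, ← c5, b1]
    ring
  have c7 : 1 < padicNorm p l := by
    have e1 : 1 < padicNorm p l ^ 2 := by rw [c6]; exact a1
    exact (one_lt_pow_iff_of_nonneg (padicNorm.nonneg _) two_ne_zero).1 e1
  have hl0 : l ≠ 0 := by
    intro e
    rw [e, padicNorm.zero] at c7
    exact absurd c7 (by norm_num)
  obtain ⟨t, ht⟩ : ∃ t, t = l⁻¹ := ⟨_, rfl⟩
  have htl : t * l = 1 := by rw [ht]; exact inv_mul_cancel₀ hl0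
  have ht1 : padicNorm p t * padicNorm p l = 1 := by
    rw [← padicNorm.mul, htl, padicNorm.one]
  have ht2 : padicNorm p t < 1 := by
    by_contra hc
    have e1 := not_lt.1 hc
    nlinarith
  have e_sum : t ^ 3 * ((y₁ - y₂) + (y₃ - y₂)) = 1 - 3 * x₂ * t ^ 2 := by
    have e1 : (y₁ - y₂) + (y₃ - y₂) = l * (l ^ 2 - 3 * x₂) := by
      rw [c4, c4', h.e1]; ring
    rw [e1]
    have e2 : t ^ 3 * (l * (l ^ 2 - 3 * x₂)) = (t * l) ^ 3 - 3 * x₂ * t ^ 2 * (t * l) := by ring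
    rw [e2, htl]
    ring
  have e_prod : t ^ 3 * (y₁ - y₂) * (y₃ - y₂) = (3 * x₂ ^ 2 + α) * t - 2 * y₂ := by
    have e1 : (y₁ - y₂) * (y₃ - y₂) = l ^ 2 * (3 * x₂ ^ 2 + α - 2 * l * y₂) := by
      have e2 : (x₁ - x₂) * (x₃ - x₂) = 3 * x₂ ^ 2 + α - 2 * l * y₂ := by
        have g1 := h.e1
        have g2 := h.e2
        have g3 := h.y2
        rw [g3]
        linear_combination (-1 : ℚ) * g2 + 2 * x₂ * g1
      rw [c4, c4', ← e2]
      ring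
    rw [mul_assoc, e1]
    have e3 : t ^ 3 * (l ^ 2 * (3 * x₂ ^ 2 + α - 2 * l * y₂)) =
        (t * l) ^ 2 * (3 * x₂ ^ 2 + α) * t - 2 * (t * l) ^ 3 * y₂ := by ring
    rw [e3, htl]
    ring
  have d1 : padicNorm p (t ^ 3 * (y₁ - y₂)) = 1 := by
    rw [padicNorm.mul, hpow, RC0_sub c2 b2, c5, ← c6]
    calc padicNorm p t ^ 3 * (padicNorm p l * padicNorm p l ^ 2)
        = (padicNorm p t * padicNorm p l) ^ 3 := by ring
      _ = 1 := by rw [ht1, one_pow]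
  have i3 : padicNorm p (3 : ℚ) ≤ 1 := by exact_mod_cast padicNorm.of_nat (p := p) 3
  have i2 : padicNorm p (2 : ℚ) ≤ 1 := by exact_mod_cast padicNorm.of_nat (p := p) 2
  have i4 : padicNorm p (3 * x₂ ^ 2 + (α : ℚ)) ≤ 1 := by
    refine RC0_add (RC0_mul i3 ?_) iα
    rw [hpow]
    exact pow_le_one₀ (padicNorm.nonneg _) a2
  have i5 : padicNorm p ((3 * x₂ ^ 2 + (α : ℚ)) * t) < 1 := by
    rw [mul_comm]
    exact RC0_mullt ht2 i4
  have d2 : padicNorm p (y₃ - y₂) ≤ 1 := by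
    have e1 : padicNorm p (y₃ - y₂) = padicNorm p (t ^ 3 * (y₁ - y₂) * (y₃ - y₂)) := by
      rw [padicNorm.mul, d1, one_mul]
    rw [e1, e_prod, sub_eq_add_neg]
    refine RC0_add i5.le ?_
    rw [padicNorm.neg]
    exact RC0_mul i2 b2
  have d3 : x₃ - x₂ = t * (y₃ - y₂) := by
    rw [c4', ← mul_assoc, htl, one_mul]
  have d4 : padicNorm p (x₃ - x₂) < 1 := by
    rw [d3]
    exact RC0_mullt ht2 d2
  have d5 : padicNorm p (y₃ + y₂) < 1 := by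
    have e1 : y₃ + y₂ = (t * (3 * x₂ * t) + t * (t ^ 2 * (y₃ - y₂))) * (y₃ - y₂)
        + (3 * x₂ ^ 2 + α) * t := by
      linear_combination e_prod - (y₃ - y₂) * e_sum
    rw [e1]
    have e2 : padicNorm p (t ^ 2 * (y₃ - y₂)) ≤ 1 := by
      refine RC0_mul ?_ d2
      rw [hpow]
      exact pow_le_one₀ (padicNorm.nonneg _) ht2.le
    exact RC0_addlt (RC0_mullt (RC0_addlt (RC0_mullt ht2 (RC0_mul (RC0_mul i3 a2) ht2.le))
      (RC0_mullt ht2 e2)) d2) i5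
  obtain ⟨g1, g2⟩ := RC0_zero d4
  obtain ⟨g3, g4⟩ := RC0_zero d5
  have hy2 : ¬ p ∣ y₂.den := fun hc => absurd (RC0_lt hc) (not_lt.2 b2)
  obtain ⟨k1, k2⟩ := rc_add hp h2 g1
  rw [add_sub_cancel] at k1 k2
  obtain ⟨k3, k4⟩ := rc_neg hp hy2
  obtain ⟨k5, k6⟩ := rc_add hp g3 k3
  rw [add_neg_cancel_right] at k5 k6
  refine ⟨k1, ?_, ?_⟩
  · rw [k2, g2, add_zero]
  · rw [k6, g4, k4, zero_add]

end MWS
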