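import Pool.Agent.Lib.MP_10e784_agW.RA
import Pool.Agent.Lib.MP_10e784_agW.RB
import Pool.Agent.Lib.MP_10e784_agW.RC0

/-!
# LEAF RC: the reduction homomorphism

PROOF of `exists_red`.  Define `ρ : Pt ℚ → Pt (ZMod p)`, `ρ 0 = 0`, `ρ (x, y) = 0` if `p ∣ x.den`, `= (rc x, rc y)` otherwise (nonsingular by `EW_nons`; `2 ≠ 0` and `dsc ≠ 0` in `ZMod p`; equation: `rc` of the equation).  `ρ (-P) = -ρ P` clear.
Additive: it is enough that `P + Q + R = 0` implies `ρ P + ρ Q + ρ R = 0` (apply it to `R = -(P + Q)`).  If one of them is `0` (say `R`): `Q = -P`, clear.  All affine: `lin_of_sum` gives a line.  If `p` divides no `x_i.den`: `red_lin` and `sum_of_lin`.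
Otherwise, by symmetry (`Lin` is symmetric in the three points), `p ∣ x₁.den`.  If `p ∤ x₂.den`: `red_unit` gives `ρ R = -ρ Q`, `ρ P = 0`.  If `p ∣ x₂.den` and `p ∤ x₃.den`: `red_unit` for the points `1, 3, 2` gives `p ∤ x₂.den`, contradiction; so all three `ρ` are `0`.
PROOF of `rd_class`: `rd p P` is determined by `ρ P` (`0 ↦ none`, `(x, y) ↦ some (x, y)`); `ρ (P + L • Q) = ρ P + L • ρ Q` and `L • ρ Q = 0` by `hk`.
-/

namespace MWS

private theorem RC_two {p : ℕ} [Fact p.Prime] (hp2 : p ≠ 2) : (2 : ZMod p) ≠ 0 := by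
  intro h
  have h1 : ((2 : ℕ) : ZMod p) = 0 := by exact_mod_cast h
  rw [ZMod.natCast_eq_zero_iff] at h1
  exact hp2 ((Nat.prime_dvd_prime_iff_eq Fact.out Nat.prime_two).1 h1)

private theorem RC_dsc {p : ℕ} [Fact p.Prime] {α β : ℤ} (hd : ¬ (p : ℤ) ∣ dsc α β) :
    ((dsc α β : ℤ) : ZMod p) ≠ 0 := fun h => hd ((ZMod.intCast_zmod_eq_zero_iff_dvd _ _).1 h)

private theorem RC_eqn {p : ℕ} [hp : Fact p.Prime] {α β : ℤ} {x y : ℚ} (hx : ¬ p ∣ x.den)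
    (h : y ^ 2 = x ^ 3 + α * x + β) :
    (rc p y) ^ 2 = (rc p x) ^ 3 + (α : ZMod p) * rc p x + (β : ZMod p) := by
  have hy : ¬ p ∣ y.den := fun hc => hx ((den_xy hp.out h).2 hc)
  obtain ⟨a1, a2⟩ := rc_mul hp.out hy hy
  obtain ⟨b1, b2⟩ := rc_mul hp.out hx hx
  obtain ⟨c1, c2⟩ := rc_mul hp.out b1 hx
  obtain ⟨d1, d2⟩ := rc_int hp.out α
  obtain ⟨e1, e2⟩ := rc_int hp.out β
  obtain ⟨f1, f2⟩ := rc_mul hp.out d1 hx
  obtain ⟨g1, g2⟩ := rc_add hp.out c1 f1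
  obtain ⟨k1, k2⟩ := rc_add hp.out g1 e1
  have h1 : y * y = x * x * x + α * x + β := by
    rw [← sq, h]; ring
  rw [← h1, a2, g2, c2, b2, f2, d2, e2] at k2
  rw [sq, k2]
  ring

private theorem RC_eq {F : Type*} [Field F] [DecidableEq F] {α β : ℤ} {x y : F}
    (h : (EW F α β).toAffine.Nonsingular x y) : y ^ 2 = x ^ 3 + (α : F) * x + (β : F) :=
  (EW_eqn α β x y).1 h.1

private theorem RC_ns {p : ℕ} [Fact p.Prime] {α β : ℤ} (hp2 : p ≠ 2)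
    (hd : ¬ (p : ℤ) ∣ dsc α β) {x y : ℚ} (h : (EW ℚ α β).toAffine.Nonsingular x y)
    (hx : ¬ p ∣ x.den) : (EW (ZMod p) α β).toAffine.Nonsingular (rc p x) (rc p y) :=
  (EW_nons α β (RC_two hp2) (RC_dsc hd) _ _).2 (RC_eqn hx (RC_eq h))

open Classical in
/-- the reduction map -/
private noncomputable def RC_f (p : ℕ) [Fact p.Prime] {α β : ℤ} (hp2 : p ≠ 2)
    (hd : ¬ (p : ℤ) ∣ dsc α β) : Pt ℚ α β → Pt (ZMod p) α β
  | .zero => .zero
  | .some x y h => if hx : p ∣ x.den then .zero else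
      .some (rc p x) (rc p y) (RC_ns hp2 hd h hx)

private theorem RC_bad {p : ℕ} [Fact p.Prime] {α β : ℤ} (hp2 : p ≠ 2) (hd : ¬ (p : ℤ) ∣ dsc α β)
    (x y : ℚ) (h : (EW ℚ α β).toAffine.Nonsingular x y) (hx : p ∣ x.den) :
    RC_f p hp2 hd (.some x y h) = 0 := dif_pos hx

private theorem RC_good {p : ℕ} [Fact p.Prime] {α β : ℤ} (hp2 : p ≠ 2) (hd : ¬ (p : ℤ) ∣ dsc α β)
    (x y : ℚ) (h : (EW ℚ α β).toAffine.Nonsingular x y) (hx : ¬ p ∣ x.den) :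
    RC_f p hp2 hd (.some x y h) = .some (rc p x) (rc p y) (RC_ns hp2 hd h hx) := dif_neg hx

private theorem RC_neg {p : ℕ} [hp : Fact p.Prime] {α β : ℤ} (hp2 : p ≠ 2) (hd : ¬ (p : ℤ) ∣ dsc α β)
    (P : Pt ℚ α β) : RC_f p hp2 hd (-P) = - RC_f p hp2 hd P := by
  rcases P with _ | ⟨x, y, h⟩
  · rfl
  · rw [WeierstrassCurve.Affine.Point.neg_some]
    by_cases hx : p ∣ x.den
    · rw [RC_bad hp2 hd _ _ _ hx, RC_bad hp2 hd _ _ _ hx, neg_zero]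
    · rw [RC_good hp2 hd _ _ _ hx, RC_good hp2 hd _ _ _ hx,
        WeierstrassCurve.Affine.Point.neg_some]
      have hy : ¬ p ∣ y.den := fun hc => hx ((den_xy hp.out (RC_eq h)).2 hc)
      have e1 : (EW ℚ α β).toAffine.negY x y = -y := by
        simp [WeierstrassCurve.Affine.negY, EW]
      have e2 : (EW (ZMod p) α β).toAffine.negY (rc p x) (rc p y) = - rc p y := by
        simp [WeierstrassCurve.Affine.negY, EW]
      have e3 : rc p ((EW ℚ α β).toAffine.negY x y) =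
          (EW (ZMod p) α β).toAffine.negY (rc p x) (rc p y) := by
        rw [e1, e2, (rc_neg hp.out hy).2]
      simp only [e3]

private theorem RC_swap {F : Type*} [Field F] {α β : ℤ} {l n x₁ y₁ x₂ y₂ x₃ y₃ : F}
    (h : Lin α β l n x₁ y₁ x₂ y₂ x₃ y₃) : Lin α β l n x₂ y₂ x₁ y₁ x₃ y₃ where
  y1 := h.y2
  y2 := h.y1
  y3 := h.y3
  e1 := by rw [h.e1]; ring
  e2 := by rw [h.e2]; ring
  e3 := by rw [h.e3]; ring

private theorem RC_rot {F : Type*} [Field F] {α β : ℤ} {l n x₁ y₁ x₂ y₂ x₃ y₃ : F}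
    (h : Lin α β l n x₁ y₁ x₂ y₂ x₃ y₃) : Lin α β l n x₂ y₂ x₃ y₃ x₁ y₁ where
  y1 := h.y2
  y2 := h.y3
  y3 := h.y1
  e1 := by rw [h.e1]; ring
  e2 := by rw [h.e2]; ring
  e3 := by rw [h.e3]; ring

/-- two points with the same first coordinates and opposite second coordinates have sum zero -/
private theorem RC_opp {p : ℕ} [Fact p.Prime] {α β : ℤ} {x y x' y' : ZMod p}
    (h : (EW (ZMod p) α β).toAffine.Nonsingular x y)
    (h' : (EW (ZMod p) α β).toAffine.Nonsingular x' y') (hx : x' = x) (hy : y' = -y) :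
    (.some x y h : Pt (ZMod p) α β) + .some x' y' h' = 0 := by
  subst hx
  apply WeierstrassCurve.Affine.Point.add_of_Y_eq rfl
  rw [hy]
  simp [WeierstrassCurve.Affine.negY, EW]

/-- the first point in the kernel of reduction, the other two not both -/
private theorem RC_one {p : ℕ} [hp : Fact p.Prime] {α β : ℤ} (hp2 : p ≠ 2)
    (hd : ¬ (p : ℤ) ∣ dsc α β) {x₁ y₁ x₂ y₂ x₃ y₃ : ℚ} {l n : ℚ}
    (h₁ : (EW ℚ α β).toAffine.Nonsingular x₁ y₁) (h₂ : (EW ℚ α β).toAffine.Nonsingular x₂ y₂)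
    (h₃ : (EW ℚ α β).toAffine.Nonsingular x₃ y₃) (h : Lin α β l n x₁ y₁ x₂ y₂ x₃ y₃)
    (k1 : p ∣ x₁.den) :
    RC_f p hp2 hd (.some x₁ y₁ h₁) + RC_f p hp2 hd (.some x₂ y₂ h₂)
      + RC_f p hp2 hd (.some x₃ y₃ h₃) = 0 := by
  rw [RC_bad hp2 hd _ _ _ k1, zero_add]
  by_cases k2 : p ∣ x₂.den
  · by_cases k3 : p ∣ x₃.den
    · rw [RC_bad hp2 hd _ _ _ k2, RC_bad hp2 hd _ _ _ k3, zero_add]
    · exact absurd k2 (red_unit hp.out (RC_swap (RC_rot (RC_rot h))) (RC_eq h₁) (RC_eq h₃) (RC_eq h₂) k1 k3).1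
  · obtain ⟨g1, g2, g3⟩ := red_unit hp.out h (RC_eq h₁) (RC_eq h₂) (RC_eq h₃) k1 k2
    rw [RC_good hp2 hd _ _ _ k2, RC_good hp2 hd _ _ _ g1]
    exact RC_opp _ _ g2 g3

private theorem RC_sum {p : ℕ} [hp : Fact p.Prime] {α β : ℤ} (hp2 : p ≠ 2)
    (hd : ¬ (p : ℤ) ∣ dsc α β) (P Q R : Pt ℚ α β) (h : P + Q + R = 0) :
    RC_f p hp2 hd P + RC_f p hp2 hd Q + RC_f p hp2 hd R = 0 := by
  have h0 : RC_f p hp2 hd (0 : Pt ℚ α β) = 0 := rfl
  by_cases hP : P = 0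
  · have h1 : R = -Q := by
      rw [hP, zero_add] at h
      exact (neg_eq_of_add_eq_zero_right h).symm
    rw [hP, h1, RC_neg, h0, zero_add, add_neg_cancel]
  by_cases hQ : Q = 0
  · have h1 : R = -P := by
      rw [hQ, add_zero] at h
      exact (neg_eq_of_add_eq_zero_right h).symm
    rw [hQ, h1, RC_neg, h0, add_zero, add_neg_cancel]
  by_cases hR : R = 0
  · have h1 : Q = -P := by
      rw [hR, add_zero] at h
      exact (neg_eq_of_add_eq_zero_right h).symm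
    rw [hR, h1, RC_neg, h0, add_zero, add_neg_cancel]
  rcases P with _ | ⟨x₁, y₁, h₁⟩
  · exact absurd rfl hP
  rcases Q with _ | ⟨x₂, y₂, h₂⟩
  · exact absurd rfl hQ
  rcases R with _ | ⟨x₃, y₃, h₃⟩
  · exact absurd rfl hR
  obtain ⟨l, n, hL⟩ := lin_of_sum α β (two_ne_zero) x₁ y₁ x₂ y₂ x₃ y₃ h₁ h₂ h₃ h
  by_cases k1 : p ∣ x₁.den
  · exact RC_one hp2 hd h₁ h₂ h₃ hL k1
  by_cases k2 : p ∣ x₂.den
  · have := RC_one hp2 hd h₂ h₁ h₃ (RC_swap hL) k2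
    rwa [add_comm (RC_f p hp2 hd (.some x₂ y₂ h₂))] at this
  by_cases k3 : p ∣ x₃.den
  · have := RC_one hp2 hd h₃ h₁ h₂ (RC_rot (RC_rot hL)) k3
    rwa [add_assoc, add_comm] at this
  have g1 : ¬ p ∣ y₁.den := fun hc => k1 ((den_xy hp.out (RC_eq h₁)).2 hc)
  have hM := red_lin hp.out hL k1 k2 k3 g1
  rw [RC_good hp2 hd _ _ _ k1, RC_good hp2 hd _ _ _ k2, RC_good hp2 hd _ _ _ k3]
  exact sum_of_lin α β (RC_two hp2) (RC_dsc hd) _ _ _ _ _ _ _ _ _ _ _ hM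

theorem exists_red {p : ℕ} [Fact p.Prime] {α β : ℤ} (hp2 : p ≠ 2) (hd : ¬ (p : ℤ) ∣ dsc α β) :
    ∃ ρ : Pt ℚ α β →+ Pt (ZMod p) α β, ∀ x y h,
      (p ∣ x.den → ρ (.some x y h) = 0) ∧
      (¬ p ∣ x.den → ∃ h', ρ (.some x y h) = .some (rc p x) (rc p y) h') := by
  have hadd : ∀ P Q : Pt ℚ α β, RC_f p hp2 hd (P + Q) = RC_f p hp2 hd P + RC_f p hp2 hd Q := by
    intro P Q
    have h1 := RC_sum hp2 hd P Q (-(P + Q)) (add_neg_cancel _)
    rw [RC_neg] at h1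
    exact (add_neg_eq_zero.1 h1).symm
  refine ⟨AddMonoidHom.mk' (RC_f p hp2 hd) hadd, fun x y h => ⟨fun hx => ?_, fun hx => ?_⟩⟩
  · exact RC_bad hp2 hd x y h hx
  · exact ⟨_, RC_good hp2 hd x y h hx⟩

theorem rd_class {p : ℕ} [Fact p.Prime] {α β : ℤ} (hp2 : p ≠ 2) (hd : ¬ (p : ℤ) ∣ dsc α β) (L : ℕ)
    (hk : ∀ P : Pt (ZMod p) α β, L • P = 0) (P Q : Pt ℚ α β) : rd p (P + L • Q) = rd p P := by
  obtain ⟨ρ, hρ⟩ := exists_red (p := p) (α := α) (β := β) hp2 hd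
  -- `rd` is determined by `ρ`
  have key : ∀ A B : Pt ℚ α β, ρ A = ρ B → rd p A = rd p B := by
    have h0 : ∀ A : Pt ℚ α β, (ρ A = 0 ∧ rd p A = none) ∨
        ∃ x y h', ρ A = .some x y h' ∧ rd p A = some (x, y) := by
      intro A
      rcases A with _ | ⟨x, y, h⟩
      · left
        exact ⟨map_zero ρ, rfl⟩
      · by_cases hx : p ∣ x.den
        · left
          exact ⟨(hρ x y h).1 hx, if_pos hx⟩
        · right
          obtain ⟨h', e⟩ := (hρ x y h).2 hx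
          exact ⟨_, _, h', e, if_neg hx⟩
    intro A B hAB
    rcases h0 A with ⟨a1, a2⟩ | ⟨x, y, h, a1, a2⟩ <;> rcases h0 B with ⟨b1, b2⟩ | ⟨x', y', h', b1, b2⟩
    · rw [a2, b2]
    · rw [a1, b1] at hAB
      exact absurd hAB.symm (by simp)
    · rw [a1, b1] at hAB
      exact absurd hAB (by simp)
    · rw [a1, b1] at hAB
      rw [a2, b2]
      have h3 := (WeierstrassCurve.Affine.Point.some.injEq _ _ _ _ _ _).mp hAB
      rw [h3.1, h3.2]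
  apply key
  rw [map_add, map_nsmul, hk, add_zero]

end MWS
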