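import Pool.Agent.Lib.MP_10e784_agW.RA

/-!
# LEAF RD: the group has `p + 1` elements, and the curves with `α β = 0`

PROOF of `kill`.  `Pt (ZMod p) α β ≃ Option {z // z.2 ^ 2 = z.1 ^ 3 + α z.1 + β}` (`none ↔ .zero`, `EW_nons`), so `Nat.card (Pt (ZMod p) α β) = na α β p + 1 = p + 1` (`Finite.card_option`, `Nat.card_congr`), and `Nat.card G • P = 0` (`card_nsmul_eq_zero'`).

PROOF of `cm`.  `na α β p = ∑_x #{y : y² = f x}`, and `#{y : y² = t} = 1 + quadraticChar t` for `p ≠ 2` (`quadraticChar_card_sqrts`).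
Case `β = 0` (`α ≠ 0`): `D = -1`, `M = 2`.  If `-1` is not a square modulo `p` then `quadraticChar (-1) = -1` and `x ↦ -x` changes the sign of `quadraticChar (x³ + α x)`: the sum is `0` and `na = p`.
Case `α = 0` (`β ≠ 0`): `D = -3`, `M = 2`.  `-3` is not a square modulo `p`, so `3 ∤ p - 1` (otherwise there is `ω ≠ 1` with `ω³ = 1`, `(2 ω + 1)² = -3`) and `p ≠ 3`; `x ↦ x³` is injective, so bijective on `ZMod p`
(`Nat.Coprime` of `3` and `p - 1`; if `x³ = y³`, `x ≠ y`, then `ω = x / y` solves `ω² + ω + 1 = 0` and `(2 ω + 1)² = -3`: this is simplest), and `∑_x quadraticChar (x³ + β) = ∑_u quadraticChar u = 0` (`quadraticChar_sum_zero`).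
-/

namespace MWS

theorem RD_two {p : ℕ} [Fact p.Prime] (hp2 : p ≠ 2) : (2 : ZMod p) ≠ 0 := by
  intro h
  have h1 : ((2 : ℕ) : ZMod p) = 0 := by exact_mod_cast h
  rw [ZMod.natCast_eq_zero_iff] at h1
  exact hp2 ((Nat.prime_dvd_prime_iff_eq Fact.out Nat.prime_two).1 h1)

theorem RD_char {p : ℕ} [Fact p.Prime] (hp2 : p ≠ 2) : ringChar (ZMod p) ≠ 2 := by
  rw [ZMod.ringChar_zmod_n]
  exact hp2

/-- the points and the affine points -/
noncomputable def RD_equiv {p : ℕ} [Fact p.Prime] {α β : ℤ} (hp2 : p ≠ 2) (hd : ¬ (p : ℤ) ∣ dsc α β) :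
    Pt (ZMod p) α β ≃ Option {z : ZMod p × ZMod p // z.2 ^ 2 = z.1 ^ 3 + (α : ZMod p) * z.1 + (β : ZMod p)} where
  toFun
    | .zero => none
    | .some x y h => some ⟨(x, y), (EW_nons α β (RD_two hp2)
        (fun h0 => hd ((ZMod.intCast_zmod_eq_zero_iff_dvd _ _).1 h0)) x y).1 h⟩
  invFun
    | none => .zero
    | some z => .some z.1.1 z.1.2 ((EW_nons α β (RD_two hp2)
        (fun h0 => hd ((ZMod.intCast_zmod_eq_zero_iff_dvd _ _).1 h0)) z.1.1 z.1.2).2 z.2)
  left_inv := by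
    rintro (_ | ⟨x, y, h⟩) <;> rfl
  right_inv := by
    rintro (_ | ⟨⟨x, y⟩, h⟩) <;> rfl

theorem kill {p : ℕ} [Fact p.Prime] {α β : ℤ} (hp2 : p ≠ 2) (hd : ¬ (p : ℤ) ∣ dsc α β) (hn : na α β p = p)
    (P : Pt (ZMod p) α β) : (p + 1) • P = 0 := by
  have h1 : Nat.card (Pt (ZMod p) α β) = p + 1 := by
    rw [Nat.card_congr (RD_equiv hp2 hd), Finite.card_option]
    unfold na at hn
    rw [hn]
  rw [← h1]
  exact card_nsmul_eq_zero'

/-- the number of affine points by the quadratic character -/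
theorem RD_na {p : ℕ} [Fact p.Prime] (hp2 : p ≠ 2) (α β : ℤ) :
    (na α β p : ℤ) = (∑ x : ZMod p, quadraticChar (ZMod p) (x ^ 3 + (α : ZMod p) * x + (β : ZMod p))) + p := by
  classical
  unfold na
  rw [Nat.card_congr (Equiv.subtypeProdEquivSigmaSubtype
    (p := fun x y : ZMod p => y ^ 2 = x ^ 3 + (α : ZMod p) * x + (β : ZMod p))), Nat.card_eq_fintype_card,
    Fintype.card_sigma, Nat.cast_sum]
  have h1 : ∀ x : ZMod p, (Fintype.card {y : ZMod p // y ^ 2 = x ^ 3 + (α : ZMod p) * x + (β : ZMod p)} : ℤ) =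
      quadraticChar (ZMod p) (x ^ 3 + (α : ZMod p) * x + (β : ZMod p)) + 1 := by
    intro x
    rw [← quadraticChar_card_sqrts (RD_char hp2), Set.toFinset_card]
    congr 1
  rw [Finset.sum_congr rfl fun x _ => h1 x, Finset.sum_add_distrib]
  congr 1
  rw [Finset.sum_const, Finset.card_univ, ZMod.card, nsmul_eq_mul, mul_one]

theorem RD_neg {p : ℕ} [Fact p.Prime] (hp2 : p ≠ 2) (α : ℤ) (h : ¬ IsSquare (-1 : ZMod p)) :
    na α 0 p = p := by
  have h1 := RD_na hp2 α 0
  have h2 : quadraticChar (ZMod p) (-1) = -1 := quadraticChar_neg_one_iff_not_isSquare.2 h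
  set S := ∑ x : ZMod p, quadraticChar (ZMod p) (x ^ 3 + (α : ZMod p) * x + ((0 : ℤ) : ZMod p)) with hS
  have h3 : S = -S := by
    calc S = ∑ x : ZMod p, quadraticChar (ZMod p) ((-x) ^ 3 + (α : ZMod p) * (-x) + ((0 : ℤ) : ZMod p)) := by
          rw [hS]
          exact (Equiv.sum_comp (Equiv.neg (ZMod p)) (fun x => quadraticChar (ZMod p)
            (x ^ 3 + (α : ZMod p) * x + ((0 : ℤ) : ZMod p)))).symm
      _ = ∑ x : ZMod p, -quadraticChar (ZMod p) (x ^ 3 + (α : ZMod p) * x + ((0 : ℤ) : ZMod p)) := by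
          refine Finset.sum_congr rfl fun x _ => ?_
          have e : (-x) ^ 3 + (α : ZMod p) * (-x) + ((0 : ℤ) : ZMod p) =
              -1 * (x ^ 3 + (α : ZMod p) * x + ((0 : ℤ) : ZMod p)) := by
            push_cast
            ring
          rw [e, map_mul, h2, neg_one_mul]
      _ = -S := by rw [Finset.sum_neg_distrib]
  have h4 : S = 0 := by omega
  rw [h4, zero_add] at h1
  exact_mod_cast h1

theorem RD_cube {p : ℕ} [Fact p.Prime] (hp2 : p ≠ 2) (β : ℤ) (h : ¬ IsSquare (-3 : ZMod p)) :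
    na 0 β p = p := by
  have h1 := RD_na hp2 0 β
  have hinj : Function.Injective fun x : ZMod p => x ^ 3 + (β : ZMod p) := by
    intro x y hxy
    have hxy' : x ^ 3 = y ^ 3 := add_right_cancel hxy
    by_contra hne
    have h2 : (x - y) * (x ^ 2 + x * y + y ^ 2) = 0 := by
      have : (x - y) * (x ^ 2 + x * y + y ^ 2) = x ^ 3 - y ^ 3 := by ring
      rw [this, hxy', sub_self]
    have h3 : x ^ 2 + x * y + y ^ 2 = 0 := (mul_eq_zero.1 h2).resolve_left (sub_ne_zero.2 hne)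
    by_cases hy : y = 0
    · subst hy
      apply hne
      have : x ^ 2 = 0 := by
        have h4 := h3
        ring_nf at h4
        exact h4
      exact pow_eq_zero_iff (two_ne_zero) |>.1 this
    · apply h
      refine ⟨(2 * x + y) / y, ?_⟩
      rw [div_mul_div_comm, eq_div_iff (mul_ne_zero hy hy)]
      linear_combination (-4) * h3
  have hbij : Function.Bijective fun x : ZMod p => x ^ 3 + (β : ZMod p) :=
    Finite.injective_iff_bijective.1 hinj
  have h5 : ∑ x : ZMod p, quadraticChar (ZMod p) (x ^ 3 + ((0 : ℤ) : ZMod p) * x + (β : ZMod p)) = 0 := by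
    calc ∑ x : ZMod p, quadraticChar (ZMod p) (x ^ 3 + ((0 : ℤ) : ZMod p) * x + (β : ZMod p)) =
          ∑ x : ZMod p, quadraticChar (ZMod p) (x ^ 3 + (β : ZMod p)) := by
          refine Finset.sum_congr rfl fun x _ => ?_
          rw [Int.cast_zero, zero_mul, add_zero]
      _ = ∑ u : ZMod p, quadraticChar (ZMod p) u :=
          hbij.sum_comp (fun u => quadraticChar (ZMod p) u)
      _ = 0 := quadraticChar_sum_zero (RD_char hp2)
  rw [h5, zero_add] at h1
  exact_mod_cast h1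

theorem cm {α β : ℤ} (h : α * β = 0) (hd : dsc α β ≠ 0) : ∃ (D : ℤ) (M : ℕ), SSq α β D M := by
  rcases mul_eq_zero.1 h with rfl | rfl
  · refine ⟨-3, 2, ?_, two_ne_zero, ?_⟩
    · rintro ⟨r, hr⟩
      nlinarith [mul_self_nonneg r]
    · intro p hp hpM hsq
      have : Fact p.Prime := ⟨hp⟩
      have hp2 : p ≠ 2 := fun h2 => hpM (by rw [h2])
      refine RD_cube hp2 β ?_
      have e : (((-3 : ℤ)) : ZMod p) = -3 := by push_cast; ring
      rwa [e] at hsq
  · refine ⟨-1, 2, ?_, two_ne_zero, ?_⟩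
    · rintro ⟨r, hr⟩
      nlinarith [mul_self_nonneg r]
    · intro p hp hpM hsq
      have : Fact p.Prime := ⟨hp⟩
      have hp2 : p ≠ 2 := fun h2 => hpM (by rw [h2])
      refine RD_neg hp2 α ?_
      have e : (((-1 : ℤ)) : ZMod p) = -1 := by push_cast; ring
      rwa [e] at hsq

end MWS
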