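import Mathlib

/-!
# LEAF FA1: two elementary lemmas

PROOF of `choose_lower`.  `choose N k = ∏_{i < k} (N - i)/(k - i)` and `(N - i)/(k - i) ≥ N / k` for `i < k ≤ N`.  By induction on `k`: `(k + 1) choose N (k + 1) = N choose (N - 1) k`, so `choose N (k+1) = (N/(k+1)) choose (N-1) k ≥ (N/(k+1)) ((N-1)/k)^k ≥ (N/(k+1))^(k+1)`.
PROOF of `dvd_prim`.  For `q ∣ n` prime, `q ^ e ∣ n` with `e = n.factorization q` gives `2 ^ e ≤ q ^ e ≤ n`, so `e ≤ Nat.log 2 n ≤ Nat.log 2 N`; `q ≤ y` gives `q ∣ primorial y`, so `q ^ e ∣ (primorial y) ^ (Nat.log 2 N)`.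
-/

namespace MWS

/-- `(N / k) ^ k ≤ choose N k` -/
theorem choose_lower (N k : ℕ) (hk : 1 ≤ k) (hkN : k ≤ N) : ((N : ℝ) / k) ^ k ≤ (N.choose k : ℝ) := by
  induction k, hk using Nat.le_induction generalizing N with
  | base => simp
  | succ k hk ih =>
    obtain ⟨M, rfl⟩ : ∃ M, N = M + 1 := ⟨N - 1, by omega⟩
    have hkM : k ≤ M := by omega
    have h1 := ih M hkM
    have hk0 : (0 : ℝ) < k := by exact_mod_cast hk
    have hkMR : (k : ℝ) ≤ M := by exact_mod_cast hkM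
    have h2 : ((M + 1 : ℕ) : ℝ) / ((k + 1 : ℕ) : ℝ) ≤ (M : ℝ) / k := by
      push_cast
      rw [div_le_div_iff₀ (by positivity) hk0]
      nlinarith
    have h3 : (((M + 1).choose (k + 1) : ℕ) : ℝ) = ((M + 1 : ℕ) : ℝ) / ((k + 1 : ℕ) : ℝ) * (M.choose k : ℝ) := by
      have h4 := Nat.add_one_mul_choose_eq M k
      have h5 : ((M + 1 : ℕ) : ℝ) * (M.choose k : ℝ) = ((M + 1).choose (k + 1) : ℝ) * ((k + 1 : ℕ) : ℝ) := by
        exact_mod_cast h4
      have h6 : ((k + 1 : ℕ) : ℝ) ≠ 0 := by positivity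
      rw [div_mul_eq_mul_div, h5, mul_div_cancel_right₀ _ h6]
    rw [h3, pow_succ']
    refine mul_le_mul_of_nonneg_left ?_ (by positivity)
    exact (pow_le_pow_left₀ (by positivity) h2 k).trans h1

theorem dvd_prim (n N y : ℕ) (h1 : 1 ≤ n) (hN : n ≤ N) (h : ∀ q : ℕ, q.Prime → q ∣ n → q ≤ y) :
    n ∣ (primorial y) ^ (Nat.log 2 N) := by
  have hpr : primorial y ≠ 0 := (primorial_pos y).ne'
  rw [← Nat.factorization_prime_le_iff_dvd (by omega) (pow_ne_zero _ hpr)]
  intro q hq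
  by_cases hqn : q ∣ n
  · have h2 : q ^ n.factorization q ≤ n := Nat.ordProj_le q (by omega)
    have h3 : 2 ^ n.factorization q ≤ N :=
      (Nat.pow_le_pow_left hq.two_le _).trans (h2.trans hN)
    have h4 : n.factorization q ≤ Nat.log 2 N := Nat.le_log_of_pow_le one_lt_two h3
    have h5 : q ∣ primorial y := by
      unfold primorial
      exact Finset.dvd_prod_of_mem _ (by
        rw [Finset.mem_filter, Finset.mem_range]
        exact ⟨Nat.lt_succ_of_le (h q hq hqn), hq⟩)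
    have h6 : 1 ≤ (primorial y).factorization q := (hq.dvd_iff_one_le_factorization hpr).1 h5
    rw [Nat.factorization_pow, Finsupp.smul_apply, smul_eq_mul]
    nlinarith
  · rw [Nat.factorization_eq_zero_of_not_dvd hqn]
    exact Nat.zero_le _

end MWS
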