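import Pool.Agent.Lib.MP_10e784_agW.RA
import Pool.Agent.Lib.MP_10e784_agW.RB

/-!
# LEAF LA: the local condition

PROOF of `loc`.  `P = 0`: `IsSquare (a_d)` in `ℤ`, map to `ZMod p`.  `P = (x, y)`, `w² = phi c x y`.
If `p ∤ x.den`: `p ∤ y.den` (`den_xy`), `phi c x y` is `p`-integral with reduction `phi c (rc x) (rc y)` (sums and
products, `rc_add`, `rc_mul`, `rc_int`, induction over the sum), `w` is integral (`int_of_sq`), so it is the square
of `rc w`.
If `p ∣ x.den`: `t = 1 / x` and `s = y / x²` are `p`-integral with residue `0` (`s² = t + α t³ + β t⁴`), and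
`(w s^d)² = A g^d` with `A = ∑ a_i t^(d-i) + (∑ b_i t^(d-2-i)) s` of residue `a_d` and `g = x s² = 1 + α t² + β t³`
of residue `1`.
-/

namespace MWS

/-- `p`-integral with residue `r` -/
private def LAr (p : ℕ) (x : ℚ) (r : ZMod p) : Prop := ¬ p ∣ x.den ∧ rc p x = r

private theorem LAr_add {p : ℕ} (hp : p.Prime) {x y : ℚ} {r s : ZMod p} (hx : LAr p x r) (hy : LAr p y s) :
    LAr p (x + y) (r + s) := by
  have h := rc_add hp hx.1 hy.1
  exact ⟨h.1, by rw [h.2, hx.2, hy.2]⟩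

private theorem LAr_mul {p : ℕ} (hp : p.Prime) {x y : ℚ} {r s : ZMod p} (hx : LAr p x r) (hy : LAr p y s) :
    LAr p (x * y) (r * s) := by
  have h := rc_mul hp hx.1 hy.1
  exact ⟨h.1, by rw [h.2, hx.2, hy.2]⟩

private theorem LAr_int {p : ℕ} (hp : p.Prime) (a : ℤ) : LAr p (a : ℚ) (a : ZMod p) := rc_int hp a

private theorem LAr_pow {p : ℕ} (hp : p.Prime) {x : ℚ} {r : ZMod p} (hx : LAr p x r) (n : ℕ) :
    LAr p (x ^ n) (r ^ n) := by
  induction n with
  | zero =>
    have h := LAr_int hp 1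
    simpa using h
  | succ n ih =>
    rw [pow_succ, pow_succ]
    exact LAr_mul hp ih hx

private theorem LAr_sum {p : ℕ} (hp : p.Prime) {ι : Type*} (s : Finset ι) (f : ι → ℚ) (g : ι → ZMod p)
    (h : ∀ i ∈ s, LAr p (f i) (g i)) : LAr p (∑ i ∈ s, f i) (∑ i ∈ s, g i) := by
  classical
  induction s using Finset.induction_on with
  | empty =>
    have h := LAr_int hp 0
    simpa using h
  | insert a s ha ih =>
    rw [Finset.sum_insert ha, Finset.sum_insert ha]
    exact LAr_add hp (h a (Finset.mem_insert_self a s)) (ih fun i hi => h i (Finset.mem_insert_of_mem hi))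

private theorem LAr_sq {p : ℕ} (hp : p.Prime) {x : ℚ} {r : ZMod p} (h : LAr p (x ^ 2) r) :
    LAr p x (rc p x) ∧ rc p x ^ 2 = r := by
  have h1 := int_of_sq hp h.1
  have h2 : LAr p x (rc p x) := ⟨h1, rfl⟩
  exact ⟨h2, by rw [← (LAr_pow hp h2 2).2, h.2]⟩

private theorem LAr_phi {p : ℕ} (hp : p.Prime) {d : ℕ} (c : Cf d) {x y : ℚ} {r s : ZMod p} (hx : LAr p x r)
    (hy : LAr p y s) : LAr p (phi c x y) (phi c r s) := by
  unfold phi
  refine LAr_add hp (LAr_sum hp _ _ _ fun i _ => ?_) (LAr_mul hp (LAr_sum hp _ _ _ fun i _ => ?_) hy)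
  · exact LAr_mul hp (LAr_int hp _) (LAr_pow hp hx _)
  · exact LAr_mul hp (LAr_int hp _) (LAr_pow hp hx _)

private theorem LAr_inv {p : ℕ} (hp : p.Prime) {x : ℚ} (hx : p ∣ x.den) : x ≠ 0 ∧ LAr p x⁻¹ 0 := by
  have h0 : x ≠ 0 := by
    rintro rfl
    exact hp.one_lt.ne' (Nat.dvd_one.1 hx)
  refine ⟨h0, ?_, ?_⟩
  · rw [Rat.den_inv_of_ne_zero h0]
    intro h
    exact hp.one_lt.ne' (Nat.dvd_one.1 (x.reduced ▸ Nat.dvd_gcd h hx))
  · unfold rc
    rw [Rat.num_inv, Int.cast_mul]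
    have h1 : (((x.den : ℕ) : ℤ) : ZMod p) = 0 := by
      rw [Int.cast_natCast]
      exact (ZMod.natCast_eq_zero_iff _ _).2 hx
    rw [h1, mul_zero, zero_mul]

theorem loc {p : ℕ} (hp : p.Prime) {α β : ℤ} {d : ℕ} (hd : 1 ≤ d) (c : Cf d) (P : Pt ℚ α β) (h : Ov c P) :
    lc c p (rd p P) := by
  have hfact : Fact p.Prime := ⟨hp⟩
  rcases P with _ | ⟨x, y, hxy⟩
  · obtain ⟨r, hr⟩ := (h : IsSquare (c.1 (Fin.last d)))
    show IsSquare ((c.1 (Fin.last d) : ℤ) : ZMod p)
    exact ⟨(r : ZMod p), by rw [hr]; push_cast; ring⟩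
  · obtain ⟨w, hw⟩ := (h : ∃ w : ℚ, w ^ 2 = phi c x y)
    have he : y ^ 2 = x ^ 3 + (α : ℚ) * x + (β : ℚ) := (EW_eqn α β x y).1 hxy.1
    by_cases hx : p ∣ x.den
    · have h1 : rd p (.some x y hxy : Pt ℚ α β) = none := by
        show (if p ∣ x.den then none else some (rc p x, rc p y)) = none
        rw [if_pos hx]
      rw [h1]
      show IsSquare ((c.1 (Fin.last d) : ℤ) : ZMod p)
      obtain ⟨hx0, ht⟩ := LAr_inv hp hx
      set t : ℚ := x⁻¹ with htdef
      have hxt : x * t = 1 := mul_inv_cancel₀ hx0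
      set s : ℚ := y * t ^ 2 with hsdef
      have hs2 : s ^ 2 = t + (α : ℚ) * t ^ 3 + (β : ℚ) * t ^ 4 := by
        have e1 : s ^ 2 = y ^ 2 * t ^ 4 := by rw [hsdef]; ring
        rw [e1, he]
        have e2 : x ^ 3 * t ^ 4 = t := by
          have : x ^ 3 * t ^ 4 = (x * t) ^ 3 * t := by ring
          rw [this, hxt]; ring
        have e3 : x * t ^ 4 = t ^ 3 := by
          have : x * t ^ 4 = (x * t) * t ^ 3 := by ring
          rw [this, hxt]; ring
        linear_combination e2 + (α : ℚ) * e3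
      have hs2r : LAr p (s ^ 2) 0 := by
        rw [hs2]
        have h3 := LAr_add hp (LAr_add hp ht (LAr_mul hp (LAr_int hp α) (LAr_pow hp ht 3)))
          (LAr_mul hp (LAr_int hp β) (LAr_pow hp ht 4))
        simpa using h3
      have hs : LAr p s 0 := by
        obtain ⟨h3, h4⟩ := LAr_sq hp hs2r
        have h5 : rc p s = 0 := by
          have := pow_eq_zero_iff (two_ne_zero) |>.1 h4
          exact this
        rwa [h5] at h3
      -- g = x s²
      have hg : LAr p (x * s ^ 2) 1 := by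
        have e1 : x * s ^ 2 = 1 + (α : ℚ) * t ^ 2 + (β : ℚ) * t ^ 3 := by
          rw [hs2]
          have : x * (t + (α : ℚ) * t ^ 3 + (β : ℚ) * t ^ 4) =
            (x * t) * (1 + (α : ℚ) * t ^ 2 + (β : ℚ) * t ^ 3) := by ring
          rw [this, hxt, one_mul]
        rw [e1]
        have h1 := LAr_int hp 1
        have h3 := LAr_add hp (LAr_add hp h1 (LAr_mul hp (LAr_int hp α) (LAr_pow hp ht 2)))
          (LAr_mul hp (LAr_int hp β) (LAr_pow hp ht 3))
        simpa using h3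
      -- A
      set A : ℚ := ∑ i, (c.1 i : ℚ) * t ^ (d - (i : ℕ)) + (∑ i : Fin (d - 1), (c.2 i : ℚ) * t ^ (d - 2 - (i : ℕ))) * s
        with hA
      have hphi : phi c x y = x ^ d * A := by
        have ey : y = x ^ 2 * s := by
          have : x ^ 2 * s = (x * t) ^ 2 * y := by rw [hsdef]; ring
          rw [this, hxt]; ring
        unfold phi
        rw [hA, mul_add, Finset.mul_sum, ← mul_assoc, Finset.mul_sum, Finset.sum_mul, Finset.sum_mul]
        congr 1
        · refine Finset.sum_congr rfl fun i _ => ?_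
          have hi : (i : ℕ) ≤ d := Nat.lt_succ_iff.1 i.2
          have : x ^ d = x ^ (i : ℕ) * x ^ (d - (i : ℕ)) := by rw [← pow_add, Nat.add_sub_cancel' hi]
          have e4 : x ^ (d - (i : ℕ)) * t ^ (d - (i : ℕ)) = 1 := by rw [← mul_pow, hxt, one_pow]
          rw [this]
          linear_combination (-(c.1 i : ℚ) * x ^ (i : ℕ)) * e4
        · refine Finset.sum_congr rfl fun i _ => ?_
          have hi : (i : ℕ) < d - 1 := i.2
          have hi2 : (i : ℕ) + 2 ≤ d := by omega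
          have e5 : x ^ d = x ^ (i : ℕ) * x ^ 2 * x ^ (d - 2 - (i : ℕ)) := by
            rw [← pow_add, ← pow_add]
            congr 1
            omega
          have e4 : x ^ (d - 2 - (i : ℕ)) * t ^ (d - 2 - (i : ℕ)) = 1 := by rw [← mul_pow, hxt, one_pow]
          rw [e5]
          linear_combination ((c.2 i : ℚ) * x ^ (i : ℕ)) * ey -
            ((c.2 i : ℚ) * x ^ (i : ℕ) * x ^ 2 * s) * e4
      have hAr : LAr p A ((c.1 (Fin.last d) : ℤ) : ZMod p) := by
        have h3 : LAr p A (∑ i, ((c.1 i : ℤ) : ZMod p) * 0 ^ (d - (i : ℕ)) +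
            (∑ i : Fin (d - 1), ((c.2 i : ℤ) : ZMod p) * 0 ^ (d - 2 - (i : ℕ))) * 0) := by
          rw [hA]
          refine LAr_add hp (LAr_sum hp _ _ _ fun i _ => ?_) (LAr_mul hp (LAr_sum hp _ _ _ fun i _ => ?_) hs)
          · exact LAr_mul hp (LAr_int hp _) (LAr_pow hp ht _)
          · exact LAr_mul hp (LAr_int hp _) (LAr_pow hp ht _)
        have h4 : (∑ i, ((c.1 i : ℤ) : ZMod p) * 0 ^ (d - (i : ℕ)) +
            (∑ i : Fin (d - 1), ((c.2 i : ℤ) : ZMod p) * 0 ^ (d - 2 - (i : ℕ))) * 0) =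
            ((c.1 (Fin.last d) : ℤ) : ZMod p) := by
          rw [mul_zero, add_zero, Finset.sum_eq_single (Fin.last d)]
          · simp
          · intro i _ hi
            have h5 : (i : ℕ) < d := by
              have h6 : (i : ℕ) ≤ d := Nat.lt_succ_iff.1 i.2
              refine lt_of_le_of_ne h6 fun h7 => hi (Fin.ext ?_)
              rw [h7]; rfl
            rw [zero_pow (by omega), mul_zero]
          · intro h5
            exact absurd (Finset.mem_univ _) h5
        rwa [h4] at h3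
      have hW : LAr p ((w * s ^ d) ^ 2) (((c.1 (Fin.last d) : ℤ) : ZMod p) * 1 ^ d) := by
        have e6 : (w * s ^ d) ^ 2 = A * (x * s ^ 2) ^ d := by
          rw [mul_pow, hw, hphi, mul_pow x, ← pow_mul, ← pow_mul, mul_comm d 2]
          ring
        rw [e6]
        exact LAr_mul hp hAr (LAr_pow hp hg d)
      have h7 := (LAr_sq hp hW).2
      exact ⟨rc p (w * s ^ d), by rw [one_pow, mul_one] at h7; rw [← h7, sq]⟩
    · have h1 : rd p (.some x y hxy : Pt ℚ α β) = some (rc p x, rc p y) := by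
        show (if p ∣ x.den then none else some (rc p x, rc p y)) = some (rc p x, rc p y)
        rw [if_neg hx]
      rw [h1]
      show IsSquare (phi c (rc p x) (rc p y))
      have hy : ¬ p ∣ y.den := fun h2 => hx ((den_xy hp he).2 h2)
      have h2 : LAr p (phi c x y) (phi c (rc p x) (rc p y)) := LAr_phi hp c ⟨hx, rfl⟩ ⟨hy, rfl⟩
      rw [← hw] at h2
      have h7 := (LAr_sq hp h2).2
      exact ⟨rc p w, by rw [← h7, sq]⟩

theorem hasPt_iff {α β : ℤ} (hD : dsc α β ≠ 0) {d : ℕ} (c : Cf d) :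
    (IsSquare (c.1 (Fin.last d)) ∨ ∃ x y w : ℚ, y ^ 2 = x ^ 3 + α * x + β ∧ w ^ 2 = phi c x y) ↔
      ∃ P : Pt ℚ α β, Ov c P := by
  constructor
  · rintro (h | ⟨x, y, w, h1, h2⟩)
    · exact ⟨.zero, h⟩
    · refine ⟨.some x y ((EW_nons α β (by norm_num) (by exact_mod_cast hD) x y).2 h1), w, h2⟩
  · rintro ⟨P, hP⟩
    rcases P with _ | ⟨x, y, hxy⟩
    · exact Or.inl hP
    · obtain ⟨w, hw⟩ := (hP : ∃ w : ℚ, w ^ 2 = phi c x y)
      exact Or.inr ⟨x, y, w, (EW_eqn α β x y).1 hxy.1, hw⟩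

end MWS
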