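import Pool.Agent.Lib.MP_10e784_agW.MA1

/-!
# LEAF MA: the second moment (a sieve with boundedly many primes at a time)

PROOF of `moment`.  May assume `X ≥ 1` (if `S` is empty: the count is `2 H + 1 ≤ 3 H`, `Nat.choose 0 k ≤ 1`).
(i) `fz γ p t` is in `MA1`: `|fz| ≤ 1 + 1/p`; `= 1 - 1/p` if `t + γ p` is a square.
(ii) `Z t = ∑_{T ∈ S.powersetCard k} ∏_{p ∈ T} f p t`.  On our `t`: `Z t = ∑_T ∏_T (1 - 1/p) ≥ (choose |S| k) (1 - 1/(2k))^k ≥ (choose |S| k) / 2` (Bernoulli, `one_add_mul_le_pow`; `p ≥ 2 k`).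
(iii) `∑_{|t| ≤ H} Z t ^ 2 = ∑_{T, T'} ∑_t ∏_T f p t ∏_{T'} f p t`.  `T = T'`: `≤ (2 H + 1) ∏ (1 + 1/p)^2 ≤ (2 H + 1) (1 + 1/(2k))^(2k) ≤ 3 (2 H + 1)`.  `T ≠ T'`: `corr`: at most `∏_T p (1 + 1/p) ∏_{T'} p (1 + 1/p) ≤ 3 X^(2k)` in absolute value.
Together `≤ 3 (2 H + 1) b + 3 b² X^(2k)`, `b = choose |S| k ≤ X^k` (`|S| ≤ X`, `Nat.choose_le_pow`), so `≤ 3 b (2 H + 1 + X^(3k)) ≤ 12 b H`.
(iv) `# (b/2)² ≤ 12 b H`, so `# b ≤ 48 H`.
-/

namespace MWS

open Finset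

theorem MA_mem {S T : Finset ℕ} {k X : ℕ} (hS : ∀ p ∈ S, p.Prime ∧ p ≠ 2 ∧ p ≤ X ∧ 2 * k ≤ p)
    (hT : T ∈ S.powersetCard k) : T.card = k ∧ ∀ p ∈ T, p.Prime ∧ p ≠ 2 ∧ p ≤ X ∧ 2 * k ≤ p := by
  rw [Finset.mem_powersetCard] at hT
  exact ⟨hT.2, fun p hp => hS p (hT.1 hp)⟩

/-- The sum of the reciprocals is at most one half. -/
theorem MA_sum {S T : Finset ℕ} {k X : ℕ} (hS : ∀ p ∈ S, p.Prime ∧ p ≠ 2 ∧ p ≤ X ∧ 2 * k ≤ p)
    (hT : T ∈ S.powersetCard k) : ∑ p ∈ T, (1 : ℝ) / p ≤ 1 / 2 := by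
  obtain ⟨hc, h⟩ := MA_mem hS hT
  rcases Nat.eq_zero_or_pos k with hk | hk
  · have : T = ∅ := by
      rw [← Finset.card_eq_zero, hc, hk]
    rw [this, Finset.sum_empty]
    norm_num
  · have hk' : (0 : ℝ) < k := by exact_mod_cast hk
    have h1 : ∀ p ∈ T, (1 : ℝ) / p ≤ 1 / (2 * k) := by
      intro p hp
      have h2 : ((2 * k : ℕ) : ℝ) ≤ (p : ℝ) := by exact_mod_cast (h p hp).2.2.2
      push_cast at h2
      exact one_div_le_one_div_of_le (by positivity) h2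
    refine (Finset.sum_le_sum h1).trans ?_
    rw [Finset.sum_const, hc, nsmul_eq_mul]
    apply le_of_eq
    field_simp

theorem MA_exp {S T : Finset ℕ} {k X : ℕ} (hS : ∀ p ∈ S, p.Prime ∧ p ≠ 2 ∧ p ≤ X ∧ 2 * k ≤ p)
    (hT : T ∈ S.powersetCard k) : ∏ p ∈ T, (1 + (1 : ℝ) / p) ≤ Real.exp (1 / 2) := by
  have h1 : ∏ p ∈ T, (1 + (1 : ℝ) / p) ≤ ∏ p ∈ T, Real.exp ((1 : ℝ) / p) := by
    refine Finset.prod_le_prod (fun p _ => by positivity) fun p _ => ?_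
    rw [add_comm]
    exact Real.add_one_le_exp _
  rw [← Real.exp_sum] at h1
  exact h1.trans (Real.exp_le_exp.2 (MA_sum hS hT))

theorem MA_exp2 : Real.exp (1 / 2) * Real.exp (1 / 2) ≤ 3 := by
  rw [← Real.exp_add]
  norm_num
  exact Real.exp_one_lt_d9.le.trans (by norm_num)

theorem MA_prod {S T : Finset ℕ} {k X : ℕ} (hS : ∀ p ∈ S, p.Prime ∧ p ≠ 2 ∧ p ≤ X ∧ 2 * k ≤ p)
    (hT : T ∈ S.powersetCard k) :
    ∏ p ∈ T, (p : ℝ) * (1 + 1 / p) ≤ (X : ℝ) ^ k * Real.exp (1 / 2) := by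
  obtain ⟨hc, h⟩ := MA_mem hS hT
  rw [Finset.prod_mul_distrib]
  have h1 : ∏ p ∈ T, (p : ℝ) ≤ (X : ℝ) ^ k := by
    rw [← hc, ← Finset.prod_const]
    exact Finset.prod_le_prod (fun p _ => by positivity) fun p hp => by
      exact_mod_cast (h p hp).2.2.1
  exact mul_le_mul h1 (MA_exp hS hT) (Finset.prod_nonneg fun p _ => by positivity) (by positivity)

/-- Lower bound on the set. -/
theorem MA_low {S T : Finset ℕ} {k X : ℕ} (γ : (p : ℕ) → ZMod p)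
    (hS : ∀ p ∈ S, p.Prime ∧ p ≠ 2 ∧ p ≤ X ∧ 2 * k ≤ p)
    (hT : T ∈ S.powersetCard k) (t : ℤ) (ht : ∀ p ∈ S, IsSquare ((t : ZMod p) + γ p)) :
    1 / 2 ≤ ∏ p ∈ T, fz γ p t := by
  obtain ⟨hc, h⟩ := MA_mem hS hT
  have hTS : T ⊆ S := (Finset.mem_powersetCard.1 hT).1
  rcases Nat.eq_zero_or_pos k with hk | hk
  · have : T = ∅ := by
      rw [← Finset.card_eq_zero, hc, hk]
    rw [this, Finset.prod_empty]
    norm_num
  · have hk' : (0 : ℝ) < k := by exact_mod_cast hk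
    have hk1 : (1 : ℝ) ≤ k := by exact_mod_cast hk
    have hq : (1 : ℝ) / (2 * k) ≤ 1 / 2 := by
      rw [div_le_div_iff₀ (by positivity) (by norm_num)]
      linarith
    have h1 : ∀ p ∈ T, 1 - (1 : ℝ) / (2 * k) ≤ fz γ p t := by
      intro p hp
      have hp0 : (0 : ℝ) < p := by exact_mod_cast (h p hp).1.pos
      have h2 : ((2 * k : ℕ) : ℝ) ≤ (p : ℝ) := by exact_mod_cast (h p hp).2.2.2
      push_cast at h2
      have h3 : (1 : ℝ) / p ≤ 1 / (2 * k) := one_div_le_one_div_of_le (by positivity) h2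
      unfold fz
      rw [if_pos (ht p (hTS hp)), add_div, div_self hp0.ne']
      linarith
    have h2 : (1 - (1 : ℝ) / (2 * k)) ^ k ≤ ∏ p ∈ T, fz γ p t := by
      rw [← hc, ← Finset.prod_const]
      rw [hc]
      exact Finset.prod_le_prod (fun p _ => by linarith) h1
    refine le_trans ?_ h2
    have h3 := one_add_mul_le_pow (a := -((1 : ℝ) / (2 * k))) (by linarith) k
    have h4 : 1 + (k : ℝ) * -(1 / (2 * k)) = 1 / 2 := by
      field_simp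
      norm_num
    rw [h4] at h3
    rwa [← sub_eq_add_neg] at h3

open Classical in
theorem moment (S : Finset ℕ) (X k H : ℕ) (γ : (p : ℕ) → ZMod p)
    (hS : ∀ p ∈ S, p.Prime ∧ p ≠ 2 ∧ p ≤ X ∧ 2 * k ≤ p) (hH : X ^ (3 * k) ≤ H) (h1 : 1 ≤ H) :
    (((Icc (-(H : ℤ)) H).filter (fun t => ∀ p ∈ S, IsSquare ((t : ZMod p) + γ p))).card : ℝ) *
      (S.card.choose k : ℝ) ≤ 200 * H := by
  set G := (Icc (-(H : ℤ)) H).filter (fun t => ∀ p ∈ S, IsSquare ((t : ZMod p) + γ p)) with hG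
  set b : ℝ := (S.card.choose k : ℝ) with hb
  have hb0 : 0 ≤ b := Nat.cast_nonneg _
  have hH1 : (1 : ℝ) ≤ H := by exact_mod_cast h1
  rcases hb0.eq_or_lt with hb1 | hb1
  · rw [← hb1, mul_zero]
    positivity
  set Z : ℤ → ℝ := fun t => ∑ T ∈ S.powersetCard k, ∏ p ∈ T, fz γ p t with hZ
  have hcard : ((S.powersetCard k).card : ℝ) = b := by
    rw [Finset.card_powersetCard]
  -- lower bound
  have hlow : ∀ t ∈ G, b / 2 ≤ Z t := by
    intro t ht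
    have ht' := (Finset.mem_filter.1 ht).2
    have h2 : ∑ _T ∈ S.powersetCard k, (1 / 2 : ℝ) ≤ Z t :=
      Finset.sum_le_sum fun T hT => MA_low γ hS hT t ht'
    rw [Finset.sum_const, nsmul_eq_mul, hcard] at h2
    linarith
  -- the second moment
  have hsq : ∀ t, Z t ^ 2 = ∑ T ∈ S.powersetCard k, ∑ T' ∈ S.powersetCard k,
      (∏ p ∈ T, fz γ p t) * ∏ p ∈ T', fz γ p t := by
    intro t
    rw [sq, hZ, Finset.sum_mul_sum]
  have hIcc : ((Icc (-(H : ℤ)) H).card : ℝ) = 2 * H + 1 := by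
    rw [Int.card_Icc]
    have : ((H : ℤ) + 1 - -(H : ℤ)).toNat = 2 * H + 1 := by omega
    rw [this]
    push_cast
    ring
  have hup : ∑ t ∈ Icc (-(H : ℤ)) H, Z t ^ 2 ≤
      ∑ T ∈ S.powersetCard k, ∑ T' ∈ S.powersetCard k,
        (3 * (X : ℝ) ^ (2 * k) + if T = T' then 3 * (2 * (H : ℝ) + 1) else 0) := by
    have h2 : ∑ t ∈ Icc (-(H : ℤ)) H, Z t ^ 2 = ∑ T ∈ S.powersetCard k, ∑ T' ∈ S.powersetCard k,
        ∑ t ∈ Icc (-(H : ℤ)) H, (∏ p ∈ T, fz γ p t) * ∏ p ∈ T', fz γ p t := by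
      rw [Finset.sum_congr rfl fun t _ => hsq t, Finset.sum_comm]
      refine Finset.sum_congr rfl fun T _ => ?_
      rw [Finset.sum_comm]
    rw [h2]
    refine Finset.sum_le_sum fun T hT => Finset.sum_le_sum fun T' hT' => ?_
    have hX0 : (0 : ℝ) ≤ 3 * (X : ℝ) ^ (2 * k) := by positivity
    by_cases hTT : T = T'
    · rw [if_pos hTT, ← hTT]
      have h3 : ∀ t ∈ Icc (-(H : ℤ)) H, (∏ p ∈ T, fz γ p t) * ∏ p ∈ T, fz γ p t ≤ 3 := by
        intro t _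
        have h4 : |∏ p ∈ T, fz γ p t| ≤ Real.exp (1 / 2) := by
          rw [Finset.abs_prod]
          refine le_trans ?_ (MA_exp hS hT)
          exact Finset.prod_le_prod (fun p _ => abs_nonneg _) fun p hp =>
            fz_abs γ ((MA_mem hS hT).2 p hp).1 t
        rw [← abs_mul_abs_self]
        exact (mul_le_mul h4 h4 (abs_nonneg _) (Real.exp_pos _).le).trans MA_exp2
      have h5 := Finset.sum_le_sum h3
      rw [Finset.sum_const, nsmul_eq_mul, hIcc] at h5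
      linarith
    · rw [if_neg hTT, add_zero]
      refine (le_abs_self _).trans ((corr γ T T' (fun p hp => ?_) (fun p hp => ?_) hTT _ _).trans ?_)
      · exact ⟨((MA_mem hS hT).2 p hp).1, ((MA_mem hS hT).2 p hp).2.1⟩
      · exact ⟨((MA_mem hS hT').2 p hp).1, ((MA_mem hS hT').2 p hp).2.1⟩
      · refine (mul_le_mul (MA_prod hS hT) (MA_prod hS hT')
          (Finset.prod_nonneg fun p _ => by positivity) (by positivity)).trans ?_
        have h6 : (X : ℝ) ^ k * Real.exp (1 / 2) * ((X : ℝ) ^ k * Real.exp (1 / 2)) =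
            (X : ℝ) ^ (2 * k) * (Real.exp (1 / 2) * Real.exp (1 / 2)) := by
          rw [two_mul, pow_add]
          ring
        rw [h6, mul_comm 3]
        exact mul_le_mul_of_nonneg_left MA_exp2 (by positivity)
  have hup2 : ∑ T ∈ S.powersetCard k, ∑ T' ∈ S.powersetCard k,
        (3 * (X : ℝ) ^ (2 * k) + if T = T' then 3 * (2 * (H : ℝ) + 1) else 0) =
      b * (b * (3 * (X : ℝ) ^ (2 * k))) + b * (3 * (2 * (H : ℝ) + 1)) := by
    have h2 : ∀ T ∈ S.powersetCard k, ∑ T' ∈ S.powersetCard k,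
        (3 * (X : ℝ) ^ (2 * k) + if T = T' then 3 * (2 * (H : ℝ) + 1) else 0) =
        b * (3 * (X : ℝ) ^ (2 * k)) + 3 * (2 * (H : ℝ) + 1) := by
      intro T hT
      rw [Finset.sum_add_distrib, Finset.sum_const, nsmul_eq_mul, hcard, Finset.sum_ite_eq,
        if_pos hT]
    rw [Finset.sum_congr rfl h2, Finset.sum_const, nsmul_eq_mul, hcard]
    ring
  have hbX : b ≤ (X : ℝ) ^ k := by
    have h2 : S.card ≤ X := by
      have h3 : S ⊆ Finset.Icc 1 X := fun p hp => by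
        rw [Finset.mem_Icc]
        exact ⟨(hS p hp).1.pos, (hS p hp).2.2.1⟩
      simpa using Finset.card_le_card h3
    have h4 : S.card.choose k ≤ X ^ k :=
      (Nat.choose_le_pow _ _).trans (Nat.pow_le_pow_left h2 k)
    rw [hb]
    exact_mod_cast h4
  have hXH : (X : ℝ) ^ k * (X : ℝ) ^ (2 * k) ≤ H := by
    rw [← pow_add]
    have : k + 2 * k = 3 * k := by ring
    rw [this]
    exact_mod_cast hH
  have hfin : ∑ t ∈ Icc (-(H : ℤ)) H, Z t ^ 2 ≤ 12 * b * H := by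
    rw [hup2] at hup
    have h2 : b * (3 * (X : ℝ) ^ (2 * k)) ≤ 3 * H := by
      have := mul_le_mul_of_nonneg_right hbX (show (0 : ℝ) ≤ (X : ℝ) ^ (2 * k) by positivity)
      linarith
    have h3 : b * (b * (3 * (X : ℝ) ^ (2 * k))) ≤ b * (3 * H) := mul_le_mul_of_nonneg_left h2 hb0
    have h4 : b * 1 ≤ b * H := mul_le_mul_of_nonneg_left hH1 hb0
    linarith
  have hG2 : (G.card : ℝ) * (b / 2) ^ 2 ≤ 12 * b * H := by
    refine le_trans ?_ hfin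
    have h2 : ∑ _t ∈ G, (b / 2) ^ 2 ≤ ∑ t ∈ G, Z t ^ 2 :=
      Finset.sum_le_sum fun t ht => pow_le_pow_left₀ (by positivity) (hlow t ht) 2
    rw [Finset.sum_const, nsmul_eq_mul] at h2
    exact h2.trans (Finset.sum_le_sum_of_subset_of_nonneg (Finset.filter_subset _ _)
      fun t _ _ => sq_nonneg _)
  have h5 : (G.card : ℝ) * b * b ≤ 48 * H * b := by nlinarith
  have h6 := le_of_mul_le_mul_right h5 hb1
  linarith

end MWS
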