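import Pool.Agent.Lib.MP_10e784_agW.Defs
import Pool.Agent.Lib.MP_10e784_agW.MA

/-!
# LEAF MB: the number of coefficient vectors for one class

PROOF.  `S = S' ∪ S''`, `S' = {p ∈ S | r p ≠ none}`; one of them, `T`, has at least `(|S| + 1) / 2` elements, so `choose ((|S| + 1)/2) k ≤ choose |T| k` (`Nat.choose_le_choose`).
`T = S'`: fix all the coefficients but `a_0`; `t = a_0` satisfies `IsSquare (t + γ p)` for `p ∈ T`, with `γ p = ∑_{i ≥ 1} a_i x^i + (∑ b_i x^i) y`, `(x, y) = r p` (`Fin.sum_univ_succ`); `moment` for `T`: at most `200 H / choose |T| k` values.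
`T = S''`: the same with `a_d` and `γ p = 0`.  The number of choices of the other `2 d - 1` coefficients is `(2 H + 1) ^ (2 d - 1)`.
(Finiteness: the set injects into the box `Fintype.piFinset (fun _ => Icc (-H) H)` squared; fibres of the map forgetting one coordinate; `Finset.card_le_mul_card_image` or a sum over fibres.)
-/

namespace MWS

open Finset

/-- The box as a finite set. -/
noncomputable def MB_box (d H : ℕ) : Finset (Cf d) :=
  (Fintype.piFinset fun _ : Fin (d + 1) => Icc (-(H : ℤ)) H) ×ˢ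
    (Fintype.piFinset fun _ : Fin (d - 1) => Icc (-(H : ℤ)) H)

theorem MB_mem {d H : ℕ} (c : Cf d) : c ∈ MB_box d H ↔ Bx H c := by
  unfold MB_box Bx
  rw [Finset.mem_product, Fintype.mem_piFinset, Fintype.mem_piFinset]
  refine and_congr (forall_congr' fun i => ?_) (forall_congr' fun i => ?_)
  · rw [Finset.mem_Icc, abs_le]
  · rw [Finset.mem_Icc, abs_le]

theorem MB_Icc (H : ℕ) : (Icc (-(H : ℤ)) H).card = 2 * H + 1 := by
  rw [Int.card_Icc]
  omega

theorem box_finite (d H : ℕ) : Finite {c : Cf d // Bx H c} := by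
  have h : {c : Cf d | Bx H c} = ↑(MB_box d H) := by
    ext c
    exact (MB_mem c).symm
  have h2 : {c : Cf d | Bx H c}.Finite := by
    rw [h]
    exact Finset.finite_toSet _
  exact h2

theorem box_card {d : ℕ} (hd : 1 ≤ d) (H : ℕ) : (Nat.card {c : Cf d // Bx H c} : ℝ) ≤ (2 * (H : ℝ) + 1) ^ (2 * d) := by
  have h1 : Nat.card {c : Cf d // Bx H c} = (MB_box d H).card :=
    Nat.subtype_card _ fun c => MB_mem c
  rw [h1]
  unfold MB_box
  rw [Finset.card_product, Fintype.card_piFinset, Fintype.card_piFinset, Finset.prod_const,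
    Finset.prod_const, MB_Icc, Finset.card_univ, Finset.card_univ, Fintype.card_fin,
    Fintype.card_fin, ← pow_add]
  have h2 : d + 1 + (d - 1) = 2 * d := by omega
  rw [h2]
  push_cast
  exact le_rfl

open Classical in
/-- Summation over the fibres of the map which forgets one coordinate. -/
theorem MB_fib {d H : ℕ} (hd : 1 ≤ d) (i0 : Fin (d + 1)) (P : Cf d → Prop) (ch W : ℝ)
    (hch : 0 ≤ ch) (h : ∀ (a : Fin d → ℤ) (b : Fin (d - 1) → ℤ),
      (((Icc (-(H : ℤ)) H).filter fun t =>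
        P (Fin.insertNth (α := fun _ => ℤ) i0 t a, b)).card : ℝ) * ch ≤ W) :
    (Nat.card {c : Cf d // Bx H c ∧ P c} : ℝ) * ch ≤ W * (2 * (H : ℝ) + 1) ^ (2 * d - 1) := by
  have h1 : Nat.card {c : Cf d // Bx H c ∧ P c} = ((MB_box d H).filter P).card :=
    Nat.subtype_card _ fun c => by rw [Finset.mem_filter, MB_mem]
  set Tg : Finset ((Fin d → ℤ) × (Fin (d - 1) → ℤ)) :=
    (Fintype.piFinset fun _ : Fin d => Icc (-(H : ℤ)) H) ×ˢ
      (Fintype.piFinset fun _ : Fin (d - 1) => Icc (-(H : ℤ)) H) with hTg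
  set f : Cf d → (Fin d → ℤ) × (Fin (d - 1) → ℤ) := fun c => (fun i => c.1 (i0.succAbove i), c.2)
    with hf
  have hmap : ∀ c ∈ (MB_box d H).filter P, f c ∈ Tg := by
    intro c hc
    have h2 := (MB_mem c).1 (Finset.mem_filter.1 hc).1
    rw [hTg, Finset.mem_product, Fintype.mem_piFinset, Fintype.mem_piFinset]
    refine ⟨fun i => ?_, fun i => ?_⟩
    · rw [Finset.mem_Icc, ← abs_le]
      exact h2.1 _
    · rw [Finset.mem_Icc, ← abs_le]
      exact h2.2 _
  have hcT : (Tg.card : ℝ) = (2 * (H : ℝ) + 1) ^ (2 * d - 1) := by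
    rw [hTg, Finset.card_product, Fintype.card_piFinset, Fintype.card_piFinset, Finset.prod_const,
      Finset.prod_const, MB_Icc, Finset.card_univ, Finset.card_univ, Fintype.card_fin,
      Fintype.card_fin, ← pow_add]
    have h2 : d + (d - 1) = 2 * d - 1 := by omega
    rw [h2]
    push_cast
    rfl
  have hfib : ∀ y ∈ Tg, (((((MB_box d H).filter P).filter fun c => f c = y).card : ℕ) : ℝ) * ch ≤
      W := by
    intro y _
    refine le_trans (mul_le_mul_of_nonneg_right ?_ hch) (h y.1 y.2)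
    have h2 : (((MB_box d H).filter P).filter fun c => f c = y) ⊆
        ((Icc (-(H : ℤ)) H).filter fun t =>
          P (Fin.insertNth (α := fun _ => ℤ) i0 t y.1, y.2)).image
          fun t => ((Fin.insertNth (α := fun _ => ℤ) i0 t y.1, y.2) : Cf d) := by
      intro c hc
      obtain ⟨hc1, hc2⟩ := Finset.mem_filter.1 hc
      obtain ⟨hc3, hc4⟩ := Finset.mem_filter.1 hc1
      have h3 : ((Fin.insertNth (α := fun _ => ℤ) i0 (c.1 i0) y.1, y.2) : Cf d) = c := by
        rw [← hc2]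
        refine Prod.ext ?_ rfl
        exact Fin.insertNth_self_removeNth i0 c.1
      rw [Finset.mem_image]
      refine ⟨c.1 i0, ?_, h3⟩
      rw [Finset.mem_filter, h3]
      refine ⟨?_, hc4⟩
      rw [Finset.mem_Icc, ← abs_le]
      exact ((MB_mem c).1 hc3).1 _
    exact_mod_cast (Finset.card_le_card h2).trans Finset.card_image_le
  rw [h1, Finset.card_eq_sum_card_fiberwise hmap]
  push_cast
  rw [Finset.sum_mul]
  refine (Finset.sum_le_sum hfib).trans ?_
  rw [Finset.sum_const, nsmul_eq_mul, hcT, mul_comm]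

/-- The shift in the constant coefficient. -/
noncomputable def MB_γ {d : ℕ} (r : (p : ℕ) → Option (ZMod p × ZMod p)) (a : Fin d → ℤ)
    (b : Fin (d - 1) → ℤ) (p : ℕ) : ZMod p :=
  match r p with
  | none => 0
  | some z => ∑ i : Fin d, (a i : ZMod p) * z.1 ^ ((i : ℕ) + 1) +
      (∑ i, (b i : ZMod p) * z.1 ^ (i : ℕ)) * z.2

open Classical in
theorem class_count {d : ℕ} (hd : 1 ≤ d) (S : Finset ℕ) (X k H : ℕ) (r : (p : ℕ) → Option (ZMod p × ZMod p))
    (hS : ∀ p ∈ S, p.Prime ∧ p ≠ 2 ∧ p ≤ X ∧ 2 * k ≤ p) (hH : X ^ (3 * k) ≤ H) (h1 : 1 ≤ H) :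
    (Nat.card {c : Cf d // Bx H c ∧ ∀ p ∈ S, lc c p (r p)} : ℝ) * (((S.card + 1) / 2).choose k : ℝ) ≤
      200 * H * (2 * (H : ℝ) + 1) ^ (2 * d - 1) := by
  -- one of the two parts is large
  have hsplit := Finset.card_filter_add_card_filter_not (s := S) (fun p => r p ≠ none)
  have hgen : ∀ T : Finset ℕ, T ⊆ S → (S.card + 1) / 2 ≤ T.card → ∀ γ : (p : ℕ) → ZMod p,
      ∀ Q : ℤ → Prop, (∀ t, Q t → ∀ p ∈ T, IsSquare ((t : ZMod p) + γ p)) →
      (((Icc (-(H : ℤ)) H).filter fun t => Q t).card : ℝ) * (((S.card + 1) / 2).choose k : ℝ) ≤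
        200 * H := by
    intro T hT hc γ Q hQ
    have h2 := moment T X k H γ (fun p hp => hS p (hT hp)) hH h1
    have h3 : ((((S.card + 1) / 2).choose k : ℕ) : ℝ) ≤ ((T.card.choose k : ℕ) : ℝ) := by
      exact_mod_cast Nat.choose_le_choose k hc
    have h4 : ((((Icc (-(H : ℤ)) H).filter fun t => Q t).card : ℕ) : ℝ) ≤
        ((((Icc (-(H : ℤ)) H).filter
          (fun t => ∀ p ∈ T, IsSquare ((t : ZMod p) + γ p))).card : ℕ) : ℝ) := by
      have h5 : ((Icc (-(H : ℤ)) H).filter fun t => Q t) ⊆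
          ((Icc (-(H : ℤ)) H).filter (fun t => ∀ p ∈ T, IsSquare ((t : ZMod p) + γ p))) := by
        intro t ht
        obtain ⟨ht1, ht2⟩ := Finset.mem_filter.1 ht
        exact Finset.mem_filter.2 ⟨ht1, hQ t ht2⟩
      exact_mod_cast Finset.card_le_card h5
    exact (mul_le_mul h4 h3 (Nat.cast_nonneg _) (Nat.cast_nonneg _)).trans h2
  have hor : (S.card + 1) / 2 ≤ (S.filter fun p => r p ≠ none).card ∨
      (S.card + 1) / 2 ≤ (S.filter fun p => ¬ r p ≠ none).card := by omega
  rcases hor with hc | hc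
  · refine MB_fib hd 0 _ _ _ (Nat.cast_nonneg _) fun a b => ?_
    refine hgen _ (Finset.filter_subset _ _) hc (MB_γ r a b) _ fun t ht p hp => ?_
    obtain ⟨hp1, hp2⟩ := Finset.mem_filter.1 hp
    have h2 := ht p hp1
    obtain ⟨z, hz⟩ := Option.ne_none_iff_exists'.1 hp2
    rw [hz] at h2
    have h3 : (t : ZMod p) + MB_γ r a b p =
        phi (((Fin.insertNth (α := fun _ => ℤ) 0 t a, b)) : Cf d) z.1 z.2 := by
      unfold phi MB_γ
      rw [hz, Fin.sum_univ_succ]
      simp only [Fin.insertNth_zero', Fin.cons_zero, Fin.cons_succ, Fin.val_zero, pow_zero, mul_one,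
        Fin.val_succ]
      ring
    rw [h3]
    exact h2
  · refine MB_fib hd (Fin.last d) _ _ _ (Nat.cast_nonneg _) fun a b => ?_
    refine hgen _ (Finset.filter_subset _ _) hc (fun _ => 0) _ fun t ht p hp => ?_
    obtain ⟨hp1, hp2⟩ := Finset.mem_filter.1 hp
    have h2 := ht p hp1
    rw [not_not] at hp2
    rw [hp2] at h2
    change IsSquare (((Fin.insertNth (α := fun _ => ℤ) (Fin.last d) t a (Fin.last d) : ℤ)) : ZMod p)
      at h2
    rw [Fin.insertNth_apply_same] at h2
    rw [add_zero]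
    exact h2

end MWS
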