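import Pool.Agent.Lib.MP_10e784_agW.FA1

/-!
# LEAF FA: the choice of the parameters

PROOF.  `B = (1 + A)/2`, so `1 < B < A`; `η = 1 - 1/B > 0`; `δ = η / 24`.  For `H` large put `ℓ = log H`, `x = ℓ ^ B` (so `ℓ = x ^ (1/B)`), `k = ⌊ℓ / (3 log x)⌋₊`, `y = ⌊x ^ (1/A)⌋₊`, `j = Nat.log 2 ⌊x + 1⌋₊`, `L = (primorial y) ^ j`.
(1) `x ≥ x0`: `x → ∞` with `H`.  (2) `⌊x⌋₊ ^ (3 k) ≤ x ^ (3 k) = exp (3 k log x) ≤ exp ℓ = H`.  (3) `2 k ≤ ℓ = x ^ (1/B) ≤ x / K` for `x` large.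
(4) `dvd_prim` (`q ^ A ≤ x` gives `q ≤ x ^ (1/A)`, so `q ≤ y`).
(5) `L ≤ 4 ^ (y j)` (`primorial_le_4_pow`), `j ≤ 2 log (x + 1)`, so `s log L ≤ 4 s x ^ (1/A) log (x + 1) ≤ δ x ^ (1/B) = δ log H` for `x` large (`1/A < 1/B`), `L ^ s ≤ H ^ δ`.
(6) `n ≥ x / (K log x)`: with `N = (n + 1)/2 ≥ n / 2 ≥ x / (2 K log x)` and `k ≤ x ^ (1/B) / (3 log x)`: `choose N k ≥ (N / k) ^ k` (`Nat.pow_le_choose`-type bounds: `N ^ k / k ^ k ≤ choose N k`, by induction or from the product formula; `k ≤ N`)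
`≥ ((3 / (2 K)) x ^ (1 - 1/B)) ^ k ≥ (x ^ (η/2)) ^ k = exp ((η/2) k log x)`, and `k log x ≥ ℓ/3 - log x ≥ ℓ / 6`, so `choose N k ≥ H ^ (η/12) = H ^ (2 δ)`.  `L ^ s * H ^ δ ≤ H ^ (2 δ)`.
-/

namespace MWS

open Filter Topology

/-- the inequalities between the parameters, as `ℓ → ∞` -/
theorem FA_event (A B δ K x0 : ℝ) (s : ℕ) (hA : 1 < A) (hB : 1 < B) (hBA : B < A) (hδ : 0 < δ)
    (hK : 1 ≤ K) :
    ∀ᶠ l : ℝ in atTop, 2 ≤ l ∧ x0 ≤ l ^ B ∧ 1 ≤ Real.log (l ^ B) ∧ K * l ≤ l ^ B ∧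
      s * ((2 * Real.log (l ^ B + 1)) * (l ^ (B / A) * Real.log 4)) ≤ δ * l ∧
      1 ≤ 3 / (2 * K) * l ^ ((B - 1) / 2) ∧ Real.log (l ^ B) ≤ l / 6 := by
  have hB0 : 0 < B := by linarith
  have hA0 : 0 < A := by linarith
  have t1 : Tendsto (fun l : ℝ => l ^ B) atTop atTop := tendsto_rpow_atTop hB0
  have e0 : ∀ᶠ l : ℝ in atTop, 2 ≤ l := eventually_ge_atTop 2
  have e1 : ∀ᶠ l : ℝ in atTop, x0 ≤ l ^ B := t1.eventually_ge_atTop x0
  have e2 : ∀ᶠ l : ℝ in atTop, 1 ≤ Real.log (l ^ B) :=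
    (Real.tendsto_log_atTop.comp t1).eventually_ge_atTop 1
  have e3 : ∀ᶠ l : ℝ in atTop, K ≤ l ^ (B - 1) :=
    (tendsto_rpow_atTop (by linarith : 0 < B - 1)).eventually_ge_atTop K
  have e5 : ∀ᶠ l : ℝ in atTop, 2 * K ≤ l ^ ((B - 1) / 2) :=
    (tendsto_rpow_atTop (by linarith : 0 < (B - 1) / 2)).eventually_ge_atTop (2 * K)
  have hr : 0 < 1 - B / A := by
    rw [sub_pos, div_lt_one hA0]
    exact hBA
  have hc4 : 0 < Real.log 4 := Real.log_pos (by norm_num)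
  have hC : 0 < δ / (s * (2 * (1 + B) * Real.log 4) + 1) := by positivity
  have e4 := (isLittleO_log_rpow_atTop hr).bound hC
  have e6 := (isLittleO_log_rpow_atTop (by norm_num : (0:ℝ) < 1)).bound
    (show 0 < 1 / (6 * B) by positivity)
  filter_upwards [e0, e1, e2, e3, e4, e5, e6] with l h0 h1 h2 h3 h4 h5 h6
  have hl : 0 < l := by linarith
  have hlog : 0 ≤ Real.log l := Real.log_nonneg (by linarith)
  have hlogB : Real.log (l ^ B) = B * Real.log l := Real.log_rpow hl B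
  refine ⟨h0, h1, h2, ?_, ?_, ?_, ?_⟩
  · calc K * l ≤ l ^ (B - 1) * l := mul_le_mul_of_nonneg_right h3 hl.le
      _ = l ^ B := by
        rw [← Real.rpow_add_one hl.ne']
        congr 1
        ring
  · rw [Real.norm_of_nonneg hlog, Real.norm_of_nonneg (Real.rpow_nonneg hl.le _)] at h4
    have g1 : Real.log (l ^ B + 1) ≤ (1 + B) * Real.log l := by
      have h7 : 1 ≤ l ^ B := Real.one_le_rpow (by linarith) hB0.le
      have h8 : l ^ B + 1 ≤ l * l ^ B := by nlinarith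
      calc Real.log (l ^ B + 1) ≤ Real.log (l * l ^ B) := Real.log_le_log (by positivity) h8
        _ = (1 + B) * Real.log l := by
          rw [Real.log_mul hl.ne' (by positivity), hlogB]
          ring
    have hpow : l ^ (1 - B / A) * l ^ (B / A) = l := by
      rw [← Real.rpow_add hl, sub_add_cancel, Real.rpow_one]
    have hP : 0 < l ^ (B / A) := Real.rpow_pos_of_pos hl _
    set S : ℝ := s * (2 * (1 + B) * Real.log 4) with hS
    have hS0 : 0 ≤ S := by positivity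
    calc (s : ℝ) * ((2 * Real.log (l ^ B + 1)) * (l ^ (B / A) * Real.log 4))
        ≤ s * ((2 * ((1 + B) * Real.log l)) * (l ^ (B / A) * Real.log 4)) := by gcongr
      _ = S * (Real.log l * l ^ (B / A)) := by rw [hS]; ring
      _ ≤ S * ((δ / (S + 1) * l ^ (1 - B / A)) * l ^ (B / A)) := by gcongr
      _ = S * (δ / (S + 1) * l) := by rw [mul_assoc (δ / (S + 1)), hpow]
      _ = (S / (S + 1)) * (δ * l) := by ring
      _ ≤ 1 * (δ * l) := by
        refine mul_le_mul_of_nonneg_right ?_ (by positivity)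
        rw [div_le_one (by positivity)]
        linarith
      _ = δ * l := one_mul _
  · have hK0 : 0 < K := by linarith
    calc (1 : ℝ) ≤ 3 / (2 * K) * (2 * K) := by
          rw [div_mul_cancel₀ _ (by positivity)]
          norm_num
      _ ≤ 3 / (2 * K) * l ^ ((B - 1) / 2) := by gcongr
  · rw [Real.norm_of_nonneg hlog, Real.rpow_one, Real.norm_of_nonneg hl.le] at h6
    rw [hlogB]
    calc B * Real.log l ≤ B * (1 / (6 * B) * l) := by gcongr
      _ = l / 6 := by field_simp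

theorem params (A : ℝ) (hA : 1 < A) (hA2 : A ≤ 2) : ∃ δ : ℝ, 0 < δ ∧ ∀ (K x0 : ℝ) (s : ℕ), 1 ≤ K →
    ∃ H0 : ℕ, ∀ H : ℕ, H0 ≤ H → ∃ (x : ℝ) (k L : ℕ), x0 ≤ x ∧ ⌊x⌋₊ ^ (3 * k) ≤ H ∧ 2 * (k : ℝ) ≤ x / K ∧ 1 ≤ L ∧
      (∀ n : ℕ, 1 ≤ n → (n : ℝ) ≤ x + 1 → (∀ q : ℕ, q.Prime → q ∣ n → (q : ℝ) ^ A ≤ x) → n ∣ L) ∧
      (∀ n : ℕ, x / (K * Real.log x) ≤ (n : ℝ) → (L : ℝ) ^ s * (H : ℝ) ^ δ ≤ (((n + 1) / 2).choose k : ℝ)) := by
  obtain ⟨B, hB⟩ : ∃ B : ℝ, B = (1 + A) / 2 := ⟨_, rfl⟩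
  have hB1 : 1 < B := by rw [hB]; linarith
  have hBA : B < A := by rw [hB]; linarith
  have hB0 : 0 < B := by linarith
  have hA0 : 0 < A := by linarith
  obtain ⟨δ, hδ⟩ : ∃ δ : ℝ, δ = (1 - 1 / B) / 24 := ⟨_, rfl⟩
  have hη : 0 < 1 - 1 / B := by
    rw [sub_pos, div_lt_one hB0]
    exact hB1
  have hδ0 : 0 < δ := by rw [hδ]; positivity
  refine ⟨δ, hδ0, fun K x0 s hK => ?_⟩
  obtain ⟨l0, hl0⟩ := eventually_atTop.1 (FA_event A B δ K x0 s hA hB1 hBA hδ0 hK)
  refine ⟨⌈Real.exp l0⌉₊, fun H hH => ?_⟩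
  have hK0 : 0 < K := by linarith
  have hHe : Real.exp l0 ≤ H := (Nat.le_ceil _).trans (by exact_mod_cast hH)
  have hH0 : (0 : ℝ) < H := (Real.exp_pos _).trans_le hHe
  obtain ⟨l, hl⟩ : ∃ l : ℝ, l = Real.log H := ⟨_, rfl⟩
  have hel : Real.exp l = H := by rw [hl, Real.exp_log hH0]
  have hll : l0 ≤ l := by
    rw [hl, Real.le_log_iff_exp_le hH0]
    exact hHe
  obtain ⟨h2, h1, hlx, hKl, hLs, hN, hl6⟩ := hl0 l hll
  have hlp : 0 < l := by linarith
  obtain ⟨x, hx⟩ : ∃ x : ℝ, x = l ^ B := ⟨_, rfl⟩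
  rw [← hx] at h1 hlx hKl hLs hl6
  have hx0 : 0 < x := by rw [hx]; positivity
  have hlogx : Real.log x = B * Real.log l := by rw [hx, Real.log_rpow hlp]
  have hlx0 : 0 < Real.log x := by linarith
  obtain ⟨k, hk⟩ : ∃ k : ℕ, k = ⌊l / (3 * Real.log x)⌋₊ := ⟨_, rfl⟩
  have hkle : (k : ℝ) ≤ l / (3 * Real.log x) := by
    rw [hk]
    exact Nat.floor_le (by positivity)
  have hklt : l / (3 * Real.log x) < k + 1 := by
    rw [hk]
    exact Nat.lt_floor_add_one _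
  have h3k : 3 * k * Real.log x ≤ l := by
    rw [le_div_iff₀ (by positivity)] at hkle
    linarith
  have hk6 : l / 6 ≤ k * Real.log x := by
    rw [div_lt_iff₀ (by positivity)] at hklt
    linarith
  have hkpos : 0 < (k : ℝ) := by
    by_contra hne
    push Not at hne
    have : (k : ℝ) * Real.log x ≤ 0 := mul_nonpos_of_nonpos_of_nonneg hne hlx0.le
    linarith
  have hk1 : 1 ≤ k := by exact_mod_cast hkpos
  have hkl : (k : ℝ) ≤ l / 3 := by
    have : (k : ℝ) * 1 ≤ k * Real.log x := mul_le_mul_of_nonneg_left hlx hkpos.le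
    linarith
  obtain ⟨y, hy⟩ : ∃ y : ℕ, y = ⌊x ^ (1 / A)⌋₊ := ⟨_, rfl⟩
  obtain ⟨j, hj⟩ : ∃ j : ℕ, j = Nat.log 2 ⌊x + 1⌋₊ := ⟨_, rfl⟩
  refine ⟨x, k, (primorial y) ^ j, h1, ?_, ?_, ?_, ?_, ?_⟩
  · -- the product of `3 k` factors
    have g1 : ((⌊x⌋₊ : ℝ)) ^ (3 * k) ≤ H := by
      calc ((⌊x⌋₊ : ℝ)) ^ (3 * k) ≤ x ^ (3 * k) :=
            pow_le_pow_left₀ (Nat.cast_nonneg _) (Nat.floor_le hx0.le) _
        _ = Real.exp (3 * k * Real.log x) := by
            rw [← Real.exp_log hx0, ← Real.exp_nat_mul, Real.exp_log hx0]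
            push_cast
            rfl
        _ ≤ Real.exp l := Real.exp_le_exp.2 h3k
        _ = H := hel
    exact_mod_cast g1
  · rw [le_div_iff₀ hK0]
    nlinarith
  · exact Nat.one_le_iff_ne_zero.2 (pow_ne_zero _ (primorial_pos y).ne')
  · intro n hn1 hnx hq
    rw [hj]
    refine dvd_prim n ⌊x + 1⌋₊ y hn1 (Nat.le_floor hnx) fun q hqp hqn => ?_
    rw [hy]
    refine Nat.le_floor ?_
    have g1 := hq q hqp hqn
    have g2 : (0 : ℝ) ≤ q := Nat.cast_nonneg _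
    calc (q : ℝ) = ((q : ℝ) ^ A) ^ (1 / A) := by
          rw [← Real.rpow_mul g2, mul_one_div_cancel hA0.ne', Real.rpow_one]
      _ ≤ x ^ (1 / A) := Real.rpow_le_rpow (by positivity) g1 (by positivity)
  · intro n hn
    -- the size of `L`
    have hL : (((primorial y) ^ j : ℕ) : ℝ) ^ s ≤ (H : ℝ) ^ δ := by
      have hprim : ((primorial y : ℕ) : ℝ) ≤ (4 : ℝ) ^ y := by
        exact_mod_cast primorial_le_four_pow y
      have hj2 : (j : ℝ) ≤ 2 * Real.log (x + 1) := by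
        have g1 : ((2 : ℕ) : ℝ) ^ j ≤ x + 1 := by
          have g2 : 2 ^ j ≤ ⌊x + 1⌋₊ := by
            rw [hj]
            refine Nat.pow_log_le_self 2 (Nat.pos_iff_ne_zero.1 (Nat.floor_pos.2 (by linarith)))
          calc ((2 : ℕ) : ℝ) ^ j = ((2 ^ j : ℕ) : ℝ) := by push_cast; rfl
            _ ≤ (⌊x + 1⌋₊ : ℝ) := by exact_mod_cast g2
            _ ≤ x + 1 := Nat.floor_le (by linarith)
        have g3 := Real.log_le_log (by positivity) g1
        rw [Real.log_pow] at g3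
        have g4 : (0.5 : ℝ) ≤ Real.log 2 := by
          have := Real.log_two_gt_d9
          linarith
        push_cast at g3
        have g5 : (j : ℝ) * 0.5 ≤ j * Real.log 2 := mul_le_mul_of_nonneg_left g4 (Nat.cast_nonneg _)
        linarith
      have hyx : (y : ℝ) ≤ l ^ (B / A) := by
        have g1 : (y : ℝ) ≤ x ^ (1 / A) := by
          rw [hy]
          exact Nat.floor_le (by positivity)
        refine g1.trans (le_of_eq ?_)
        rw [hx, ← Real.rpow_mul hlp.le]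
        congr 1
        ring
      have hlogp : Real.log (((primorial y : ℕ) : ℝ)) ≤ y * Real.log 4 := by
        have g1 := Real.log_le_log (by exact_mod_cast primorial_pos y) hprim
        rwa [Real.log_pow] at g1
      have hp0 : (0 : ℝ) < ((primorial y : ℕ) : ℝ) := by exact_mod_cast primorial_pos y
      have hc4 : 0 < Real.log 4 := Real.log_pos (by norm_num)
      have e1 : (((primorial y) ^ j : ℕ) : ℝ) ^ s
          = Real.exp (s * (j * Real.log ((primorial y : ℕ) : ℝ))) := by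
        rw [Real.exp_nat_mul, Real.exp_nat_mul, Real.exp_log hp0]
        push_cast
        rfl
      have e2 : (H : ℝ) ^ δ = Real.exp (δ * l) := by
        rw [Real.rpow_def_of_pos hH0, ← hl, mul_comm]
      rw [e1, e2]
      refine Real.exp_le_exp.2 (le_trans ?_ hLs)
      have hlog1 : 0 ≤ Real.log (x + 1) := Real.log_nonneg (by linarith)
      have e3 : (j : ℝ) * Real.log ((primorial y : ℕ) : ℝ)
          ≤ (2 * Real.log (x + 1)) * (l ^ (B / A) * Real.log 4) := by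
        calc (j : ℝ) * Real.log ((primorial y : ℕ) : ℝ) ≤ j * (y * Real.log 4) := by gcongr
          _ ≤ (2 * Real.log (x + 1)) * (l ^ (B / A) * Real.log 4) := by gcongr
      exact mul_le_mul_of_nonneg_left e3 (Nat.cast_nonneg _)
    -- the binomial coefficient
    obtain ⟨N, hNd⟩ : ∃ N : ℕ, N = (n + 1) / 2 := ⟨_, rfl⟩
    have hNn : (n : ℝ) / 2 ≤ N := by
      have g1 : n ≤ 2 * N := by omega
      have g2 : (n : ℝ) ≤ 2 * N := by exact_mod_cast g1
      linarith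
    have hNx : x / (2 * K * Real.log x) ≤ N := by
      refine le_trans (le_of_eq ?_) ((div_le_div_of_nonneg_right hn (by norm_num : (0:ℝ) ≤ 2)).trans hNn)
      field_simp
    have hratio : l ^ ((B - 1) / 2) ≤ (N : ℝ) / k := by
      rw [le_div_iff₀ hkpos]
      have g1 : l ^ ((B - 1) / 2) * k ≤ l ^ ((B - 1) / 2) * (l / (3 * Real.log x)) := by gcongr
      have g2 : x = l ^ ((B - 1) / 2) * l ^ ((B - 1) / 2) * l := by
        rw [hx, ← Real.rpow_add hlp, ← Real.rpow_add_one hlp.ne']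
        congr 1
        ring
      have hP : 0 < l ^ ((B - 1) / 2) := Real.rpow_pos_of_pos hlp _
      refine g1.trans (le_trans ?_ hNx)
      set P : ℝ := l ^ ((B - 1) / 2) with hPd
      have g3 : P * (l / (3 * Real.log x)) = (P * l / Real.log x) * (1 / 3) := by
        field_simp
      have g4 : x / (2 * K * Real.log x) = (P * l / Real.log x) * (P / (2 * K)) := by
        rw [g2]
        field_simp
      have g5 : 1 / 3 ≤ P / (2 * K) := by
        rw [div_le_div_iff₀ (by norm_num) (by positivity)]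
        rw [div_mul_eq_mul_div, le_div_iff₀ (by positivity)] at hN
        linarith
      rw [g3, g4]
      exact mul_le_mul_of_nonneg_left g5 (by positivity)
    have hkN : k ≤ N := by
      have g1 : 1 ≤ (N : ℝ) / k :=
        (Real.one_le_rpow (by linarith) (by linarith : 0 ≤ (B - 1) / 2)).trans hratio
      rw [le_div_iff₀ hkpos, one_mul] at g1
      exact_mod_cast g1
    have hchoose := choose_lower N k hk1 hkN
    have hexp : (H : ℝ) ^ (2 * δ) ≤ ((N : ℝ) / k) ^ k := by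
      calc (H : ℝ) ^ (2 * δ) = Real.exp (2 * δ * l) := by
            rw [Real.rpow_def_of_pos hH0, ← hl, mul_comm]
        _ ≤ Real.exp (k * ((B - 1) / 2 * Real.log l)) := by
            refine Real.exp_le_exp.2 ?_
            have g1 : (k : ℝ) * ((B - 1) / 2 * Real.log l) = (1 - 1 / B) / 2 * (k * Real.log x) := by
              rw [hlogx]
              field_simp
            rw [g1]
            calc 2 * δ * l = (1 - 1 / B) / 2 * (l / 6) := by rw [hδ]; ring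
              _ ≤ (1 - 1 / B) / 2 * (k * Real.log x) := mul_le_mul_of_nonneg_left hk6 (by positivity)
        _ = (l ^ ((B - 1) / 2)) ^ k := by
            rw [Real.exp_nat_mul, Real.rpow_def_of_pos hlp, mul_comm (Real.log l)]
        _ ≤ ((N : ℝ) / k) ^ k := pow_le_pow_left₀ (by positivity) hratio _
    rw [← hNd]
    calc (((primorial y) ^ j : ℕ) : ℝ) ^ s * (H : ℝ) ^ δ ≤ (H : ℝ) ^ δ * (H : ℝ) ^ δ := by gcongr
      _ = (H : ℝ) ^ (2 * δ) := by
          rw [← Real.rpow_add hH0]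
          congr 1
          ring
      _ ≤ ((N : ℝ) / k) ^ k := hexp
      _ ≤ (N.choose k : ℝ) := hchoose

end MWS
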