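import Pool.Agent.Lib.MP_10e784_agW.RC
import Pool.Agent.Lib.MP_10e784_agW.RD
import Pool.Agent.Lib.MP_10e784_agW.LA
import Pool.Agent.Lib.MP_10e784_agW.SD
import Pool.Agent.Lib.MP_10e784_agW.MB
import Pool.Agent.Lib.MP_10e784_agW.GA
import Pool.Agent.Lib.MP_10e784_agW.FA

/-!
# LEAF FB: assembly

PROOF.  `A` from `smooth`, `δ` from `params A` (absolute).  Given `α, β, D, M`: `K, x0` from `smooth`, `s` from `classes (Pt ℚ α β)` (`mw`), `x0' = max x0 (K (2 + M + |dsc|))`, `H0` from `params` with `K`, `x0'`, `s`.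
Let `H ≥ max H0 1`, `x, k, L` from `params`, `S = SS D A K x`.  For `p ∈ S`: `p > x / K ≥ 2 + M + |dsc|`, so `p ≠ 2`, `p ∤ M`, `p ∤ dsc`; `na α β p = p` (`SSq`); `p + 1 ∣ L` (`params`; `p ≤ x`); so `L • P = 0` on `Pt (ZMod p)` (`kill`), `rd_class` applies; `2 k ≤ x / K < p`; `p ≤ ⌊x⌋₊`.
If `c` has a point `P` (`Ov c P`): `P = r i + L • Q`, `lc c p (rd p P)` (`loc`) and `rd p P = rd p (r i)` for all `p ∈ S`.  So the set of the `c` in the box with a point is contained in the union over `i : Fin (L ^ s)` of `{c | Bx H c ∧ ∀ p ∈ S, lc c p (rd p (r i))}`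
and by `class_count` (`X = ⌊x⌋₊`) and the last property of `params` (`n = S.card`): `card * L ^ s * H ^ δ ≤ L ^ s * card * choose ≤ ..`, precisely `card ≤ ∑_i card_i`, `card_i * choose ≤ 200 H (2 H + 1) ^ (2 d - 1)`, so `card * H ^ δ * L ^ s ≤ card * choose ≤ L ^ s * 200 H (2 H + 1) ^ (2 d - 1)`;
`L ^ s ≥ 1` cancels: `card ≤ 200 H (3 H) ^ (2 d - 1) H ^ (-δ) ≤ 200 * 3 ^ (2 d) * H ^ (2 d - δ)`.  For `1 ≤ H < H0`: `card ≤ (2 H + 1) ^ (2 d) ≤ 3 ^ (2 d) H ^ (2 d) ≤ 3 ^ (2 d) H0 ^ δ H ^ (2 d - δ)` (`box_card`).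
`main`: `hasPt_iff`.
-/

namespace MWS

open Finset

private theorem FB_card {d H : ℕ} (B : Finset (Cf d)) (hB : ∀ c, c ∈ B ↔ Bx H c) (Q : Cf d → Prop)
    [DecidablePred Q] : Nat.card {c : Cf d // Bx H c ∧ Q c} = (B.filter Q).card := by
  refine Nat.subtype_card _ fun c => ?_
  rw [mem_filter, hB]

/-- the union bound over the classes -/
private theorem FB_union {d H N : ℕ} (Q : Cf d → Prop) (R : Fin N → Cf d → Prop)
    (h : ∀ c, Bx H c → Q c → ∃ i, R i c) (b T : ℝ) (hb : 0 ≤ b)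
    (hR : ∀ i, (Nat.card {c : Cf d // Bx H c ∧ R i c} : ℝ) * b ≤ T) :
    (Nat.card {c : Cf d // Bx H c ∧ Q c} : ℝ) * b ≤ N * T := by
  classical
  obtain ⟨B, hB⟩ : ∃ B : Finset (Cf d), ∀ c, c ∈ B ↔ Bx H c := by
    have hfin : {c : Cf d | Bx H c}.Finite := @Set.toFinite _ _ (box_finite d H)
    exact ⟨hfin.toFinset, fun c => by simp⟩
  have h1 : (B.filter Q).card ≤ ∑ i : Fin N, (B.filter (R i)).card := by
    refine (card_le_card (t := univ.biUnion fun i : Fin N => B.filter (R i)) ?_).trans card_biUnion_le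
    intro c hc
    rw [mem_filter] at hc
    obtain ⟨i, hi⟩ := h c ((hB c).1 hc.1) hc.2
    exact mem_biUnion.2 ⟨i, mem_univ _, mem_filter.2 ⟨hc.1, hi⟩⟩
  rw [FB_card B hB]
  calc ((B.filter Q).card : ℝ) * b ≤ ((∑ i : Fin N, (B.filter (R i)).card : ℕ) : ℝ) * b :=
        mul_le_mul_of_nonneg_right (by exact_mod_cast h1) hb
    _ = ∑ i : Fin N, ((B.filter (R i)).card : ℝ) * b := by push_cast; rw [sum_mul]
    _ ≤ ∑ _i : Fin N, T := by
        refine sum_le_sum fun i _ => ?_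
        have h2 := hR i
        rwa [FB_card B hB] at h2
    _ = N * T := by simp

theorem main : ∃ δ : ℝ, 0 < δ ∧ ∀ α β : ℤ, dsc α β ≠ 0 → (∃ (D : ℤ) (M : ℕ), SSq α β D M) → ∀ d : ℕ, 1 ≤ d →
    ∃ C : ℝ, ∀ H : ℕ, 1 ≤ H →
      (Nat.card {c : Cf d // Bx H c ∧ ∃ P : Pt ℚ α β, Ov c P} : ℝ) ≤ C * (H : ℝ) ^ ((2 * d : ℝ) - δ) := by
  classical
  obtain ⟨A, hA1, hA2, hsm⟩ := smooth
  obtain ⟨δ, hδ, hpar⟩ := params A hA1 hA2
  refine ⟨δ, hδ, fun α β hdsc hSSq d hd => ?_⟩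
  obtain ⟨D, M, hD, hM, hSq⟩ := hSSq
  obtain ⟨K, hK, x0, hx0, hS⟩ := hsm D hD
  have hmw := mw hdsc
  obtain ⟨s, hcl⟩ := classes (Pt ℚ α β)
  obtain ⟨H0, hH0⟩ := hpar K (max x0 (K * (2 + M + |((dsc α β : ℤ) : ℝ)|))) s hK
  refine ⟨200 * 3 ^ (2 * d) * ((H0 : ℝ) + 1) ^ δ, fun H hH => ?_⟩
  have hHr : (1 : ℝ) ≤ H := by exact_mod_cast hH
  have hHpos : (0 : ℝ) < H := by linarith
  have hH0r : (0 : ℝ) ≤ H0 := Nat.cast_nonneg _
  have hsplit : (H : ℝ) ^ (2 * d) = (H : ℝ) ^ ((2 * d : ℝ) - δ) * (H : ℝ) ^ δ := by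
    rw [← Real.rpow_add hHpos, sub_add_cancel]
    have e : ((2 * d : ℕ) : ℝ) = (2 * d : ℝ) := by push_cast; ring
    rw [← e, Real.rpow_natCast]
  have hpos1 : (0 : ℝ) < (H : ℝ) ^ ((2 * d : ℝ) - δ) := Real.rpow_pos_of_pos hHpos _
  have hpos2 : (0 : ℝ) < (H : ℝ) ^ δ := Real.rpow_pos_of_pos hHpos _
  have h3H : 2 * (H : ℝ) + 1 ≤ 3 * H := by linarith
  have h3H0 : (0 : ℝ) ≤ 2 * (H : ℝ) + 1 := by linarith
  have hone : (1 : ℝ) ≤ ((H0 : ℝ) + 1) ^ δ := Real.one_le_rpow (by linarith) hδ.le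
  rcases lt_or_ge H H0 with hlt | hge
  · -- small `H`
    have h1 : (Nat.card {c : Cf d // Bx H c ∧ ∃ P : Pt ℚ α β, Ov c P} : ℝ) ≤
        (Nat.card {c : Cf d // Bx H c} : ℝ) := by
      have hfb : Finite {c : Cf d // Bx H c} := box_finite d H
      have h2 : Nat.card {c : Cf d // Bx H c ∧ ∃ P : Pt ℚ α β, Ov c P} ≤
          Nat.card {c : Cf d // Bx H c} :=
        Nat.card_le_card_of_injective (fun c => ⟨c.1, c.2.1⟩) fun a b hab => by
          have h3 := congrArg Subtype.val hab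
          exact Subtype.ext h3
      exact_mod_cast h2
    have hlt' : (H : ℝ) ≤ (H0 : ℝ) + 1 := by
      have : (H : ℝ) < H0 := by exact_mod_cast hlt
      linarith
    calc (Nat.card {c : Cf d // Bx H c ∧ ∃ P : Pt ℚ α β, Ov c P} : ℝ)
        ≤ (2 * (H : ℝ) + 1) ^ (2 * d) := h1.trans (box_card hd H)
      _ ≤ (3 * (H : ℝ)) ^ (2 * d) := pow_le_pow_left₀ h3H0 h3H _
      _ = 3 ^ (2 * d) * ((H : ℝ) ^ δ * (H : ℝ) ^ ((2 * d : ℝ) - δ)) := by
          rw [mul_pow, hsplit]; ring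
      _ ≤ 200 * 3 ^ (2 * d) * (((H0 : ℝ) + 1) ^ δ * (H : ℝ) ^ ((2 * d : ℝ) - δ)) := by
          refine mul_le_mul ?_ ?_ (by positivity) (by positivity)
          · have : (0 : ℝ) < 3 ^ (2 * d) := by positivity
            linarith
          · exact mul_le_mul_of_nonneg_right (Real.rpow_le_rpow hHpos.le hlt' hδ.le) hpos1.le
      _ = 200 * 3 ^ (2 * d) * ((H0 : ℝ) + 1) ^ δ * (H : ℝ) ^ ((2 * d : ℝ) - δ) := by ring
  · -- large `H`
    obtain ⟨x, k, L, hx, hXk, hk, hL, hdvd, hch⟩ := hH0 H hge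
    have hx0' : x0 ≤ x := (le_max_left _ _).trans hx
    have hx2 : (2 : ℝ) ≤ x := hx0.trans hx0'
    have hxK : K * (2 + M + |((dsc α β : ℤ) : ℝ)|) ≤ x := (le_max_right _ _).trans hx
    have hKpos : (0 : ℝ) < K := by linarith
    have hxK' : 2 + (M : ℝ) + |((dsc α β : ℤ) : ℝ)| ≤ x / K := by
      rw [le_div_iff₀ hKpos]
      linarith
    obtain ⟨r, hr⟩ := hcl L hL
    have hlogx : 0 < Real.log x := Real.log_pos (by linarith)
    have hmem : ∀ p ∈ SS D A K x, p.Prime ∧ x / K < (p : ℝ) ∧ p ≤ ⌊x⌋₊ ∧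
        ¬ IsSquare ((D : ℤ) : ZMod p) ∧ ∀ q : ℕ, q.Prime → q ∣ p + 1 → (q : ℝ) ^ A ≤ x := by
      intro p hp
      rw [SS, mem_filter, mem_Ioc] at hp
      exact ⟨hp.2.1, Nat.lt_of_floor_lt hp.1.1, hp.1.2, hp.2.2.1, hp.2.2.2⟩
    have hgood : ∀ p ∈ SS D A K x, p ≠ 2 ∧ ¬ p ∣ M ∧ ¬ (p : ℤ) ∣ dsc α β ∧ 2 * k ≤ p := by
      intro p hp
      obtain ⟨h1, h2, h3, h4, h5⟩ := hmem p hp
      have hM0 : (0 : ℝ) ≤ M := Nat.cast_nonneg _
      have habs : (0 : ℝ) ≤ |((dsc α β : ℤ) : ℝ)| := abs_nonneg _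
      refine ⟨?_, ?_, ?_, ?_⟩
      · rintro rfl
        norm_num at h2
        linarith
      · intro hpM
        have h6 : p ≤ M := Nat.le_of_dvd (Nat.pos_of_ne_zero hM) hpM
        have h7 : (p : ℝ) ≤ M := by exact_mod_cast h6
        linarith
      · intro hpd
        have h6 : (p : ℤ) ≤ |dsc α β| :=
          Int.le_of_dvd (abs_pos.2 hdsc) ((dvd_abs _ _).2 hpd)
        have h7 : (p : ℝ) ≤ |((dsc α β : ℤ) : ℝ)| := by exact_mod_cast h6
        linarith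
      · have h6 : (2 : ℝ) * k ≤ p := by linarith
        exact_mod_cast h6
    have hclass : ∀ p ∈ SS D A K x, ∀ P Q : Pt ℚ α β, rd p (P + L • Q) = rd p P := by
      intro p hp P Q
      obtain ⟨h1, h2, h3, h4, h5⟩ := hmem p hp
      obtain ⟨g1, g2, g3, g4⟩ := hgood p hp
      have hfact : Fact p.Prime := ⟨h1⟩
      refine rd_class g1 g3 L ?_ P Q
      intro P'
      have h6 : p + 1 ∣ L := by
        refine hdvd (p + 1) (by omega) ?_ h5
        have h7 : (p : ℝ) ≤ x := (Nat.cast_le.2 h3).trans (Nat.floor_le (by linarith))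
        push_cast
        linarith
      obtain ⟨e, he⟩ := h6
      rw [he, mul_comm, mul_smul, kill g1 g3 (hSq p h1 g2 h4) P', smul_zero]
    have hunion := FB_union (H := H) (N := L ^ s) (fun c : Cf d => ∃ P : Pt ℚ α β, Ov c P)
      (fun i c => ∀ p ∈ SS D A K x, lc c p (rd p (r i)))
      (by
        rintro c - ⟨P, hP⟩
        obtain ⟨i, Q, hi⟩ := hr P
        refine ⟨i, fun p hp => ?_⟩
        have h1 := loc (hmem p hp).1 hd c P hP
        rwa [hi, hclass p hp] at h1)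
      (((((SS D A K x).card + 1) / 2).choose k : ℕ) : ℝ)
      (200 * H * (2 * (H : ℝ) + 1) ^ (2 * d - 1)) (Nat.cast_nonneg _)
      (fun i => class_count hd (SS D A K x) ⌊x⌋₊ k H (fun p => rd p (r i))
        (fun p hp => ⟨(hmem p hp).1, (hgood p hp).1, (hmem p hp).2.2.1, (hgood p hp).2.2.2⟩) hXk hH)
    have hch' := hch (SS D A K x).card (hS x hx0')
    have hLpos : (0 : ℝ) < (L : ℝ) ^ s := by
      have : (0 : ℝ) < L := by exact_mod_cast hL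
      positivity
    have hcard0 : (0 : ℝ) ≤ (Nat.card {c : Cf d // Bx H c ∧ ∃ P : Pt ℚ α β, Ov c P} : ℝ) :=
      Nat.cast_nonneg _
    have hfin : (Nat.card {c : Cf d // Bx H c ∧ ∃ P : Pt ℚ α β, Ov c P} : ℝ) * (H : ℝ) ^ δ ≤
        200 * H * (2 * (H : ℝ) + 1) ^ (2 * d - 1) := by
      have h1 : (L : ℝ) ^ s * ((Nat.card {c : Cf d // Bx H c ∧ ∃ P : Pt ℚ α β, Ov c P} : ℝ) *
          (H : ℝ) ^ δ) ≤ (L : ℝ) ^ s * (200 * H * (2 * (H : ℝ) + 1) ^ (2 * d - 1)) := by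
        calc (L : ℝ) ^ s * ((Nat.card {c : Cf d // Bx H c ∧ ∃ P : Pt ℚ α β, Ov c P} : ℝ) *
              (H : ℝ) ^ δ)
            = (Nat.card {c : Cf d // Bx H c ∧ ∃ P : Pt ℚ α β, Ov c P} : ℝ) *
              ((L : ℝ) ^ s * (H : ℝ) ^ δ) := by ring
          _ ≤ (Nat.card {c : Cf d // Bx H c ∧ ∃ P : Pt ℚ α β, Ov c P} : ℝ) *
              (((((SS D A K x).card + 1) / 2).choose k : ℕ) : ℝ) :=
              mul_le_mul_of_nonneg_left hch' hcard0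
          _ ≤ ((L ^ s : ℕ) : ℝ) * (200 * H * (2 * (H : ℝ) + 1) ^ (2 * d - 1)) := hunion
          _ = (L : ℝ) ^ s * (200 * H * (2 * (H : ℝ) + 1) ^ (2 * d - 1)) := by push_cast; ring
      exact le_of_mul_le_mul_left h1 hLpos
    have h200 : 200 * (H : ℝ) * (2 * (H : ℝ) + 1) ^ (2 * d - 1) ≤ 200 * 3 ^ (2 * d) * (H : ℝ) ^ (2 * d) := by
      obtain ⟨e, he⟩ : ∃ e, 2 * d = e + 1 := ⟨2 * d - 1, by omega⟩
      rw [he, Nat.add_sub_cancel]
      calc 200 * (H : ℝ) * (2 * (H : ℝ) + 1) ^ e ≤ 200 * (H : ℝ) * (3 * (H : ℝ)) ^ e :=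
            mul_le_mul_of_nonneg_left (pow_le_pow_left₀ h3H0 h3H _) (by positivity)
        _ = 200 * 3 ^ e * (H : ℝ) ^ (e + 1) := by rw [mul_pow, pow_succ]; ring
        _ ≤ 200 * 3 ^ (e + 1) * (H : ℝ) ^ (e + 1) := by
            refine mul_le_mul_of_nonneg_right ?_ (by positivity)
            have h5 : (3 : ℝ) ^ e ≤ 3 ^ (e + 1) := pow_le_pow_right₀ (by norm_num) (by omega)
            linarith
    have h2 : (Nat.card {c : Cf d // Bx H c ∧ ∃ P : Pt ℚ α β, Ov c P} : ℝ) * (H : ℝ) ^ δ ≤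
        200 * 3 ^ (2 * d) * (H : ℝ) ^ ((2 * d : ℝ) - δ) * (H : ℝ) ^ δ := by
      refine (hfin.trans h200).trans_eq ?_
      rw [hsplit]; ring
    have h3 := le_of_mul_le_mul_right h2 hpos2
    refine h3.trans ?_
    calc 200 * 3 ^ (2 * d) * (H : ℝ) ^ ((2 * d : ℝ) - δ)
        = 200 * 3 ^ (2 * d) * 1 * (H : ℝ) ^ ((2 * d : ℝ) - δ) := by ring
      _ ≤ 200 * 3 ^ (2 * d) * ((H0 : ℝ) + 1) ^ δ * (H : ℝ) ^ ((2 * d : ℝ) - δ) := by
          refine mul_le_mul_of_nonneg_right ?_ hpos1.le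
          exact mul_le_mul_of_nonneg_left hone (by positivity)

end MWS
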