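import Pool.Agent.Lib.MP_10e784_agW.Defs

/-!
# LEAF RA: collinear points over a field

PROOF of `lin_of_sum`.  `P + Q = -R` with `R` affine, so `P + Q ≠ 0`: not (`x₁ = x₂` and `y₁ = -y₂`).  By `Affine.Point.add_some` (or `add_of_X_ne`, `add_self_of_Y_ne`) `-R = (addX, addY)` with
`l = slope x₁ x₂ y₁ y₂`; put `n = y₁ - l x₁`.  `addX = l² - x₁ - x₂` (all `a₁ = a₂ = a₃ = 0`), so `e1`; `addY` gives `y₃ = l x₃ + n` (`y₃ = negAddY`), `y2`: if `x₁ ≠ x₂` `l = (y₁ - y₂)/(x₁ - x₂)`; if `x₁ = x₂` then `y₁ = y₂` (`Y_eq_of_Y_ne`).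
`e2`, `e3`: case `x₁ ≠ x₂`: the polynomial `f(X) = X³ + α X + β - (l X + n)²` is monic and vanishes at `x₁`, `x₂`, sum of the roots `l²`: the difference `f - (X - x₁)(X - x₂)(X - x₃)` has degree at most one (by `e1`) and two different zeros (subtract the two equations and divide by
`x₁ - x₂`: `linear_combination` / `mul_left_cancel₀`).  Case `x₁ = x₂`, `y₁ = y₂`, `2 y₁ ≠ 0`: `l = (3 x₁² + α)/(2 y₁)`, so `f(x₁) = 0` and `f'(x₁) = 3 x₁² + α - 2 l y₁ = 0`: same.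

PROOF of `sum_of_lin`.  Show `P + Q = -R`.  If `x₁ ≠ x₂`: slope `= (y₁ - y₂)/(x₁ - x₂) = l`, `addX = l² - x₁ - x₂ = x₃` (`e1`), `addY = -(l (x₃ - x₁) + y₁) = -y₃`.  If `x₁ = x₂`: then `y₁ = y₂` (`y1`, `y2`).
`3 x₁² + α = 2 l y₁` follows from `e1, e2` (`α - 2 l n = x₁² + 2 x₁ x₃`, `x₃ = l² - 2 x₁`).  If `2 y₁ ≠ 0` the slope is `l`, and as before.  If `y₁ = 0` then `3 x₁² + α = 0` and `x₁³ + α x₁ + β = 0` (the equation), so `4 α³ + 27 β² = 0` in `F`: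
`α = -3 x₁²`, `β = 2 x₁³`: contradiction to `hd`.
-/

namespace MWS

variable {F : Type*} [Field F] [DecidableEq F]

theorem EW_eqn (α β : ℤ) (x y : F) :
    (EW F α β).toAffine.Equation x y ↔ y ^ 2 = x ^ 3 + (α : F) * x + (β : F) := by
  rw [WeierstrassCurve.Affine.equation_iff]
  simp [EW]

theorem EW_nons (α β : ℤ) (h2 : (2 : F) ≠ 0) (hd : ((dsc α β : ℤ) : F) ≠ 0) (x y : F) :
    (EW F α β).toAffine.Nonsingular x y ↔ y ^ 2 = x ^ 3 + (α : F) * x + (β : F) := by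
  rw [WeierstrassCurve.Affine.nonsingular_iff', EW_eqn]
  refine ⟨fun h => h.1, fun h => ⟨h, ?_⟩⟩
  by_contra hcon
  rw [not_or, not_not, not_not] at hcon
  obtain ⟨h3, h4⟩ := hcon
  have h3' : 3 * x ^ 2 + (α : F) = 0 := by
    have h5 : (0 : F) * y - (3 * x ^ 2 + 2 * 0 * x + (α : F)) = 0 := h3
    linear_combination -h5
  have h4' : y = 0 := by
    have h5 : 2 * y + (0 : F) * x + 0 = 0 := h4
    have h6 : 2 * y = 0 := by linear_combination h5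
    exact (mul_eq_zero.1 h6).resolve_left h2
  refine hd ?_
  rw [h4'] at h
  unfold dsc
  push_cast
  have ha : (α : F) = -3 * x ^ 2 := by linear_combination h3'
  have hb : (β : F) = 2 * x ^ 3 := by
    rw [ha] at h
    linear_combination -h
  rw [ha, hb]
  ring

private theorem RA_slope (α β : ℤ) {x₁ y₁ x₂ y₂ : F}
    (h₁ : (EW F α β).toAffine.Equation x₁ y₁) (h₂ : (EW F α β).toAffine.Equation x₂ y₂)
    (hxy : ¬(x₁ = x₂ ∧ y₁ = (EW F α β).toAffine.negY x₂ y₂)) :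
    y₂ = (EW F α β).toAffine.slope x₁ x₂ y₁ y₂ * (x₂ - x₁) + y₁ := by
  by_cases hx : x₁ = x₂
  · have hy : y₁ ≠ (EW F α β).toAffine.negY x₂ y₂ := fun h => hxy ⟨hx, h⟩
    have h3 := WeierstrassCurve.Affine.Y_eq_of_Y_ne h₁ h₂ hx hy
    rw [hx, sub_self, mul_zero, zero_add, h3]
  · rw [WeierstrassCurve.Affine.slope_of_X_ne hx]
    have h3 : x₁ - x₂ ≠ 0 := sub_ne_zero.2 hx
    field_simp
    ring

private theorem RA_coeffs (α β : ℤ) {x₁ y₁ x₂ y₂ : F}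
    (h₁ : (EW F α β).toAffine.Equation x₁ y₁) (h₂ : (EW F α β).toAffine.Equation x₂ y₂)
    (hxy : ¬(x₁ = x₂ ∧ y₁ = (EW F α β).toAffine.negY x₂ y₂)) (l x₃ : F)
    (hl : (EW F α β).toAffine.slope x₁ x₂ y₁ y₂ = l)
    (h3 : (EW F α β).toAffine.addX x₁ x₂ l = x₃) :
    2 * x₁ * l ^ 2 - 2 * y₁ * l + (α : F) = x₁ * x₂ + x₁ * x₃ + x₂ * x₃ ∧
      -x₁ ^ 2 * l ^ 2 + 2 * x₁ * y₁ * l - (y₁ ^ 2 - (β : F)) = -(x₁ * x₂ * x₃) := by
  have h := WeierstrassCurve.Affine.addPolynomial_slope h₁ h₂ hxy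
  rw [hl, h3, WeierstrassCurve.Affine.addPolynomial_eq, neg_inj, Cubic.prod_X_sub_C_eq,
    Cubic.toPoly_injective] at h
  have hc : 2 * x₁ * l ^ 2 + ((0 : F) * x₁ - 2 * y₁ - 0) * l + (-(0 : F) * y₁ + (α : F)) =
      x₁ * x₂ + x₁ * x₃ + x₂ * x₃ := congrArg Cubic.c h
  have hd : -x₁ ^ 2 * l ^ 2 + (2 * x₁ * y₁ + (0 : F) * x₁) * l - (y₁ ^ 2 + 0 * y₁ - (β : F)) =
      -(x₁ * x₂ * x₃) := congrArg Cubic.d h
  constructor
  · linear_combination hc
  · linear_combination hd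

theorem lin_of_sum (α β : ℤ) (h2 : (2 : F) ≠ 0) (x₁ y₁ x₂ y₂ x₃ y₃ : F)
    (h₁ : (EW F α β).toAffine.Nonsingular x₁ y₁) (h₂ : (EW F α β).toAffine.Nonsingular x₂ y₂)
    (h₃ : (EW F α β).toAffine.Nonsingular x₃ y₃)
    (h : (.some x₁ y₁ h₁ : Pt F α β) + .some x₂ y₂ h₂ + .some x₃ y₃ h₃ = 0) :
    ∃ l n : F, Lin α β l n x₁ y₁ x₂ y₂ x₃ y₃ := by
  have _ := h2
  have hxy : ¬(x₁ = x₂ ∧ y₁ = (EW F α β).toAffine.negY x₂ y₂) := by
    rintro ⟨hx, hy⟩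
    rw [WeierstrassCurve.Affine.Point.add_of_Y_eq hx hy, zero_add] at h
    exact WeierstrassCurve.Affine.Point.some_ne_zero h₃ h
  have h4 := eq_neg_of_add_eq_zero_left h
  rw [WeierstrassCurve.Affine.Point.add_some hxy, WeierstrassCurve.Affine.Point.neg_some,
    WeierstrassCurve.Affine.Point.some.injEq] at h4
  obtain ⟨hX, hY⟩ := h4
  obtain ⟨l, hl⟩ : ∃ l, (EW F α β).toAffine.slope x₁ x₂ y₁ y₂ = l := ⟨_, rfl⟩
  have hs := RA_slope α β h₁.1 h₂.1 hxy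
  rw [hl] at hX hY hs
  obtain ⟨hc, hd⟩ := RA_coeffs α β h₁.1 h₂.1 hxy l x₃ hl hX
  have hX' : l ^ 2 + (0 : F) * l - 0 - x₁ - x₂ = x₃ := hX
  have hY' : -(l * ((EW F α β).toAffine.addX x₁ x₂ l - x₁) + y₁) -
      (0 : F) * (EW F α β).toAffine.addX x₁ x₂ l - 0 = -y₃ - 0 * x₃ - 0 := hY
  rw [hX] at hY'
  refine ⟨l, y₁ - l * x₁, ?_, ?_, ?_, ?_, ?_, ?_⟩
  · ring
  · linear_combination hs
  · linear_combination hY'
  · linear_combination hX'
  · linear_combination hc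
  · linear_combination hd

theorem sum_of_lin (α β : ℤ) (h2 : (2 : F) ≠ 0) (hd : ((dsc α β : ℤ) : F) ≠ 0) (x₁ y₁ x₂ y₂ x₃ y₃ l n : F)
    (h₁ : (EW F α β).toAffine.Nonsingular x₁ y₁) (h₂ : (EW F α β).toAffine.Nonsingular x₂ y₂)
    (h₃ : (EW F α β).toAffine.Nonsingular x₃ y₃) (h : Lin α β l n x₁ y₁ x₂ y₂ x₃ y₃) :
    (.some x₁ y₁ h₁ : Pt F α β) + .some x₂ y₂ h₂ + .some x₃ y₃ h₃ = 0 := by
  have e₁ := (EW_eqn α β x₁ y₁).1 h₁.1
  have hn : ∀ x y : F, (EW F α β).toAffine.negY x y = -y := by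
    intro x y
    show -y - (0 : F) * x - 0 = -y
    ring
  -- the slope
  have key : ¬(x₁ = x₂ ∧ y₁ = (EW F α β).toAffine.negY x₂ y₂) ∧
      (EW F α β).toAffine.slope x₁ x₂ y₁ y₂ = l := by
    by_cases hx : x₁ = x₂
    · have hy : y₁ = y₂ := by rw [h.y1, h.y2, hx]
      subst hx
      subst hy
      have ht : 3 * x₁ ^ 2 + (α : F) = 2 * l * y₁ := by
        have := h.y1
        linear_combination h.e2 - 2 * x₁ * h.e1 + 2 * l * (-1) * this
      have hy0 : y₁ ≠ 0 := by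
        intro hy0
        refine hd ?_
        rw [hy0, mul_zero] at ht
        rw [hy0] at e₁
        unfold dsc
        push_cast
        have ha : (α : F) = -3 * x₁ ^ 2 := by linear_combination ht
        have hb : (β : F) = 2 * x₁ ^ 3 := by
          rw [ha] at e₁
          linear_combination -e₁
        rw [ha, hb]
        ring
      have hne : y₁ ≠ (EW F α β).toAffine.negY x₁ y₁ := by
        rw [hn]
        intro hc
        have h5 : 2 * y₁ = 0 := by linear_combination hc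
        exact hy0 ((mul_eq_zero.1 h5).resolve_left h2)
      refine ⟨fun hc => hne hc.2, ?_⟩
      rw [WeierstrassCurve.Affine.slope_of_Y_ne rfl hne, hn]
      have h6 : (3 * x₁ ^ 2 + 2 * (0 : F) * x₁ + (α : F) - 0 * y₁) / (y₁ - -y₁) = l := by
        have h7 : y₁ - -y₁ ≠ 0 := by
          intro hc
          have h5 : 2 * y₁ = 0 := by linear_combination hc
          exact hy0 ((mul_eq_zero.1 h5).resolve_left h2)
        rw [div_eq_iff h7]
        linear_combination ht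
      exact h6
    · refine ⟨fun hc => hx hc.1, ?_⟩
      rw [WeierstrassCurve.Affine.slope_of_X_ne hx, div_eq_iff (sub_ne_zero.2 hx), h.y1, h.y2]
      ring
  obtain ⟨hxy, hl⟩ := key
  rw [add_eq_zero_iff_eq_neg, WeierstrassCurve.Affine.Point.add_some hxy,
    WeierstrassCurve.Affine.Point.neg_some, WeierstrassCurve.Affine.Point.some.injEq, hl]
  have hX : (EW F α β).toAffine.addX x₁ x₂ l = x₃ := by
    show l ^ 2 + (0 : F) * l - 0 - x₁ - x₂ = x₃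
    linear_combination h.e1
  refine ⟨hX, ?_⟩
  rw [WeierstrassCurve.Affine.addY, WeierstrassCurve.Affine.negAddY, hX, hn, hn, h.y1, h.y3]
  ring

end MWS
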