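import Mathlib

/-!
# The Mordell-Weil sieve on average: double covers of the elliptic curve `y² = x³ + α x + β`.  Definitions
-/

namespace MWS

open Finset

/-- the Weierstrass curve `y² = x³ + α x + β` over `R` -/
def EW (R : Type*) [CommRing R] (α β : ℤ) : WeierstrassCurve R := ⟨0, 0, 0, (α : R), (β : R)⟩

/-- its points over a field -/
abbrev Pt (F : Type*) [Field F] (α β : ℤ) : Type _ := (EW F α β).toAffine.Point

/-- the discriminant up to a factor `- 16` -/
def dsc (α β : ℤ) : ℤ := 4 * α ^ 3 + 27 * β ^ 2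

/-- the number of affine points modulo `p` -/
noncomputable def na (α β : ℤ) (p : ℕ) : ℕ :=
  Nat.card {z : ZMod p × ZMod p // z.2 ^ 2 = z.1 ^ 3 + (α : ZMod p) * z.1 + (β : ZMod p)}

/-- `p + 1` points modulo `p` for all primes `p` not dividing `M` which are inert in the field of `√D` -/
def SSq (α β D : ℤ) (M : ℕ) : Prop :=
  ¬ IsSquare D ∧ M ≠ 0 ∧ ∀ p : ℕ, p.Prime → ¬ p ∣ M → ¬ IsSquare ((D : ℤ) : ZMod p) → na α β p = p

/-- the coefficients `(a, b)` -/
abbrev Cf (d : ℕ) : Type := (Fin (d + 1) → ℤ) × (Fin (d - 1) → ℤ)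

/-- the value of `a_0 + .. + a_d x^d + (b_0 + .. + b_(d-2) x^(d-2)) y` -/
def phi {F : Type*} [CommRing F] {d : ℕ} (c : Cf d) (x y : F) : F :=
  ∑ i, (c.1 i : F) * x ^ (i : ℕ) + (∑ i, (c.2 i : F) * x ^ (i : ℕ)) * y

/-- the box -/
def Bx (H : ℕ) {d : ℕ} (c : Cf d) : Prop := (∀ i, |c.1 i| ≤ (H : ℤ)) ∧ ∀ i, |c.2 i| ≤ (H : ℤ)

/-- the double cover `w² = phi c` has a rational point over the rational point `P` of the elliptic curve -/
def Ov {α β : ℤ} {d : ℕ} (c : Cf d) : Pt ℚ α β → Prop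
  | .zero => IsSquare (c.1 (Fin.last d))
  | .some x y _ => ∃ w : ℚ, w ^ 2 = phi c x y

/-- reduction modulo `p` of a rational number (junk if `p` divides the denominator) -/
def rc (p : ℕ) (x : ℚ) : ZMod p := (x.num : ZMod p) * ((x.den : ZMod p))⁻¹

/-- reduction modulo `p` of a rational point: `none` is the point at infinity -/
def rd {α β : ℤ} (p : ℕ) : Pt ℚ α β → Option (ZMod p × ZMod p)
  | .zero => none
  | .some x y _ => if p ∣ x.den then none else some (rc p x, rc p y)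

/-- the local condition at `p` for a point modulo `p` -/
def lc {d : ℕ} (c : Cf d) (p : ℕ) : Option (ZMod p × ZMod p) → Prop
  | none => IsSquare ((c.1 (Fin.last d) : ℤ) : ZMod p)
  | some z => IsSquare (phi c z.1 z.2)

open Classical in
/-- the primes `p` in `(x / K, x]` inert in the field of `√D` such that all prime factors of `p + 1` are at most
`x ^ (1 / A)` -/
noncomputable def SS (D : ℤ) (A K x : ℝ) : Finset ℕ :=
  (Ioc ⌊x / K⌋₊ ⌊x⌋₊).filter fun p =>
    p.Prime ∧ ¬ IsSquare ((D : ℤ) : ZMod p) ∧ ∀ q : ℕ, q.Prime → q ∣ p + 1 → (q : ℝ) ^ A ≤ x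

/-- three points on the line `y = λ x + ν`, with the factorisation of `x³ + α x + β - (λ x + ν)²` -/
structure Lin {F : Type*} [Field F] (α β : ℤ) (l n x₁ y₁ x₂ y₂ x₃ y₃ : F) : Prop where
  y1 : y₁ = l * x₁ + n
  y2 : y₂ = l * x₂ + n
  y3 : y₃ = l * x₃ + n
  e1 : l ^ 2 = x₁ + x₂ + x₃
  e2 : (α : F) - 2 * l * n = x₁ * x₂ + x₁ * x₃ + x₂ * x₃
  e3 : (β : F) - n ^ 2 = - (x₁ * x₂ * x₃)

end MWS
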