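import Mathlib

/-!
# LEAF MA1: correlations of the functions `2 [t + γ p is a square] - (p + 1)/p`

PROOF.  `fz_per`: clear.  `fz_sum`: the number of squares (with `0`) in `ZMod p`, `p` odd, is `(p + 1)/2` (`∑_a quadraticChar a = 0`; `2 [a is a square] = 1 + quadraticChar a + [a = 0]`), translation by `γ p`.
`corr`.  `F t = ∏_T fz ∏_{T'} fz` has period `q = ∏_{p ∈ T ∪ T'} p`.  Some `p` lies in exactly one of `T`, `T'` (say in `T`, not in `T'`): `F t = fz p t * G t` with `G` of period `q' = q / p` prime to `p`.  The sum over a complete period: `t = u + q' v`, `u` modulo `q'`, `v` modulo `p`: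
`∑_v fz p (u + q' v) = 0` as `v ↦ u + q' v` is a bijection modulo `p`.  So the sum of `F` over any `q` consecutive integers is `0`; cut off complete periods from the interval: fewer than `q` terms remain, each at most `∏_T (1 + 1/p) ∏_{T'} (1 + 1/p)`, and `q ≤ ∏_T p ∏_{T'} p`.
-/

namespace MWS

open Finset

open Classical in
/-- `2 [t + γ p is a square in ZMod p] - (p + 1) / p` -/
noncomputable def fz (γ : (p : ℕ) → ZMod p) (p : ℕ) (t : ℤ) : ℝ :=
  (if IsSquare ((t : ZMod p) + γ p) then 2 else 0) - ((p : ℝ) + 1) / p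

theorem MA1_sum {q : ℕ} [NeZero q] (f : ZMod q → ℝ) (u : ℤ) :
    ∑ t ∈ Ico u (u + q), f (t : ZMod q) = ∑ a, f a := by
  have hinj : Set.InjOn (fun t : ℤ => (t : ZMod q)) (Ico u (u + q) : Finset ℤ) := by
    intro a ha b hb hab
    simp only [coe_Ico, Set.mem_Ico] at ha hb
    have h := (ZMod.intCast_eq_intCast_iff_dvd_sub a b q).1 hab
    have h2 : b - a = 0 := Int.eq_zero_of_abs_lt_dvd h (by rw [abs_lt]; constructor <;> linarith)
    linarith
  have himg : (Ico u (u + q)).image (fun t : ℤ => (t : ZMod q)) = univ := by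
    apply Finset.eq_univ_of_card
    rw [Finset.card_image_of_injOn hinj, Int.card_Ico, ZMod.card]
    simp
  rw [← himg, sum_image hinj]

theorem fz_abs (γ : (p : ℕ) → ZMod p) {p : ℕ} (hp : p.Prime) (t : ℤ) : |fz γ p t| ≤ 1 + 1 / p := by
  have hp0 : (0 : ℝ) < p := by exact_mod_cast hp.pos
  have hp1 : (1 : ℝ) ≤ p := by exact_mod_cast hp.one_le
  have h1 : ((p : ℝ) + 1) / p = 1 + 1 / p := by rw [add_div, div_self hp0.ne']
  have h2 : (1 : ℝ) / p ≤ 1 := by rw [div_le_one hp0]; exact hp1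
  have h3 : (0 : ℝ) < 1 / p := by positivity
  unfold fz
  rw [h1]
  split_ifs
  · rw [abs_le]; constructor <;> linarith
  · rw [abs_le]; constructor <;> linarith

open Classical in
/-- `fz` as a function on `ZMod p` -/
noncomputable def MA1_f (γ : (p : ℕ) → ZMod p) (p : ℕ) (a : ZMod p) : ℝ :=
  (if IsSquare (a + γ p) then 2 else 0) - ((p : ℝ) + 1) / p

theorem MA1_fz (γ : (p : ℕ) → ZMod p) (p : ℕ) (t : ℤ) : fz γ p t = MA1_f γ p (t : ZMod p) := rfl

theorem MA1_sq (γ : (p : ℕ) → ZMod p) {p : ℕ} [Fact p.Prime] (a : ZMod p) :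
    MA1_f γ p a = (1 + ((quadraticChar (ZMod p) (a + γ p) : ℤ) : ℝ) + (if a + γ p = 0 then 1 else 0)) -
      ((p : ℝ) + 1) / p := by
  unfold MA1_f
  congr 1
  by_cases h0 : a + γ p = 0
  · rw [h0]; simp; norm_num
  · by_cases hs : IsSquare (a + γ p)
    · have := (quadraticChar_one_iff_isSquare h0).2 hs
      rw [if_pos hs, this, if_neg h0]; norm_num
    · have := quadraticChar_neg_one_iff_not_isSquare.2 hs
      rw [if_neg hs, this, if_neg h0]; norm_num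

theorem MA1_sum0 (γ : (p : ℕ) → ZMod p) {p : ℕ} [Fact p.Prime] (h2 : p ≠ 2) :
    ∑ a : ZMod p, MA1_f γ p a = 0 := by
  have hp0 : (0 : ℝ) < p := by exact_mod_cast (Fact.out : p.Prime).pos
  have hF : ringChar (ZMod p) ≠ 2 := by rw [ZMod.ringChar_zmod_n]; exact h2
  simp_rw [MA1_sq γ]
  rw [sum_sub_distrib, sum_add_distrib, sum_add_distrib]
  have e1 : ∑ a : ZMod p, ((quadraticChar (ZMod p) (a + γ p) : ℤ) : ℝ) = 0 := by
    rw [← Int.cast_sum]
    have : ∑ a : ZMod p, quadraticChar (ZMod p) (a + γ p) = ∑ a : ZMod p, quadraticChar (ZMod p) a :=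
      Fintype.sum_equiv (Equiv.addRight (γ p)) _ _ (fun a => rfl)
    rw [this, quadraticChar_sum_zero hF]
    simp
  have e2 : ∑ a : ZMod p, (if a + γ p = 0 then (1 : ℝ) else 0) = 1 := by
    have : ∀ a : ZMod p, (a + γ p = 0) ↔ a = - γ p := fun a => eq_neg_iff_add_eq_zero.symm
    simp_rw [this]
    rw [sum_ite_eq' univ (-γ p)]
    simp
  rw [e1, e2]
  simp only [sum_const, card_univ, ZMod.card, nsmul_eq_mul]
  field_simp
  ring

theorem fz_sum (γ : (p : ℕ) → ZMod p) {p : ℕ} (hp : p.Prime) (h2 : p ≠ 2) (u : ℤ) :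
    ∑ t ∈ Ico u (u + p), fz γ p t = 0 := by
  have : Fact p.Prime := ⟨hp⟩
  exact (MA1_sum (q := p) (MA1_f γ p) u).trans (MA1_sum0 γ h2)

/-- `fz γ p t * G t` has sum zero over a complete period if `G` has a period prime to `p` -/
theorem MA1_period (γ : (p : ℕ) → ZMod p) {p : ℕ} (hp : p.Prime) (h2 : p ≠ 2) {q : ℕ} (hq : 0 < q)
    (hco : p.Coprime q) (G : ℤ → ℝ) (hG : ∀ t t' : ℤ, (t : ZMod q) = (t' : ZMod q) → G t = G t')
    (u : ℤ) : ∑ t ∈ Ico u (u + (p * q : ℕ)), fz γ p t * G t = 0 := by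
  classical
  have : Fact p.Prime := ⟨hp⟩
  have : NeZero q := ⟨hq.ne'⟩
  have : NeZero (p * q) := ⟨(Nat.mul_pos hp.pos hq).ne'⟩
  let e := ZMod.chineseRemainder hco
  let f : ZMod p → ℝ := MA1_f γ p
  let G' : ZMod q → ℝ := fun c => G (c.val : ℤ)
  have hG' : ∀ t : ℤ, G' (t : ZMod q) = G t := by
    intro t
    refine hG _ _ ?_
    rw [Int.cast_natCast, ZMod.natCast_zmod_val]
  have he : ∀ t : ℤ, e (t : ZMod (p * q)) = ((t : ZMod p), (t : ZMod q)) := by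
    intro t
    rw [map_intCast]
    rfl
  have h1 := MA1_sum (q := p * q) (fun a => f (e a).1 * G' (e a).2) u
  have h3 : ∀ t : ℤ, f (e (t : ZMod (p * q))).1 * G' (e (t : ZMod (p * q))).2 = fz γ p t * G t := by
    intro t
    rw [he t]
    show f (t : ZMod p) * G' (t : ZMod q) = _
    rw [hG' t]
    rfl
  rw [← sum_congr rfl (fun t _ => h3 t)]
  refine h1.trans ?_
  have h4 : ∑ a : ZMod (p * q), f (e a).1 * G' (e a).2 = ∑ x : ZMod p × ZMod q, f x.1 * G' x.2 :=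
    (e.toEquiv).sum_comp (fun x : ZMod p × ZMod q => f x.1 * G' x.2)
  rw [h4, Fintype.sum_prod_type]
  simp_rw [← mul_sum]
  rw [← sum_mul]
  have h5 : ∑ a : ZMod p, f a = 0 := MA1_sum0 γ h2
  rw [h5, zero_mul]

theorem MA1_prod_congr (γ : (p : ℕ) → ZMod p) (T : Finset ℕ) {q : ℕ} (hd : ∀ p ∈ T, p ∣ q) (t t' : ℤ)
    (h : (t : ZMod q) = (t' : ZMod q)) : ∏ p ∈ T, fz γ p t = ∏ p ∈ T, fz γ p t' := by
  refine prod_congr rfl fun p hp => ?_
  have h1 := (ZMod.intCast_eq_intCast_iff_dvd_sub t t' q).1 h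
  have h2 : (p : ℤ) ∣ t' - t := (Int.natCast_dvd_natCast.2 (hd p hp)).trans h1
  have h3 : (t : ZMod p) = (t' : ZMod p) := (ZMod.intCast_eq_intCast_iff_dvd_sub t t' p).2 h2
  unfold fz
  rw [h3]

theorem MA1_long (F : ℤ → ℝ) {q : ℕ} (hq : 0 < q) (M : ℝ) (hM : ∀ t, |F t| ≤ M)
    (h0 : ∀ u : ℤ, ∑ t ∈ Ico u (u + q), F t = 0) (n : ℕ) :
    ∀ u : ℤ, |∑ t ∈ Ico u (u + n), F t| ≤ q * M := by
  have hM0 : 0 ≤ M := (abs_nonneg _).trans (hM 0)
  induction n using Nat.strong_induction_on with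
  | _ n ih =>
    intro u
    by_cases hn : n < q
    · refine (abs_sum_le_sum_abs _ _).trans ?_
      refine (sum_le_sum fun t _ => hM t).trans ?_
      rw [sum_const, Int.card_Ico, nsmul_eq_mul]
      refine mul_le_mul_of_nonneg_right ?_ hM0
      simp only [add_sub_cancel_left, Int.toNat_natCast]
      exact_mod_cast hn.le
    · push Not at hn
      have hle1 : u ≤ u + (q : ℤ) := by linarith [Int.natCast_nonneg q]
      have hle2 : u + (q : ℤ) ≤ u + (n : ℤ) := by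
        have : (q : ℤ) ≤ n := by exact_mod_cast hn
        linarith
      have hun : Ico u (u + (n : ℤ)) = Ico u (u + (q : ℤ)) ∪ Ico (u + (q : ℤ)) (u + (n : ℤ)) :=
        (Ico_union_Ico_eq_Ico hle1 hle2).symm
      rw [hun, sum_union (Ico_disjoint_Ico_consecutive _ _ _), h0 u, zero_add]
      have hcast : u + (n : ℤ) = (u + (q : ℤ)) + ((n - q : ℕ) : ℤ) := by
        rw [Nat.cast_sub hn]; ring
      rw [hcast]
      exact ih (n - q) (Nat.sub_lt (lt_of_lt_of_le hq hn) hq) (u + q)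

theorem MA1_aux (γ : (p : ℕ) → ZMod p) (T T' : Finset ℕ) (hT : ∀ p ∈ T, p.Prime ∧ p ≠ 2)
    (hT' : ∀ p ∈ T', p.Prime ∧ p ≠ 2) {p : ℕ} (hpT : p ∈ T) (hpT' : p ∉ T') (u : ℤ) :
    ∑ t ∈ Ico u (u + (∏ r ∈ T ∪ T', r : ℕ)), (∏ r ∈ T, fz γ r t) * ∏ r ∈ T', fz γ r t = 0 := by
  classical
  have hpU : p ∈ T ∪ T' := mem_union_left _ hpT
  have hprime : ∀ r ∈ T ∪ T', r.Prime := fun r hr => by
    rcases mem_union.1 hr with h | h
    · exact (hT r h).1
    · exact (hT' r h).1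
  have hq : ∏ r ∈ T ∪ T', r = p * ∏ r ∈ (T ∪ T').erase p, r := (mul_prod_erase _ _ hpU).symm
  set q := ∏ r ∈ (T ∪ T').erase p, r with hqdef
  have hq0 : 0 < q := prod_pos fun r hr => (hprime r (mem_of_mem_erase hr)).pos
  have hco : p.Coprime q := by
    refine Nat.Coprime.prod_right fun r hr => ?_
    exact (Nat.coprime_primes (hT p hpT).1 (hprime r (mem_of_mem_erase hr))).2 (ne_of_mem_erase hr).symm
  rw [hq]
  have h1 := MA1_period γ (hT p hpT).1 (hT p hpT).2 hq0 hco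
    (fun t => (∏ r ∈ T.erase p, fz γ r t) * ∏ r ∈ T', fz γ r t) (by
      intro t t' htt
      have a1 := MA1_prod_congr γ (T.erase p) (q := q) (fun r hr => by
        refine dvd_prod_of_mem (fun r => r) (mem_erase.2 ⟨ne_of_mem_erase hr, ?_⟩)
        exact mem_union_left _ (mem_of_mem_erase hr)) t t' htt
      have a2 := MA1_prod_congr γ T' (q := q) (fun r hr => by
        refine dvd_prod_of_mem (fun r => r) (mem_erase.2 ⟨?_, mem_union_right _ hr⟩)
        rintro rfl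
        exact hpT' hr) t t' htt
      show (∏ r ∈ T.erase p, fz γ r t) * ∏ r ∈ T', fz γ r t =
        (∏ r ∈ T.erase p, fz γ r t') * ∏ r ∈ T', fz γ r t'
      rw [a1, a2]) u
  refine Eq.trans (sum_congr rfl fun t _ => ?_) h1
  rw [← mul_assoc, mul_prod_erase T (fun r => fz γ r t) hpT]

theorem corr (γ : (p : ℕ) → ZMod p) (T T' : Finset ℕ) (hT : ∀ p ∈ T, p.Prime ∧ p ≠ 2)
    (hT' : ∀ p ∈ T', p.Prime ∧ p ≠ 2) (hne : T ≠ T') (u v : ℤ) :
    |∑ t ∈ Icc u v, (∏ p ∈ T, fz γ p t) * ∏ p ∈ T', fz γ p t| ≤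
      (∏ p ∈ T, (p : ℝ) * (1 + 1 / p)) * ∏ p ∈ T', (p : ℝ) * (1 + 1 / p) := by
  classical
  have hprime : ∀ r ∈ T ∪ T', r.Prime := fun r hr => by
    rcases mem_union.1 hr with h | h
    · exact (hT r h).1
    · exact (hT' r h).1
  have hq0 : 0 < ∏ r ∈ T ∪ T', r := prod_pos fun r hr => (hprime r hr).pos
  have hzero : ∀ u : ℤ, ∑ t ∈ Ico u (u + (∏ r ∈ T ∪ T', r : ℕ)),
      (∏ r ∈ T, fz γ r t) * ∏ r ∈ T', fz γ r t = 0 := by
    intro u
    by_cases hsub : T ⊆ T'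
    · obtain ⟨p, hp1, hp2⟩ : ∃ p, p ∈ T' ∧ p ∉ T := by
        by_contra hcon
        push Not at hcon
        exact hne (Subset.antisymm hsub hcon)
      have h := MA1_aux γ T' T hT' hT hp1 hp2 u
      rw [union_comm T T']
      refine Eq.trans (sum_congr rfl fun t _ => mul_comm _ _) h
    · obtain ⟨p, hp1, hp2⟩ := not_subset.1 hsub
      exact MA1_aux γ T T' hT hT' hp1 hp2 u
  set M : ℝ := (∏ p ∈ T, (1 + 1 / (p : ℝ))) * ∏ p ∈ T', (1 + 1 / (p : ℝ)) with hM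
  have hT0 : 0 ≤ ∏ p ∈ T, (1 + 1 / (p : ℝ)) := prod_nonneg fun p _ => by positivity
  have hT'0 : 0 ≤ ∏ p ∈ T', (1 + 1 / (p : ℝ)) := prod_nonneg fun p _ => by positivity
  have hM0 : 0 ≤ M := mul_nonneg hT0 hT'0
  have hbd : ∀ t, |(∏ r ∈ T, fz γ r t) * ∏ r ∈ T', fz γ r t| ≤ M := by
    intro t
    rw [abs_mul, abs_prod, abs_prod]
    refine mul_le_mul ?_ ?_ (prod_nonneg fun p _ => abs_nonneg _) hT0
    · exact prod_le_prod (fun p _ => abs_nonneg _) fun p hp => fz_abs γ (hT p hp).1 t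
    · exact prod_le_prod (fun p _ => abs_nonneg _) fun p hp => fz_abs γ (hT' p hp).1 t
  have hlong : |∑ t ∈ Icc u v, (∏ r ∈ T, fz γ r t) * ∏ r ∈ T', fz γ r t| ≤
      ((∏ r ∈ T ∪ T', r : ℕ) : ℝ) * M := by
    by_cases huv : u ≤ v
    · have h := MA1_long (fun t => (∏ r ∈ T, fz γ r t) * ∏ r ∈ T', fz γ r t) hq0 M hbd hzero
        (v + 1 - u).toNat u
      have hI : Icc u v = Ico u (u + ((v + 1 - u).toNat : ℤ)) := by
        ext t
        simp only [mem_Icc, mem_Ico]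
        rw [Int.toNat_of_nonneg (by linarith)]
        constructor
        · rintro ⟨h1, h2⟩; exact ⟨h1, by linarith⟩
        · rintro ⟨h1, h2⟩; exact ⟨h1, by linarith⟩
      rw [hI]
      exact h
    · rw [Icc_eq_empty huv, sum_empty, abs_zero]
      positivity
  refine hlong.trans ?_
  rw [prod_mul_distrib, prod_mul_distrib]
  have hq1 : ((∏ r ∈ T ∪ T', r : ℕ) : ℝ) ≤ (∏ p ∈ T, (p : ℝ)) * ∏ p ∈ T', (p : ℝ) := by
    have h1 : (∏ r ∈ T ∪ T', r) * ∏ r ∈ T ∩ T', r = (∏ r ∈ T, r) * ∏ r ∈ T', r :=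
      prod_union_inter
    have h2 : 1 ≤ ∏ r ∈ T ∩ T', r :=
      prod_pos fun r hr => (hT r (mem_of_mem_inter_left hr)).1.pos
    have h3 : ∏ r ∈ T ∪ T', r ≤ (∏ r ∈ T, r) * ∏ r ∈ T', r := by
      rw [← h1]
      exact Nat.le_mul_of_pos_right _ h2
    calc ((∏ r ∈ T ∪ T', r : ℕ) : ℝ) ≤ (((∏ r ∈ T, r) * ∏ r ∈ T', r : ℕ) : ℝ) := by
          exact_mod_cast h3
      _ = _ := by push_cast; ring
  calc ((∏ r ∈ T ∪ T', r : ℕ) : ℝ) * M
      ≤ ((∏ p ∈ T, (p : ℝ)) * ∏ p ∈ T', (p : ℝ)) * M := mul_le_mul_of_nonneg_right hq1 hM0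
    _ = _ := by rw [hM]; ring

end MWS
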