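import Pool.Agent.Lib.MP_10e784_agW.Defs
import Pool.Agent.Lib.MP_10e784_ag.EL.ELMer
import Pool.Agent.Lib.MP_2c5684_nt.Mertens

/-!
# LEAF SA1: Mertens' first theorem over a window

PROOF of `all_primes`.  `EL.mer ℚ` and the bijection between the primes `p ≤ x` and the prime ideals of prime norm `≤ x` of `𝓞 ℚ` (`Rat.ringOfIntegersEquiv`; the ideal spanned by `p` has norm `p`, a prime ideal of prime norm `p` contains `p` and is
spanned by it).  (Only the lower bound for a difference is needed; any other proof of Mertens' first theorem will do, for instance from the library `MP_2c5684_nt/Mertens.lean` or from `Nat.factorial`: `∑_{d ≤ n} Λ(d) ⌊n/d⌋ = log n!`.)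
-/

namespace MWS

open Finset

private theorem SA1_nonprime : ∃ C : ℝ, 0 ≤ C ∧ ∀ N : ℕ,
    ∑ n ∈ (Icc 1 N).filter (fun n => ¬ n.Prime), ArithmeticFunction.vonMangoldt n / n ≤ C := by
  classical
  have hs := ArithmeticFunction.vonMangoldt.summable_residueClass_non_primes_div (q := 1) 0
  have hnn : ∀ n : ℕ, 0 ≤ (if n.Prime then 0 else
      ArithmeticFunction.vonMangoldt.residueClass (0 : ZMod 1) n) / (n : ℝ) := by
    intro n
    refine div_nonneg ?_ (Nat.cast_nonneg n)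
    split_ifs
    · exact le_rfl
    · exact ArithmeticFunction.vonMangoldt.residueClass_nonneg _ n
  refine ⟨∑' n : ℕ, (if n.Prime then 0 else
      ArithmeticFunction.vonMangoldt.residueClass (0 : ZMod 1) n) / (n : ℝ), tsum_nonneg hnn, ?_⟩
  intro N
  refine le_trans (le_of_eq ?_) (hs.sum_le_tsum ((Icc 1 N).filter (fun n => ¬ n.Prime))
    (fun n _ => hnn n))
  refine sum_congr rfl ?_
  intro n hn
  rw [mem_filter] at hn
  rw [if_neg hn.2]
  congr 1
  unfold ArithmeticFunction.vonMangoldt.residueClass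
  rw [Set.indicator_of_mem]
  exact Subsingleton.elim _ _

private theorem SA1_nat : ∃ C : ℝ, 0 ≤ C ∧ ∀ z t : ℕ, 1 ≤ z → z ≤ t →
    Real.log t - Real.log z - C ≤ ∑ p ∈ (Ioc z t).filter Nat.Prime, Real.log p / p := by
  classical
  obtain ⟨C, hC0, hC⟩ := SA1_nonprime
  refine ⟨C + 6.4, by positivity, ?_⟩
  intro z t hz hzt
  have hlog4 := Pool.Agent.Lib.MP_2c5684_nt.log_four_le
  have ht2 := Pool.Agent.Lib.MP_2c5684_nt.le_sum_vM t (by omega)
  have hz1 := Pool.Agent.Lib.MP_2c5684_nt.sum_vM_le z hz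
  have hspl : ∑ n ∈ Icc 1 t, ArithmeticFunction.vonMangoldt n / (n : ℝ) =
      ∑ n ∈ Icc 1 z, ArithmeticFunction.vonMangoldt n / (n : ℝ) +
        ∑ n ∈ Ioc z t, ArithmeticFunction.vonMangoldt n / (n : ℝ) := by
    rw [← sum_union]
    · congr 1
      ext n
      simp only [mem_Icc, mem_union, mem_Ioc]
      omega
    · rw [Finset.disjoint_left]
      intro n hn hn'
      rw [mem_Icc] at hn
      rw [mem_Ioc] at hn'
      omega
  have hpr : ∑ n ∈ Ioc z t, ArithmeticFunction.vonMangoldt n / (n : ℝ) =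
      ∑ p ∈ (Ioc z t).filter Nat.Prime, Real.log p / p +
        ∑ n ∈ (Ioc z t).filter (fun n => ¬ n.Prime), ArithmeticFunction.vonMangoldt n / (n : ℝ) := by
    rw [← sum_filter_add_sum_filter_not (Ioc z t) Nat.Prime]
    congr 1
    refine sum_congr rfl ?_
    intro p hp
    rw [mem_filter] at hp
    rw [ArithmeticFunction.vonMangoldt_apply_prime hp.2]
  have hn1 : ∑ n ∈ (Ioc z t).filter (fun n => ¬ n.Prime), ArithmeticFunction.vonMangoldt n / (n : ℝ) ≤
      C := by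
    refine le_trans (sum_le_sum_of_subset_of_nonneg ?_ fun n _ _ =>
      div_nonneg ArithmeticFunction.vonMangoldt_nonneg (Nat.cast_nonneg n)) (hC t)
    intro n hn
    rw [mem_filter, mem_Ioc] at hn
    rw [mem_filter, mem_Icc]
    exact ⟨⟨by omega, hn.1.2⟩, hn.2⟩
  have e1 : Real.log t - 1 ≤ ∑ n ∈ Icc 1 t, ArithmeticFunction.vonMangoldt n / (n : ℝ) := ht2
  have e2 : ∑ n ∈ Icc 1 z, ArithmeticFunction.vonMangoldt n / (n : ℝ) ≤
      Real.log z + (Real.log 4 + 4) := hz1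
  linarith

theorem all_primes : ∃ C : ℝ, 0 ≤ C ∧ ∀ y x : ℝ, 2 ≤ y → y ≤ x →
    Real.log (x / y) - C ≤ ∑ p ∈ (Ioc ⌊y⌋₊ ⌊x⌋₊).filter Nat.Prime, Real.log p / p := by
  obtain ⟨C, hC0, hC⟩ := SA1_nat
  have hl2 : 0 ≤ Real.log 2 := Real.log_nonneg (by norm_num)
  refine ⟨C + Real.log 2, by linarith, fun y x hy hyx => ?_⟩
  have hy1 : 1 ≤ ⌊y⌋₊ := (Nat.one_le_floor_iff y).mpr (by linarith)
  have hyx' : ⌊y⌋₊ ≤ ⌊x⌋₊ := Nat.floor_le_floor hyx
  have h := hC ⌊y⌋₊ ⌊x⌋₊ hy1 hyx'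
  have hy0 : (0 : ℝ) < y := by linarith
  have hx0 : (0 : ℝ) < x := by linarith
  have hyR : (1 : ℝ) ≤ (⌊y⌋₊ : ℝ) := by exact_mod_cast hy1
  have hxR : (1 : ℝ) ≤ (⌊x⌋₊ : ℝ) := by exact_mod_cast hy1.trans hyx'
  have a1 : Real.log (⌊y⌋₊ : ℝ) ≤ Real.log y :=
    Real.log_le_log (by linarith) (Nat.floor_le hy0.le)
  have a2 : Real.log x ≤ Real.log 2 + Real.log (⌊x⌋₊ : ℝ) := by
    rw [← Real.log_mul (by norm_num) (by linarith)]
    have := Nat.lt_floor_add_one x
    exact Real.log_le_log hx0 (by linarith)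
  rw [Real.log_div hx0.ne' hy0.ne']
  linarith

end MWS
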