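import Pool.Agent.Lib.MP_10e784_agW.Defs
import Pool.Agent.Lib.MP_10e784_agW.SA1
import Pool.Agent.Lib.MP_10e784_ag.PT.PTRoot

/-!
# LEAF SA: primes inert in a quadratic field

PROOF of `split_primes`.  `G = X² - D` is irreducible over `ℚ` (`D` is not the square of an integer, so not of a rational).  `PT.root_primes G` gives `K`, `B1`; if `p ∤ 2 D B1` and `D` is a square modulo `p`, then `rt G p = 2`, so there are two prime ideals of norm `p`.
So `2 ∑_{y < p ≤ x, p ∤ 2 D B1, D square} log p / p ≤ ∑_{P : y < N P ≤ x, N P prime} log N P / N P ≤ log x - log y + 2 A` (`EL.mer K` at `x` and at `y`; `mem_PP`).  The primes dividing `2 D B1` contribute a constant.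
PROOF of `inert`: subtract (split the primes in `(y, x]`).
-/

namespace MWS

open Finset

private theorem SA_irr {D : ℤ} (hD : ¬ IsSquare D) :
    Irreducible ((Polynomial.X ^ 2 - Polynomial.C D : Polynomial ℤ).map (Int.castRingHom ℚ)) := by
  have h1 : (Polynomial.X ^ 2 - Polynomial.C D : Polynomial ℤ).map (Int.castRingHom ℚ) =
      Polynomial.X ^ 2 - Polynomial.C ((D : ℤ) : ℚ) := by
    simp
  rw [h1]
  refine X_pow_sub_C_irreducible_of_prime Nat.prime_two fun b hb => hD ?_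
  rw [← Rat.isSquare_intCast_iff]
  exact ⟨b, by rw [← hb, sq]⟩

private theorem SA_rt {D : ℤ} {p : ℕ} (hp : p.Prime) (h2 : ¬ (p : ℤ) ∣ 2 * D)
    (hs : IsSquare ((D : ℤ) : ZMod p)) :
    2 ≤ PT.rt (Polynomial.X ^ 2 - Polynomial.C D : Polynomial ℤ) p := by
  have : Fact p.Prime := ⟨hp⟩
  obtain ⟨r, hr⟩ := hs
  have hne : ((2 * D : ℤ) : ZMod p) ≠ 0 := by
    intro h0
    exact h2 ((ZMod.intCast_zmod_eq_zero_iff_dvd _ _).mp h0)
  have hroot : ∀ ρ : ZMod p, ρ * ρ = ((D : ℤ) : ZMod p) →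
      ((Polynomial.X ^ 2 - Polynomial.C D : Polynomial ℤ).map (Int.castRingHom (ZMod p))).eval ρ = 0 := by
    intro ρ hρ
    simp only [Polynomial.map_sub, Polynomial.map_pow, Polynomial.map_X, Polynomial.map_C,
      Polynomial.eval_sub, Polynomial.eval_pow, Polynomial.eval_X, Polynomial.eval_C]
    rw [sq, hρ]
    simp
  unfold PT.rt
  have hnt : Nontrivial {ρ : ZMod p //
      ((Polynomial.X ^ 2 - Polynomial.C D : Polynomial ℤ).map (Int.castRingHom (ZMod p))).eval ρ = 0} := by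
    refine ⟨⟨r, hroot r hr.symm⟩, ⟨-r, hroot (-r) (by rw [hr]; ring)⟩, ?_⟩
    intro h0
    have h1 : r = -r := congrArg Subtype.val h0
    have h3 : (2 : ZMod p) * r = 0 := by
      have : r + r = 0 := by
        nth_rewrite 1 [h1]
        exact neg_add_cancel r
      rw [two_mul]
      exact this
    apply hne
    push_cast
    rw [hr, ← mul_assoc, h3, zero_mul]
  exact Finite.one_lt_card

open Classical in
theorem split_primes {D : ℤ} (hD : ¬ IsSquare D) : ∃ C : ℝ, 0 ≤ C ∧ ∀ y x : ℝ, 2 ≤ y → y ≤ x →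
    ∑ p ∈ (Ioc ⌊y⌋₊ ⌊x⌋₊).filter (fun p => p.Prime ∧ IsSquare ((D : ℤ) : ZMod p)), Real.log p / p ≤
      1 / 2 * Real.log (x / y) + C := by
  obtain ⟨K, hK1, hK2, B1, hB1, hroot⟩ :=
    PT.root_primes (Polynomial.X ^ 2 - Polynomial.C D) (SA_irr hD)
  obtain ⟨A, hA, hmer⟩ := EL.mer K
  have hD0 : D ≠ 0 := by
    rintro rfl
    exact hD ⟨0, by simp⟩
  set m : ℕ := 2 * D.natAbs * B1 with hm
  have hm0 : m ≠ 0 := by
    rw [hm]
    have := Int.natAbs_ne_zero.mpr hD0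
    positivity
  set C1 : ℝ := ∑ p ∈ m.primeFactors, Real.log p / p with hC1
  have hterm : ∀ p : ℕ, 0 ≤ Real.log p / p := fun p =>
    div_nonneg (Real.log_natCast_nonneg p) (Nat.cast_nonneg p)
  have hC10 : 0 ≤ C1 := sum_nonneg fun p _ => hterm p
  refine ⟨A + C1, by linarith, fun y x hy hyx => ?_⟩
  have hy0 : (0 : ℝ) < y := by linarith
  have hx0 : (0 : ℝ) < x := by linarith
  set S := (Ioc ⌊y⌋₊ ⌊x⌋₊).filter (fun p => p.Prime ∧ IsSquare ((D : ℤ) : ZMod p)) with hS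
  set T : ℝ → Finset (Ideal (NumberField.RingOfIntegers K)) :=
    fun x => (EL.PP K x).filter (fun P => (Ideal.absNorm P).Prime) with hT
  set f : Ideal (NumberField.RingOfIntegers K) → ℝ :=
    fun P => Real.log (Ideal.absNorm P : ℕ) / (Ideal.absNorm P : ℕ) with hf
  have hf0 : ∀ P, 0 ≤ f P := fun P => hterm _
  have hxy : ∑ P ∈ T x, f P - ∑ P ∈ T y, f P ≤ Real.log (x / y) + 2 * A := by
    have h1 := (abs_le.mp (hmer x (by linarith))).2
    have h2 := (abs_le.mp (hmer y hy)).1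
    rw [Real.log_div hx0.ne' hy0.ne']
    have h3 : ∑ P ∈ T x, f P - Real.log x ≤ A := h1
    have h4 : -A ≤ ∑ P ∈ T y, f P - Real.log y := h2
    linarith
  -- the chosen primes above
  have hE : ∀ p : ℕ, ∃ E : Finset (Ideal (NumberField.RingOfIntegers K)),
      p ∈ S.filter (fun p => ¬ p ∣ m) → 2 ≤ E.card ∧ ∀ P ∈ E, P.IsPrime ∧ Ideal.absNorm P = p := by
    intro p
    by_cases hp : p ∈ S.filter (fun p => ¬ p ∣ m)
    · rw [mem_filter, hS, mem_filter] at hp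
      obtain ⟨⟨-, hpp, hsq⟩, hpm⟩ := hp
      have hpB : ¬ p ∣ B1 := fun h => hpm (Dvd.dvd.mul_left h _)
      obtain ⟨E, hE1, hE2⟩ := hroot p hpp hpB
      refine ⟨E, fun _ => ⟨?_, hE2⟩⟩
      rw [hE1]
      refine SA_rt hpp (fun h => hpm ?_) hsq
      have h1 : p ∣ (2 * D).natAbs := Int.natCast_dvd.mp h
      rw [Int.natAbs_mul] at h1
      exact Dvd.dvd.mul_right h1 _
    · exact ⟨∅, fun h => absurd h hp⟩
  choose E hE using hE
  have hdisj : ∀ p ∈ S.filter (fun p => ¬ p ∣ m), ∀ q ∈ S.filter (fun p => ¬ p ∣ m), p ≠ q →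
      Disjoint (E p) (E q) := by
    intro p hp q hq hpq
    rw [Finset.disjoint_left]
    intro P h1 h2
    exact hpq (((hE p hp).2 P h1).2.symm.trans ((hE q hq).2 P h2).2)
  have hsub : (S.filter (fun p => ¬ p ∣ m)).biUnion E ⊆ T x \ T y := by
    intro P hP
    obtain ⟨p, hp, hPp⟩ := mem_biUnion.mp hP
    obtain ⟨hPr, hPn⟩ := (hE p hp).2 P hPp
    rw [mem_filter, hS, mem_filter, mem_Ioc] at hp
    obtain ⟨⟨⟨hp1, hp2⟩, hpp, -⟩, -⟩ := hp
    have hPb : P ≠ ⊥ := by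
      rintro rfl
      rw [Ideal.absNorm_bot] at hPn
      exact hpp.ne_zero hPn.symm
    have hpx : (p : ℝ) ≤ x := (Nat.le_floor_iff hx0.le).mp hp2
    have hpy : y < p := (Nat.floor_lt hy0.le).mp hp1
    rw [mem_sdiff, hT]
    simp only [mem_filter]
    rw [EL.mem_PP hx0.le, EL.mem_PP hy0.le]
    refine ⟨⟨⟨hPr, hPb, by rw [hPn]; exact hpx⟩, by rw [hPn]; exact hpp⟩, ?_⟩
    rintro ⟨⟨-, -, h3⟩, -⟩
    rw [hPn] at h3
    linarith
  have hTT : T y ⊆ T x := by
    intro P hP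
    rw [hT] at hP ⊢
    simp only [mem_filter] at hP ⊢
    rw [EL.mem_PP hy0.le] at hP
    rw [EL.mem_PP hx0.le]
    exact ⟨⟨hP.1.1, hP.1.2.1, hP.1.2.2.trans hyx⟩, hP.2⟩
  have h5 : 2 * ∑ p ∈ S.filter (fun p => ¬ p ∣ m), Real.log p / p ≤ Real.log (x / y) + 2 * A := by
    refine le_trans ?_ hxy
    rw [← sum_sdiff hTT, add_sub_cancel_right]
    refine le_trans ?_ (sum_le_sum_of_subset_of_nonneg hsub fun P _ _ => hf0 P)
    rw [sum_biUnion hdisj, mul_sum]
    refine sum_le_sum fun p hp => ?_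
    obtain ⟨hc, hP⟩ := hE p hp
    have h6 : ∑ P ∈ E p, f P = ((E p).card : ℝ) * (Real.log p / p) := by
      rw [← nsmul_eq_mul, ← sum_const]
      refine sum_congr rfl fun P hPE => ?_
      rw [hf]
      simp only [(hP P hPE).2]
    rw [h6]
    exact mul_le_mul_of_nonneg_right (by exact_mod_cast hc) (hterm p)
  have h7 : ∑ p ∈ S.filter (fun p => p ∣ m), Real.log p / p ≤ C1 := by
    refine sum_le_sum_of_subset_of_nonneg ?_ fun p _ _ => hterm p
    intro p hp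
    rw [mem_filter, hS, mem_filter] at hp
    exact Nat.mem_primeFactors.mpr ⟨hp.1.2.1, hp.2, hm0⟩
  have h8 := sum_filter_add_sum_filter_not S (fun p => p ∣ m) (fun p => Real.log (p : ℝ) / p)
  rw [← h8]
  linarith

open Classical in
theorem inert {D : ℤ} (hD : ¬ IsSquare D) : ∃ C : ℝ, 0 ≤ C ∧ ∀ y x : ℝ, 2 ≤ y → y ≤ x →
    1 / 2 * Real.log (x / y) - C ≤
      ∑ p ∈ (Ioc ⌊y⌋₊ ⌊x⌋₊).filter (fun p => p.Prime ∧ ¬ IsSquare ((D : ℤ) : ZMod p)), Real.log p / p := by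
  obtain ⟨C1, hC1, h1⟩ := split_primes hD
  obtain ⟨C2, hC2, h2⟩ := all_primes
  refine ⟨C1 + C2, by linarith, fun y x hy hyx => ?_⟩
  have e1 := h1 y x hy hyx
  have e2 := h2 y x hy hyx
  have e3 := sum_filter_add_sum_filter_not ((Ioc ⌊y⌋₊ ⌊x⌋₊).filter Nat.Prime)
    (fun p => IsSquare ((D : ℤ) : ZMod p)) (fun p => Real.log (p : ℝ) / p)
  rw [filter_filter, filter_filter] at e3
  linarith

end MWS
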