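import Pool.Agent.Lib.MP_10e784_agW.Defs

/-!
# LEAF SB1: the sets sifted in the problem of the pairs `q`, `m q - 1`

PROOF of `cnt_pairs`.  `N = ∏_{p ∈ T} p`.  The condition `p ∣ q (m q - 1)` depends on `q` modulo `p` (for `q ≥ 1`, `m ≥ 1`; work with the integer `q * (m * q - 1)`): for `p ∣ m` it is `p ∣ q` (one class), for `p ∤ m` it is `q = 0` or `q = m⁻¹` (two classes).
By CRT the number of classes modulo `N` is `ρ = ∏_{p ∈ T} ρ(p)`, `ρ(p) = p * gm m p ≤ 2`; in each complete period of length `N` there are `ρ` solutions, in an incomplete one between `0` and `ρ`, so `|# - (⌊X⌋₊ / N) ρ| ≤ ρ`; `ρ / N = ∏ gm`, `|X - ⌊X⌋₊| ≤ 1` costs `∏ gm ≤ 1`.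
Total error `≤ ρ + 1 ≤ 2 ∏_{p ∈ T} p` (`ρ(p) ≤ 2 ≤ p`).  An induction over `T` is also possible: for a residue class: `∀ T, ∀ N' coprime to T, a : #{q ≤ X, q ≡ a mod N', ∀ p ∈ T, ..} = X/N' ∏ gm + O(∏ ρ)`, splitting into classes modulo `N' p` for the new prime `p`: this avoids CRT for many moduli.
-/

namespace MWS

open Finset

/-- the density of the `q` modulo `p` with `p ∣ q (m q - 1)` -/
noncomputable def gm (m p : ℕ) : ℝ := if p ∣ m then 1 / p else 2 / p

private theorem SB1_base (N a : ℕ) (hN : 1 ≤ N) (X : ℝ) (hX : 0 ≤ X) :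
    |(((Icc 1 ⌊X⌋₊).filter (fun q => q ≡ a [MOD N])).card : ℝ) - X / N| ≤ 1 := by
  have hN' : (0 : ℝ) < N := by exact_mod_cast hN
  have hI : Icc 1 ⌊X⌋₊ = Ioc 0 ⌊X⌋₊ := by
    ext q
    simp only [mem_Icc, mem_Ioc]
    omega
  have h1 := Nat.Ioc_filter_modEq_card (r := N) 0 ⌊X⌋₊ hN a
  rw [hI]
  have hfl : ⌊X⌋₊ ≤ X := Nat.floor_le hX
  have hlt : X < ⌊X⌋₊ + 1 := Nat.lt_floor_add_one X
  set n : ℕ := ⌊X⌋₊ with hn
  -- integer floors
  have e1 : ∀ b : ℕ, ⌊((b : ℚ) - (a : ℚ)) / (N : ℚ)⌋ = ((b : ℤ) - a) / N := by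
    intro b
    have := Rat.floor_intCast_div_natCast ((b : ℤ) - a) N
    push_cast at this
    exact this
  rw [e1, e1] at h1
  push_cast at h1
  have hNz : (0 : ℤ) < N := by exact_mod_cast hN
  -- write n - a = N s + r , - a = N t + r'
  have s1 := Int.emod_add_mul_ediv ((n : ℤ) - a) N
  have s2 := Int.emod_nonneg ((n : ℤ) - a) hNz.ne'
  have s3 := Int.emod_lt_of_pos ((n : ℤ) - a) hNz
  have t1 := Int.emod_add_mul_ediv (0 - (a : ℤ)) N
  have t2 := Int.emod_nonneg (0 - (a : ℤ)) hNz.ne'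
  have t3 := Int.emod_lt_of_pos (0 - (a : ℤ)) hNz
  set s : ℤ := ((n : ℤ) - a) / N
  set t : ℤ := (0 - (a : ℤ)) / N
  set r : ℤ := ((n : ℤ) - a) % N
  set r' : ℤ := (0 - (a : ℤ)) % N
  have hst : 0 ≤ s - t := by
    by_contra hlt'
    push Not at hlt'
    have h5 : s - t ≤ -1 := by omega
    have h6 : (n : ℤ) = r - r' + N * (s - t) := by linear_combination t1 - s1
    have h7 : (0 : ℤ) ≤ n := Int.natCast_nonneg _
    nlinarith
  rw [max_eq_left hst] at h1
  have h2 : (((Ioc 0 n).filter (fun q => q ≡ a [MOD N])).card : ℝ) = (s : ℝ) - t := by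
    have h3 : ((((Ioc 0 n).filter (fun q => q ≡ a [MOD N])).card : ℤ) : ℝ) = ((s - t : ℤ) : ℝ) := by
      rw [h1]
    push_cast at h3
    exact h3
  rw [h2]
  have h4 : (n : ℝ) = r - r' + N * (s - t) := by
    have h6 : (n : ℤ) = r - r' + N * (s - t) := by linear_combination t1 - s1
    exact_mod_cast h6
  have hs2 : (0 : ℝ) ≤ r := by exact_mod_cast s2
  have hs3 : (r : ℝ) + 1 ≤ N := by exact_mod_cast s3
  have ht2 : (0 : ℝ) ≤ r' := by exact_mod_cast t2
  have ht3 : (r' : ℝ) + 1 ≤ N := by exact_mod_cast t3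
  have h5 : (s : ℝ) - t - X / N = (N * (s - t) - X) / N := by
    field_simp
  rw [h5, abs_le]
  constructor
  · rw [le_div_iff₀ hN']
    linarith
  · rw [div_le_iff₀ hN']
    linarith

/-- the residues -/
private noncomputable def SB1_S (m p : ℕ) : Finset ℕ :=
  if p ∣ m then {0} else {0, ((m : ZMod p)⁻¹).val}

private theorem SB1_S_spec (m p : ℕ) (hm : 1 ≤ m) (hp : p.Prime) :
    (∀ c ∈ SB1_S m p, c < p) ∧ ((SB1_S m p).card : ℝ) / p = gm m p ∧ (SB1_S m p).card ≤ 2 ∧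
      ∀ q : ℕ, 1 ≤ q → (p ∣ q * (m * q - 1) ↔ q % p ∈ SB1_S m p) := by
  have : Fact p.Prime := ⟨hp⟩
  have hnz : NeZero p := ⟨hp.ne_zero⟩
  have hdiv : ∀ q : ℕ, 1 ≤ q → (p ∣ q * (m * q - 1) ↔ (q : ZMod p) = 0 ∨ (m : ZMod p) * q = 1) := by
    intro q hq
    have h1 : 1 ≤ m * q := Nat.mul_pos hm hq
    rw [hp.dvd_mul, ← ZMod.natCast_eq_zero_iff, ← ZMod.natCast_eq_zero_iff, Nat.cast_sub h1]
    push_cast
    rw [sub_eq_zero]
  by_cases h : p ∣ m
  · have hS : SB1_S m p = {0} := by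
      unfold SB1_S
      rw [if_pos h]
    have hm0 : (m : ZMod p) = 0 := (ZMod.natCast_eq_zero_iff m p).2 h
    rw [hS]
    refine ⟨?_, ?_, by simp, ?_⟩
    · intro c hc
      rw [mem_singleton] at hc
      rw [hc]
      exact hp.pos
    · unfold gm
      rw [if_pos h, card_singleton]
      simp
    · intro q hq
      rw [hdiv q hq, hm0, zero_mul, mem_singleton]
      constructor
      · rintro (h1 | h1)
        · exact Nat.mod_eq_zero_of_dvd ((ZMod.natCast_eq_zero_iff q p).1 h1)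
        · exact absurd h1 zero_ne_one
      · intro h1
        left
        exact (ZMod.natCast_eq_zero_iff q p).2 (Nat.dvd_of_mod_eq_zero h1)
  · have hS : SB1_S m p = {0, ((m : ZMod p)⁻¹).val} := by
      unfold SB1_S
      rw [if_neg h]
    have hm0 : (m : ZMod p) ≠ 0 := fun h1 => h ((ZMod.natCast_eq_zero_iff m p).1 h1)
    have hinv : (m : ZMod p)⁻¹ ≠ 0 := inv_ne_zero hm0
    have hv : (0 : ℕ) ≠ ((m : ZMod p)⁻¹).val := by
      intro h1
      exact hinv ((ZMod.val_eq_zero _).1 h1.symm)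
    rw [hS]
    refine ⟨?_, ?_, ?_, ?_⟩
    · intro c hc
      rw [mem_insert, mem_singleton] at hc
      rcases hc with rfl | rfl
      · exact hp.pos
      · exact ZMod.val_lt _
    · unfold gm
      rw [if_neg h, card_pair hv]
      norm_num
    · rw [card_pair hv]
    · intro q hq
      rw [hdiv q hq, mem_insert, mem_singleton]
      constructor
      · rintro (h1 | h1)
        · left
          exact Nat.mod_eq_zero_of_dvd ((ZMod.natCast_eq_zero_iff q p).1 h1)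
        · right
          have h2 : (q : ZMod p) = (m : ZMod p)⁻¹ := eq_inv_of_mul_eq_one_right h1
          rw [← h2, ZMod.val_natCast]
      · rintro (h1 | h1)
        · left
          exact (ZMod.natCast_eq_zero_iff q p).2 (Nat.dvd_of_mod_eq_zero h1)
        · right
          have h2 : (q : ZMod p) = (m : ZMod p)⁻¹ := by
            have h3 : ((q % p : ℕ) : ZMod p) = (((m : ZMod p)⁻¹).val : ZMod p) := by rw [h1]
            rw [ZMod.natCast_mod, ZMod.natCast_val, ZMod.cast_id] at h3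
            exact h3
          rw [h2, mul_inv_cancel₀ hm0]

private theorem SB1_ind (m : ℕ) (hm : 1 ≤ m) (T : Finset ℕ) : (∀ p ∈ T, p.Prime) →
    ∀ (N a : ℕ), 1 ≤ N → (∀ p ∈ T, Nat.Coprime N p) → ∀ X : ℝ, 0 ≤ X →
    |(((Icc 1 ⌊X⌋₊).filter (fun q => q ≡ a [MOD N] ∧ ∀ p ∈ T, p ∣ q * (m * q - 1))).card : ℝ) -
      X / N * ∏ p ∈ T, gm m p| ≤ ∏ _p ∈ T, (2 : ℝ) := by
  induction T using Finset.induction_on with
  | empty =>
    intro _ N a hN _ X hX
    have h1 := SB1_base N a hN X hX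
    simpa using h1
  | insert p T hpT ih =>
    intro hT N a hN hco X hX
    have hp : p.Prime := hT p (mem_insert_self p T)
    have hT' : ∀ p' ∈ T, p'.Prime := fun p' hp' => hT p' (mem_insert_of_mem hp')
    have hNp : Nat.Coprime N p := hco p (mem_insert_self p T)
    obtain ⟨hS1, hS2, hS3, hS4⟩ := SB1_S_spec m p hm hp
    have hfib := card_eq_sum_card_fiberwise (s := (Icc 1 ⌊X⌋₊).filter
      (fun q => q ≡ a [MOD N] ∧ ∀ p' ∈ insert p T, p' ∣ q * (m * q - 1))) (t := SB1_S m p)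
      (f := fun q => q % p) (by
        intro q hq
        rw [mem_coe, mem_filter, mem_Icc] at hq
        exact (hS4 q hq.1.1).1 (hq.2.2 p (mem_insert_self p T)))
    have hcl : ∀ c ∈ SB1_S m p, ((Icc 1 ⌊X⌋₊).filter
        (fun q => q ≡ a [MOD N] ∧ ∀ p' ∈ insert p T, p' ∣ q * (m * q - 1))).filter (fun q => q % p = c) =
        (Icc 1 ⌊X⌋₊).filter (fun q => q ≡ (Nat.chineseRemainder hNp a c : ℕ) [MOD N * p] ∧
          ∀ p' ∈ T, p' ∣ q * (m * q - 1)) := by
      intro c hc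
      have hk := (Nat.chineseRemainder hNp a c).2
      ext q
      rw [mem_filter, mem_filter, mem_filter, mem_Icc]
      constructor
      · rintro ⟨⟨hq, hqa, hqT⟩, hqc⟩
        refine ⟨hq, ?_, fun p' hp' => hqT p' (mem_insert_of_mem hp')⟩
        rw [← Nat.modEq_and_modEq_iff_modEq_mul hNp]
        refine ⟨hqa.trans hk.1.symm, ?_⟩
        have h1 : q ≡ c [MOD p] := by
          unfold Nat.ModEq
          rw [hqc, Nat.mod_eq_of_lt (hS1 c hc)]
        exact h1.trans hk.2.symm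
      · rintro ⟨hq, hqk, hqT⟩
        rw [← Nat.modEq_and_modEq_iff_modEq_mul hNp] at hqk
        have h1 : q ≡ c [MOD p] := hqk.2.trans hk.2
        have h2 : q % p = c := by
          unfold Nat.ModEq at h1
          rw [h1, Nat.mod_eq_of_lt (hS1 c hc)]
        refine ⟨⟨hq, hqk.1.trans hk.1, ?_⟩, h2⟩
        intro p' hp'
        rw [mem_insert] at hp'
        rcases hp' with rfl | hp'
        · rw [hS4 q hq.1, h2]
          exact hc
        · exact hqT p' hp'
    have hsum : (((Icc 1 ⌊X⌋₊).filter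
        (fun q => q ≡ a [MOD N] ∧ ∀ p' ∈ insert p T, p' ∣ q * (m * q - 1))).card : ℝ) =
        ∑ c ∈ SB1_S m p, (((Icc 1 ⌊X⌋₊).filter (fun q => q ≡ (Nat.chineseRemainder hNp a c : ℕ) [MOD N * p] ∧
          ∀ p' ∈ T, p' ∣ q * (m * q - 1))).card : ℝ) := by
      rw [hfib]
      push_cast
      refine sum_congr rfl fun c hc => ?_
      rw [hcl c hc]
    have hmain : X / N * ∏ p' ∈ insert p T, gm m p' =
        ∑ _c ∈ SB1_S m p, X / ((N * p : ℕ) : ℝ) * ∏ p' ∈ T, gm m p' := by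
      rw [prod_insert hpT, sum_const, nsmul_eq_mul, ← hS2]
      push_cast
      have hp0 : (p : ℝ) ≠ 0 := by exact_mod_cast hp.ne_zero
      have hN0 : (N : ℝ) ≠ 0 := by
        have : (0 : ℝ) < N := by exact_mod_cast hN
        exact this.ne'
      field_simp
    rw [hsum, hmain, ← sum_sub_distrib, prod_insert hpT]
    refine (abs_sum_le_sum_abs _ _).trans ?_
    have hstep : ∀ c ∈ SB1_S m p, |(((Icc 1 ⌊X⌋₊).filter
        (fun q => q ≡ (Nat.chineseRemainder hNp a c : ℕ) [MOD N * p] ∧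
          ∀ p' ∈ T, p' ∣ q * (m * q - 1))).card : ℝ) - X / ((N * p : ℕ) : ℝ) * ∏ p' ∈ T, gm m p'| ≤
        ∏ _p ∈ T, (2 : ℝ) := by
      intro c _
      refine ih hT' (N * p) _ (Nat.mul_pos hN hp.pos) ?_ X hX
      intro p' hp'
      refine Nat.Coprime.mul_left (hco p' (mem_insert_of_mem hp')) ?_
      rw [Nat.coprime_primes hp (hT' p' hp')]
      rintro rfl
      exact hpT hp'
    refine (sum_le_sum hstep).trans ?_
    rw [sum_const, nsmul_eq_mul]
    apply mul_le_mul_of_nonneg_right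
    · exact_mod_cast hS3
    · exact prod_nonneg fun _ _ => by norm_num

theorem cnt_pairs (m : ℕ) (hm : 1 ≤ m) (T : Finset ℕ) (hT : ∀ p ∈ T, p.Prime) (X : ℝ) (hX : 0 ≤ X) :
    |(((Icc 1 ⌊X⌋₊).filter (fun q => ∀ p ∈ T, p ∣ q * (m * q - 1))).card : ℝ) - X * ∏ p ∈ T, gm m p| ≤
      2 * ∏ p ∈ T, (p : ℝ) := by
  have h1 := SB1_ind m hm T hT 1 0 le_rfl (fun p _ => Nat.coprime_one_left p) X hX
  have h2 : (Icc 1 ⌊X⌋₊).filter (fun q => q ≡ 0 [MOD 1] ∧ ∀ p ∈ T, p ∣ q * (m * q - 1)) =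
      (Icc 1 ⌊X⌋₊).filter (fun q => ∀ p ∈ T, p ∣ q * (m * q - 1)) := by
    ext q
    rw [mem_filter, mem_filter]
    constructor
    · rintro ⟨h3, _, h4⟩
      exact ⟨h3, h4⟩
    · rintro ⟨h3, h4⟩
      exact ⟨h3, Nat.modEq_one, h4⟩
  rw [h2, Nat.cast_one, div_one] at h1
  refine h1.trans ?_
  have h3 : ∏ _p ∈ T, (2 : ℝ) ≤ ∏ p ∈ T, (p : ℝ) := by
    refine prod_le_prod (fun _ _ => by norm_num) fun p hp => ?_
    exact_mod_cast (hT p hp).two_le
  have h4 : (0 : ℝ) ≤ ∏ p ∈ T, (p : ℝ) := prod_nonneg fun _ _ => by positivity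
  linarith

end MWS
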